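import Pool.Agent.L5helper88.KE.Metric
import Pool.Agent.H911R3.Hardy

/-! A lower bound for the bottom of the spectrum from a vector field. -/

set_option linter.unusedSectionVars false
set_option linter.unusedSimpArgs false

namespace Pool.Agent.L5helper88.KE

open MeasureTheory Set Filter Topology Matrix
open scoped ComplexOrder ComplexConjugate

variable {ι : Type} [Fintype ι] [DecidableEq ι]

theorem sum_eq_dot (M : Matrix ι ι ℂ) (x y : ι → ℂ) :
    ∑ i, ∑ j, M i j * x i * y j = x ⬝ᵥ (M *ᵥ y) := by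
  simp only [dotProduct, Matrix.mulVec, Finset.mul_sum]
  refine Finset.sum_congr rfl fun I _ => Finset.sum_congr rfl fun J _ => ?_
  ring

/-- duality for a positive definite Hermitian form -/
theorem quad_dual {g : Matrix ι ι ℂ} (hg : g.PosDef) (ξ V : ι → ℂ) :
    2 * (∑ i, ξ i * V i).re - (∑ i, ∑ j, g i j * V i * conj (V j)).re ≤
      (∑ i, ∑ j, g⁻¹ j i * ξ i * conj (ξ j)).re := by
  have hdet : IsUnit g.det := by
    rw [isUnit_iff_ne_zero]
    exact hg.det_pos.ne'
  set x : ι → ℂ := star V with hx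
  set u : ι → ℂ := g⁻¹ *ᵥ ξ with hu
  have hgu : g *ᵥ u = ξ := by
    rw [hu, Matrix.mulVec_mulVec, Matrix.mul_nonsing_inv _ hdet, Matrix.one_mulVec]
  have hV : V = star x := by rw [hx, star_star]
  have e1 : (∑ i, ∑ j, g i j * V i * conj (V j)) = star x ⬝ᵥ (g *ᵥ x) := by
    rw [sum_eq_dot g V (fun j => conj (V j)), ← hV]
    rfl
  have e2 : ∑ i, ξ i * V i = star x ⬝ᵥ ξ := by
    rw [← hV, dotProduct_comm]
    rfl
  have e3 : ∑ i, ∑ j, g⁻¹ j i * ξ i * conj (ξ j) = star ξ ⬝ᵥ u := by
    rw [hu, Finset.sum_comm, dotProduct]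
    refine Finset.sum_congr rfl fun j _ => ?_
    rw [Matrix.mulVec, dotProduct, Finset.mul_sum]
    refine Finset.sum_congr rfl fun i _ => ?_
    simp only [Pi.star_apply, RCLike.star_def]
    ring
  have hherm : gᴴ = g := hg.1
  have e4 : star u ⬝ᵥ (g *ᵥ x) = star (star x ⬝ᵥ ξ) := by
    have h1 : star ξ = star u ᵥ* g := by
      rw [← hgu, Matrix.star_mulVec, hherm]
    rw [Matrix.dotProduct_mulVec, ← h1, Matrix.star_dotProduct]
  have e5 : star ξ ⬝ᵥ u = star (star u ⬝ᵥ ξ) := Matrix.star_dotProduct _ _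
  have hpos : 0 ≤ (star (x - u) ⬝ᵥ (g *ᵥ (x - u))).re := by
    have := hg.posSemidef.dotProduct_mulVec_nonneg (x - u)
    exact (Complex.le_def.mp this).1
  have e6 : star (x - u) ⬝ᵥ (g *ᵥ (x - u)) =
      star x ⬝ᵥ (g *ᵥ x) - star x ⬝ᵥ ξ - star u ⬝ᵥ (g *ᵥ x) + star u ⬝ᵥ ξ := by
    rw [Matrix.mulVec_sub, hgu, star_sub, sub_dotProduct, dotProduct_sub, dotProduct_sub]
    ring
  rw [e6, e4] at hpos
  rw [e1, e2, e3, e5]
  simp only [Complex.add_re, Complex.sub_re] at hpos
  have c1 : (star (star x ⬝ᵥ ξ) : ℂ).re = (star x ⬝ᵥ ξ).re := by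
    rw [RCLike.star_def, Complex.conj_re]
  have c2 : (star (star u ⬝ᵥ ξ) : ℂ).re = (star u ⬝ᵥ ξ).re := by
    rw [RCLike.star_def, Complex.conj_re]
  rw [c1] at hpos
  rw [c2]
  linarith

theorem contDiff_of_supp {n : WithTop ℕ∞} {Y : Set (ι → ℂ)} (hY : IsOpen Y) {h : (ι → ℂ) → ℂ}
    {F : (ι → ℂ) → ℝ} (hh : ContDiffOn ℝ n h Y) (hz : ∀ p, p ∉ tsupport F → h p = 0)
    (hs : tsupport F ⊆ Y) : ContDiff ℝ n h := by
  rw [contDiff_iff_contDiffAt]
  intro p
  by_cases hp : p ∈ tsupport F
  · exact (hh p (hs hp)).contDiffAt (hY.mem_nhds (hs hp))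
  · have h1 : h =ᶠ[𝓝 p] fun _ => 0 := by
      filter_upwards [(isClosed_tsupport F).isOpen_compl.mem_nhds hp] with q hq
      exact hz q hq
    exact (contDiffAt_const (c := (0 : ℂ))).congr_of_eventuallyEq h1

theorem compactSupport_of_supp {h : (ι → ℂ) → ℂ}
    {F : (ι → ℂ) → ℝ} (hz : ∀ p, p ∉ tsupport F → h p = 0) (hc : HasCompactSupport F) :
    HasCompactSupport h := by
  apply HasCompactSupport.of_support_subset_isCompact hc
  intro p hp
  by_contra hn
  exact hp (hz p hn)

theorem integral_fderiv_zero {h : (ι → ℂ) → ℂ} (hh : ContDiff ℝ 1 h) (hc : HasCompactSupport h)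
    (w : ι → ℂ) : ∫ p, fderiv ℝ h p w = 0 := by
  have hd : Continuous fun p => fderiv ℝ h p w :=
    (hh.continuous_fderiv (by norm_num)).clm_apply continuous_const
  have hdc : HasCompactSupport fun p => fderiv ℝ h p w := by
    have := hc.fderiv (𝕜 := ℝ)
    exact this.comp_left (g := fun L : (ι → ℂ) →L[ℝ] ℂ => L w) (by simp)
  have i1 : Integrable (fun p => fderiv ℝ h p w * (1 : ℂ)) := by
    simpa using hd.integrable_of_hasCompactSupport hdc
  have i2 : Integrable (fun p : ι → ℂ => h p * fderiv ℝ (fun _ : ι → ℂ => (1 : ℂ)) p w) := by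
    simp
  have i3 : Integrable (fun p => h p * (1 : ℂ)) := by
    simpa using hh.continuous.integrable_of_hasCompactSupport hc
  have key := integral_mul_fderiv_eq_neg_fderiv_mul_of_integrable (μ := (volume : Measure (ι → ℂ)))
    (f := h) (g := fun _ => (1 : ℂ)) (v := w) i1 i2 i3
    (fun x _ => hh.differentiable (by norm_num) x) (fun x _ => differentiableAt_const _)
  simp at key
  exact key

theorem integrable_fderiv {h : (ι → ℂ) → ℂ} (hh : ContDiff ℝ 1 h) (hc : HasCompactSupport h)
    (w : ι → ℂ) : Integrable fun p => fderiv ℝ h p w := by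
  have hd : Continuous fun p => fderiv ℝ h p w :=
    (hh.continuous_fderiv (by norm_num)).clm_apply continuous_const
  have hdc : HasCompactSupport fun p => fderiv ℝ h p w := by
    have := hc.fderiv (𝕜 := ℝ)
    exact this.comp_left (g := fun L : (ι → ℂ) →L[ℝ] ℂ => L w) (by simp)
  exact hd.integrable_of_hasCompactSupport hdc

theorem integral_dz_zero {h : (ι → ℂ) → ℂ} (hh : ContDiff ℝ 1 h) (hc : HasCompactSupport h)
    (i : ι) : ∫ p, dz i h p = 0 := by
  unfold dz
  rw [integral_div, integral_sub (integrable_fderiv hh hc _)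
    ((integrable_fderiv hh hc _).const_mul _), integral_const_mul, integral_fderiv_zero hh hc,
    integral_fderiv_zero hh hc]
  simp

theorem integrable_dz {h : (ι → ℂ) → ℂ} (hh : ContDiff ℝ 1 h) (hc : HasCompactSupport h)
    (i : ι) : Integrable fun p => dz i h p := by
  unfold dz
  exact ((integrable_fderiv hh hc _).sub ((integrable_fderiv hh hc _).const_mul _)).div_const _

theorem dz_mul {f g : (ι → ℂ) → ℂ} {p : ι → ℂ} (hf : DifferentiableAt ℝ f p)
    (hg : DifferentiableAt ℝ g p) (i : ι) :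
    dz i (fun q => f q * g q) p = f p * dz i g p + g p * dz i f p := by
  unfold dz
  have := (hf.hasFDerivAt.mul hg.hasFDerivAt).fderiv
  have h1 := fun w => congrArg (fun L => L w) this
  simp only [_root_.add_apply, _root_.smul_apply, smul_eq_mul] at h1
  have h2 : ∀ w, fderiv ℝ (fun q => f q * g q) p w = f p * fderiv ℝ g p w + g p * fderiv ℝ f p w :=
    h1
  rw [h2, h2]
  ring

theorem dz_zero {h : (ι → ℂ) → ℂ} {F : (ι → ℂ) → ℝ} (hz : ∀ p, p ∉ tsupport F → h p = 0)
    {p : ι → ℂ} (hp : p ∉ tsupport F) (i : ι) : dz i h p = 0 := by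
  have h1 : h =ᶠ[𝓝 p] fun _ => 0 := by
    filter_upwards [(isClosed_tsupport F).isOpen_compl.mem_nhds hp] with q hq
    exact hz q hq
  unfold dz
  rw [h1.fderiv_eq]
  simp

theorem continuousOn_inv {Y : Set (ι → ℂ)} {g : (ι → ℂ) → Matrix ι ι ℂ}
    (hg : ∀ i j, ContinuousOn (fun p => g p i j) Y) (hd : ∀ p ∈ Y, (g p).det ≠ 0) (i j : ι) :
    ContinuousOn (fun p => (g p)⁻¹ i j) Y := by
  have h0 : Continuous fun p : Y => g p :=
    continuous_matrix fun i j => continuousOn_iff_continuous_domRestrict.mp (hg i j)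
  have h1 : Continuous fun p : Y => (g p).det := h0.matrix_det
  have h2 : Continuous fun p : Y => (g p).adjugate := h0.matrix_adjugate
  rw [continuousOn_iff_continuous_domRestrict]
  have h3 : Continuous fun p : Y => ((g p).det)⁻¹ * (g p).adjugate i j :=
    (h1.inv₀ fun p => hd p p.2).mul (h2.matrix_elem i j)
  refine h3.congr fun p => ?_
  simp only [Set.domRestrict_apply]
  rw [Matrix.inv_def, Matrix.smul_apply, Ring.inverse_eq_inv', smul_eq_mul]

theorem det_re {g : Matrix ι ι ℂ} (hg : g.PosDef) : ((g.det.re : ℝ) : ℂ) = g.det ∧ 0 < g.det.re := by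
  have h := Complex.lt_def.mp hg.det_pos
  refine ⟨Complex.ext (by simp) ?_, by simpa using h.1⟩
  have := h.2
  simp at this ⊢
  exact this

theorem continuousOn_det {Y : Set (ι → ℂ)} {g : (ι → ℂ) → Matrix ι ι ℂ}
    (hg : ∀ i j, ContinuousOn (fun p => g p i j) Y) : ContinuousOn (fun p => (g p).det) Y := by
  have h0 : Continuous fun p : Y => g p :=
    continuous_matrix fun i j => continuousOn_iff_continuous_domRestrict.mp (hg i j)
  rw [continuousOn_iff_continuous_domRestrict]
  exact h0.matrix_det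

/-- positivity of the mass -/
theorem mass_pos {Y : Set (ι → ℂ)} (hY : IsOpen Y) {G : (ι → ℂ) → ℝ} (hG : ContinuousOn G Y)
    (hpos : ∀ p ∈ Y, 0 < G p) {f : (ι → ℂ) → ℝ} (hf : Continuous f) (hc : HasCompactSupport f)
    (hs : tsupport f ⊆ Y) (hne : f ≠ 0) : 0 < ∫ p in Y, f p ^ 2 * G p := by
  rw [setIntegral_eq_integral_of_forall_compl_eq_zero (fun p hp => by
    rw [image_eq_zero_of_notMem_tsupport (fun h => hp (hs h))]; simp)]
  have hnn : ∀ p, 0 ≤ f p ^ 2 * G p := by
    intro p
    by_cases hp : p ∈ tsupport f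
    · exact mul_nonneg (sq_nonneg _) (hpos p (hs hp)).le
    · simp [image_eq_zero_of_notMem_tsupport hp]
  have hcont : Continuous fun p => f p ^ 2 * G p := by
    have h1 : ContinuousOn (fun p => f p ^ 2 * G p) Y := (hf.pow 2).continuousOn.mul hG
    refine h1.continuous_of_tsupport_subset hY (subset_trans ?_ hs)
    apply closure_mono
    intro p hp hn
    exact hp (by simp [hn])
  obtain ⟨p, hp⟩ : ∃ p, f p ≠ 0 := by
    by_contra h
    push Not at h
    exact hne (funext h)
  apply hcont.integral_pos_of_hasCompactSupport_nonneg_nonzero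
  · refine hc.of_isClosed_subset (isClosed_tsupport _) ?_
    apply closure_mono
    intro p hp hn
    exact hp (by simp [hn])
  · exact hnn
  · have hpX : p ∈ Y := hs (subset_tsupport f hp)
    exact mul_ne_zero (pow_ne_zero 2 hp) (hpos p hpX).ne'

theorem integrable_supp {Y : Set (ι → ℂ)} (hY : IsOpen Y) {h k : (ι → ℂ) → ℝ}
    (hk : ContinuousOn k Y) (hz : ∀ p, p ∉ tsupport h → k p = 0) (hc : HasCompactSupport h)
    (hs : tsupport h ⊆ Y) : Integrable k :=
  H911R3.integrable_of_supp hY hk hz hc hs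

theorem rayleigh_ge {Y : Set (ι → ℂ)} (hY : IsOpen Y) {g : (ι → ℂ) → Matrix ι ι ℂ}
    (hK : IsKahler Y g) (U : ι → (ι → ℂ) → ℂ)
    (hU : ∀ i, ContDiffOn ℝ 1 (fun q => U i q * (g q).det) Y) {lam : ℝ}
    (h : ∀ p ∈ Y, lam * (g p).det.re ≤ - (∑ i, dz i (fun q => U i q * (g q).det) p).re -
      (g p).det.re * (∑ i, ∑ j, g p i j * U i p * conj (U j p)).re)
    {f : (ι → ℂ) → ℝ} (hf : ContDiff ℝ ((⊤ : ℕ∞) : WithTop ℕ∞) f) (hc : HasCompactSupport f)
    (hs : tsupport f ⊆ Y) (hne : f ≠ 0) :
    2 * lam ≤ (∫ p in Y, gradSq g f p * vol g p) / ∫ p in Y, f p ^ 2 * vol g p := by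
  have hg : ∀ i j, ContinuousOn (fun p => g p i j) Y := fun i j => (hK.smooth i j).continuousOn
  have hdet := continuousOn_det hg
  have hdre : ContinuousOn (fun p => (g p).det.re) Y :=
    Complex.continuous_re.comp_continuousOn hdet
  have hvol : ContinuousOn (vol g) Y := by
    unfold vol
    exact continuousOn_const.mul hdre
  have hvpos : ∀ p ∈ Y, 0 < vol g p := fun p hp =>
    mul_pos (by positivity) (det_re (hK.posDef p hp)).2
  have hm := mass_pos hY hvol hvpos hf.continuous hc hs hne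
  rw [le_div_iff₀ hm]
  have hf0 : ∀ p, p ∉ tsupport f → f p = 0 := fun p hp => image_eq_zero_of_notMem_tsupport hp
  have hfC : ContDiff ℝ ((⊤ : ℕ∞) : WithTop ℕ∞) fun q => (f q : ℂ) :=
    Complex.ofRealCLM.contDiff.comp hf
  have hfd : ∀ p, DifferentiableAt ℝ (fun q => (f q : ℂ)) p := fun p =>
    hfC.differentiable (by norm_cast) p
  -- the fields
  set h' : ι → (ι → ℂ) → ℂ := fun i q => ((f q : ℂ) * (f q : ℂ)) * (U i q * (g q).det) with hh'
  have hz' : ∀ i p, p ∉ tsupport f → h' i p = 0 := fun i p hp => by simp [hh', hf0 p hp]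
  have hC1 : ∀ i, ContDiff ℝ 1 (h' i) := by
    intro i
    apply contDiff_of_supp hY (F := f) _ (hz' i) hs
    exact ((hfC.of_le (by norm_cast)).mul (hfC.of_le (by norm_cast))).contDiffOn.mul (hU i)
  have hcs : ∀ i, HasCompactSupport (h' i) := fun i => compactSupport_of_supp (hz' i) hc
  have hint : Integrable fun p => (∑ i, dz i (h' i) p).re := by
    have : Integrable fun p => ∑ i, dz i (h' i) p :=
      integrable_finsetSum _ fun i _ => integrable_dz (hC1 i) (hcs i) i
    exact this.re
  have hzero : ∫ p in Y, (∑ i, dz i (h' i) p).re = 0 := by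
    rw [setIntegral_eq_integral_of_forall_compl_eq_zero (fun p hp => by
      rw [Finset.sum_eq_zero fun i _ => dz_zero (hz' i) (fun h => hp (hs h)) i]; simp)]
    have h1 : Integrable fun p => ∑ i, dz i (h' i) p :=
      integrable_finsetSum _ fun i _ => integrable_dz (hC1 i) (hcs i) i
    have h2 := Complex.reCLM.integral_comp_comm h1
    simp only [Complex.reCLM_apply] at h2
    rw [h2, integral_finsetSum _ fun i _ => integrable_dz (hC1 i) (hcs i) i,
      Finset.sum_eq_zero fun i _ => integral_dz_zero (hC1 i) (hcs i) i]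
    simp
  -- the energy density
  set T : (ι → ℂ) → ℝ := fun p => (∑ i, ∑ j, (g p)⁻¹ j i * dz i (fun q => (f q : ℂ)) p *
    conj (dz j (fun q => (f q : ℂ)) p)).re * (g p).det.re with hT
  have hdzc : ∀ i, Continuous fun p => dz i (fun q => (f q : ℂ)) p := by
    intro i
    unfold dz
    have cdf : ∀ w, Continuous fun p => fderiv ℝ (fun q => (f q : ℂ)) p w := fun w =>
      (hfC.continuous_fderiv (by norm_cast)).clm_apply continuous_const
    exact ((cdf _).sub (continuous_const.mul (cdf _))).div_const 2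
  have hdz0 : ∀ p, p ∉ tsupport f → ∀ i, dz i (fun q => (f q : ℂ)) p = 0 := fun p hp i =>
    dz_zero (F := f) (fun q hq => by rw [hf0 q hq]; simp) hp i
  have hTc : ContinuousOn T Y := by
    rw [hT]
    refine ContinuousOn.mul ?_ hdre
    refine Complex.continuous_re.comp_continuousOn ?_
    refine continuousOn_finsetSum _ fun i _ => continuousOn_finsetSum _ fun j _ => ?_
    refine ((continuousOn_inv hg (fun p hp => (hK.posDef p hp).det_pos.ne') j i).mul
      (hdzc i).continuousOn).mul ?_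
    exact (Complex.continuous_conj.comp (hdzc j)).continuousOn
  have hTi : Integrable T := integrable_supp hY hTc (fun p hp => by
    simp [hT, hdz0 p hp]) hc hs
  have hmi : Integrable fun p => f p ^ 2 * (g p).det.re :=
    integrable_supp hY ((hf.continuous.pow 2).continuousOn.mul hdre)
      (fun p hp => by simp [hf0 p hp]) hc hs
  have hE : ∫ p in Y, gradSq g f p * vol g p = 2 ^ (Fintype.card ι) * 2 * ∫ p in Y, T p := by
    rw [← integral_const_mul]
    refine setIntegral_congr_fun hY.measurableSet fun p _ => ?_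
    simp only [hT, gradSq, vol]
    ring
  have hMm : ∫ p in Y, f p ^ 2 * vol g p = 2 ^ (Fintype.card ι) * ∫ p in Y, f p ^ 2 * (g p).det.re := by
    rw [← integral_const_mul]
    refine setIntegral_congr_fun hY.measurableSet fun p _ => ?_
    simp only [vol]
    ring
  rw [hE, hMm]
  have key : lam * ∫ p in Y, f p ^ 2 * (g p).det.re ≤ ∫ p in Y, T p := by
    have h1 : ∫ p in Y, ((∑ i, dz i (h' i) p).re + lam * (f p ^ 2 * (g p).det.re)) ≤
        ∫ p in Y, T p := by
      apply setIntegral_mono_on (hint.integrableOn.add (hmi.integrableOn.const_mul _))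
        hTi.integrableOn hY.measurableSet
      intro p hp
      have hpd := hK.posDef p hp
      have hd := (det_re hpd).1
      have hd0 := (det_re hpd).2
      have hq := quad_dual hpd (fun i => dz i (fun q => (f q : ℂ)) p) (fun i => (f p : ℂ) * U i p)
      have hdz : ∀ i, dz i (h' i) p = ((f p : ℂ) * (f p : ℂ)) *
          dz i (fun q => U i q * (g q).det) p +
          (U i p * (g p).det) * (2 * (f p : ℂ) * dz i (fun q => (f q : ℂ)) p) := by
        intro i
        rw [hh']
        have hd1 : DifferentiableAt ℝ (fun q => U i q * (g q).det) p :=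
          ((hU i).contDiffAt (hY.mem_nhds hp)).differentiableAt (by norm_num)
        have := dz_mul ((hfd p).mul (hfd p)) hd1 i
        refine Eq.trans this ?_
        have h3 := dz_mul (hfd p) (hfd p) i
        have h4 : dz i ((fun q => (f q : ℂ)) * (fun q => (f q : ℂ))) p =
          (f p : ℂ) * dz i (fun q => (f q : ℂ)) p + (f p : ℂ) * dz i (fun q => (f q : ℂ)) p := h3
        rw [h4]
        simp only [Pi.mul_apply]
        ring
      have e1 : (∑ i, dz i (h' i) p).re = f p ^ 2 * (∑ i, dz i (fun q => U i q * (g q).det) p).re +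
          (g p).det.re * (2 * (∑ i, dz i (fun q => (f q : ℂ)) p * ((f p : ℂ) * U i p)).re) := by
        have : ∑ i, dz i (h' i) p = ((f p ^ 2 : ℝ) : ℂ) *
            ∑ i, dz i (fun q => U i q * (g q).det) p +
          (((g p).det.re * 2 : ℝ) : ℂ) *
            ∑ i, dz i (fun q => (f q : ℂ)) p * ((f p : ℂ) * U i p) := by
          simp only [hdz, Finset.mul_sum]
          rw [← Finset.sum_add_distrib]
          refine Finset.sum_congr rfl fun i _ => ?_
          push_cast
          rw [hd]
          ring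
        rw [this, Complex.add_re, Complex.re_ofReal_mul, Complex.re_ofReal_mul]
        ring
      have e2 : (∑ i, ∑ j, g p i j * ((f p : ℂ) * U i p) * conj ((f p : ℂ) * U j p)).re =
          f p ^ 2 * (∑ i, ∑ j, g p i j * U i p * conj (U j p)).re := by
        have : ∑ i, ∑ j, g p i j * ((f p : ℂ) * U i p) * conj ((f p : ℂ) * U j p) =
            ((f p ^ 2 : ℝ) : ℂ) * ∑ i, ∑ j, g p i j * U i p * conj (U j p) := by
          simp only [Finset.mul_sum]
          refine Finset.sum_congr rfl fun i _ => Finset.sum_congr rfl fun j _ => ?_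
          rw [map_mul, Complex.conj_ofReal]
          push_cast
          ring
        rw [this, Complex.re_ofReal_mul]
      rw [e2] at hq
      have h5 := mul_le_mul_of_nonneg_right hq hd0.le
      have h6 := mul_le_mul_of_nonneg_left (h p hp) (sq_nonneg (f p))
      rw [hT]
      change (∑ i, dz i (h' i) p).re + lam * (f p ^ 2 * (g p).det.re) ≤ _
      beta_reduce
      beta_reduce at h5
      rw [e1]
      nlinarith [h5, h6]
    rw [integral_add hint.integrableOn (hmi.integrableOn.const_mul _), hzero, zero_add,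
      integral_const_mul] at h1
    exact h1
  have h2 : (0 : ℝ) < 2 ^ (Fintype.card ι) := by positivity
  nlinarith [mul_le_mul_of_nonneg_left key h2.le]

theorem bottom_ge {Y : Set (ι → ℂ)} (hY : IsOpen Y) (hne : Y.Nonempty)
    {g : (ι → ℂ) → Matrix ι ι ℂ}
    (hK : IsKahler Y g) (U : ι → (ι → ℂ) → ℂ)
    (hU : ∀ i, ContDiffOn ℝ 1 (fun q => U i q * (g q).det) Y) {lam : ℝ}
    (h : ∀ p ∈ Y, lam * (g p).det.re ≤ - (∑ i, dz i (fun q => U i q * (g q).det) p).re -
      (g p).det.re * (∑ i, ∑ j, g p i j * U i p * conj (U j p)).re) :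
    2 * lam ≤ bottom Y g := by
  unfold bottom
  apply le_csInf
  · obtain ⟨p, hp⟩ := hne
    obtain ⟨f, hf1, hf2, hf3, _, hf5⟩ := exists_contDiff_tsupport_subset
      (n := (⊤ : ℕ∞)) (hY.mem_nhds hp)
    exact ⟨_, f, hf3, hf2, hf1, fun h0 => by rw [h0] at hf5; simp at hf5, rfl⟩
  · rintro r ⟨f, hf, hc, hs, hf0, rfl⟩
    exact rayleigh_ge hY hK U hU h hf hc hs hf0

end Pool.Agent.L5helper88.KE
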