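import Pool.Agent.L5helper88.KE.Defs
import Pool.Agent.H911R3.Complete

/-! A criterion of completeness. -/

set_option linter.unusedSectionVars false
set_option linter.unusedSimpArgs false

namespace Pool.Agent.L5helper88.KE

open MeasureTheory Set Filter Topology
open scoped ComplexOrder ComplexConjugate

section general

variable {ι : Type} [Fintype ι] [DecidableEq ι]

theorem pathLength_nonneg (g : (ι → ℂ) → Matrix ι ι ℂ) (c : ℝ → ι → ℂ) :
    0 ≤ pathLength g c := by
  apply intervalIntegral.integral_nonneg zero_le_one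
  intro τ _
  exact Real.sqrt_nonneg _

theorem riemDist_nonneg (X : Set (ι → ℂ)) (g : (ι → ℂ) → Matrix ι ι ℂ) (p q : ι → ℂ) :
    0 ≤ riemDist X g p q := by
  apply Real.sInf_nonneg
  rintro _ ⟨c, _, rfl⟩
  exact pathLength_nonneg g c

theorem continuousOn_normSq {X : Set (ι → ℂ)} {g : (ι → ℂ) → Matrix ι ι ℂ}
    (hcont : ∀ i j, ContinuousOn (fun p => g p i j) X) {c : ℝ → ι → ℂ} {d : ℝ → ι → ℂ}
    (hc : ContinuousOn c (Icc 0 1)) (hd : ContinuousOn d (Icc 0 1))
    (hcX : ∀ τ ∈ Icc (0 : ℝ) 1, c τ ∈ X) :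
    ContinuousOn (fun τ => Real.sqrt (normSq g (c τ) (d τ))) (Icc 0 1) := by
  apply ContinuousOn.sqrt
  unfold normSq
  apply continuousOn_const.mul
  apply Complex.continuous_re.comp_continuousOn
  refine continuousOn_finsetSum _ fun i _ => continuousOn_finsetSum _ fun j _ => ?_
  refine (((hcont i j).comp hc hcX).mul ?_).mul ?_
  · exact (continuous_apply i).comp_continuousOn hd
  · exact Complex.continuous_conj.comp_continuousOn ((continuous_apply j).comp_continuousOn hd)

theorem complete_of {X : Set (ι → ℂ)} {g : (ι → ℂ) → Matrix ι ι ℂ} (hX : IsOpen X)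
    (hpath : ∀ p ∈ X, ∀ q ∈ X, (pathsIn X p q).Nonempty)
    (hcont : ∀ i j, ContinuousOn (fun p => g p i j) X) {b : (ι → ℂ) → ℝ}
    (hb : ContDiffOn ℝ 1 b X) {C : ℝ} (hC : 0 < C)
    (hbC : ∀ p ∈ X, ∀ V, |fderiv ℝ b p V| ≤ C * Real.sqrt (normSq g p V))
    (hE : ∀ p ∈ X, ∀ V : ι → ℂ, ‖V‖ ≤ C * Real.sqrt (normSq g p V))
    (hsub : ∀ c : ℝ, IsCompact {p | p ∈ X ∧ b p ≤ c}) : IsCompleteMetric X g := by
  have hlen : ∀ p q, ∀ c ∈ pathsIn X p q, |b q - b p| ≤ C * pathLength g c ∧
      ‖q - p‖ ≤ C * pathLength g c := by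
    rintro p q c ⟨h1, rfl, rfl, hcX⟩
    have hd : Continuous (deriv c) := h1.continuous_deriv le_rfl
    have hL : ContinuousOn (fun τ => C * Real.sqrt (normSq g (c τ) (deriv c τ))) (Icc 0 1) :=
      continuousOn_const.mul (continuousOn_normSq hcont h1.continuous.continuousOn
        hd.continuousOn hcX)
    have hcd : ∀ τ, HasDerivAt c (deriv c τ) τ := fun τ =>
      ((h1.differentiable (by norm_num)) τ).hasDerivAt
    have e : ∫ τ in (0 : ℝ)..1, C * Real.sqrt (normSq g (c τ) (deriv c τ)) =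
        C * pathLength g c := by
      rw [intervalIntegral.integral_const_mul]
      rfl
    rw [← e]
    constructor
    · rw [← Real.norm_eq_abs]
      refine Pool.Agent.H911R3.path_bound (φ := fun τ => b (c τ))
        (φ' := fun τ => fderiv ℝ b (c τ) (deriv c τ)) ?_ ?_ hL ?_
      · intro τ hτ
        have h2 : DifferentiableAt ℝ b (c τ) :=
          ((hb.differentiableOn (by norm_num)) _ (hcX τ hτ)).differentiableAt
            (hX.mem_nhds (hcX τ hτ))
        exact h2.hasFDerivAt.comp_hasDerivAt τ (hcd τ)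
      · have h2 : ContinuousOn (fderiv ℝ b) X := hb.continuousOn_fderiv_of_isOpen hX le_rfl
        exact (h2.comp h1.continuous.continuousOn hcX).clm_apply hd.continuousOn
      · intro τ hτ
        rw [Real.norm_eq_abs]
        exact hbC _ (hcX τ hτ) _
    · refine Pool.Agent.H911R3.path_bound (φ := c) (φ' := deriv c) (fun τ _ => hcd τ)
        hd.continuousOn hL fun τ hτ => hE _ (hcX τ hτ) _
  have hdist : ∀ p ∈ X, ∀ q ∈ X, |b q - b p| ≤ C * riemDist X g p q ∧
      ‖q - p‖ ≤ C * riemDist X g p q := by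
    intro p hp q hq
    have hne : (pathLength g '' pathsIn X p q).Nonempty := (hpath p hp q hq).image _
    constructor
    · rw [← div_le_iff₀' hC]
      apply le_csInf hne
      rintro _ ⟨c, hc, rfl⟩
      rw [div_le_iff₀' hC]
      exact (hlen p q c hc).1
    · rw [← div_le_iff₀' hC]
      apply le_csInf hne
      rintro _ ⟨c, hc, rfl⟩
      rw [div_le_iff₀' hC]
      exact (hlen p q c hc).2
  intro s hs hcauchy
  obtain ⟨m₀, hm₀⟩ := hcauchy 1 one_pos
  have hK : ∀ m ≥ m₀, s m ∈ {p | p ∈ X ∧ b p ≤ b (s m₀) + C} := by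
    intro m hm
    refine ⟨hs m, ?_⟩
    have h1 := (hdist (s m₀) (hs m₀) (s m) (hs m)).1
    have h2 := hm₀ m₀ le_rfl m hm
    have h3 : C * riemDist X g (s m₀) (s m) ≤ C * 1 := mul_le_mul_of_nonneg_left h2.le hC.le
    have h4 := le_abs_self (b (s m) - b (s m₀))
    linarith
  have hcomp := hsub (b (s m₀) + C)
  have hEC : CauchySeq s := by
    rw [Metric.cauchySeq_iff]
    intro ε hε
    obtain ⟨N, hN⟩ := hcauchy (ε / C / 2) (by positivity)
    refine ⟨N, fun m hm k hk => ?_⟩
    rw [dist_eq_norm]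
    have h1 := (hdist (s k) (hs k) (s m) (hs m)).2
    have h2 := hN k hk m hm
    have h3 : C * riemDist X g (s k) (s m) ≤ C * (ε / C / 2) := mul_le_mul_of_nonneg_left h2.le hC.le
    have h4 : C * (ε / C / 2) = ε / 2 := by field_simp
    linarith
  obtain ⟨p, hp⟩ := cauchySeq_tendsto_of_complete hEC
  have hpK : p ∈ {p | p ∈ X ∧ b p ≤ b (s m₀) + C} := by
    apply hcomp.isClosed.mem_of_tendsto hp
    filter_upwards [eventually_ge_atTop m₀] with m hm
    exact hK m hm
  refine ⟨p, hpK.1, ?_⟩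
  -- local upper bound
  obtain ⟨r, hr, hball⟩ := Metric.isOpen_iff.mp hX p hpK.1
  have hKc : IsCompact (Metric.closedBall p (r / 2)) := isCompact_closedBall _ _
  have hKX : Metric.closedBall p (r / 2) ⊆ X :=
    (Metric.closedBall_subset_ball (by linarith)).trans hball
  have hbd : ∀ i j, ∃ M : ℝ, ∀ q ∈ Metric.closedBall p (r / 2), ‖g q i j‖ ≤ M := fun i j =>
    hKc.exists_bound_of_continuousOn ((hcont i j).mono hKX)
  choose M hM using hbd
  set A : ℝ := 2 * ∑ i, ∑ j, |M i j| with hA
  have hA0 : 0 ≤ A := by positivity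
  have hup : ∀ q ∈ Metric.closedBall p (r / 2), ∀ V : ι → ℂ, normSq g q V ≤ A * ‖V‖ ^ 2 := by
    intro q hq V
    unfold normSq
    rw [hA, mul_assoc]
    apply mul_le_mul_of_nonneg_left _ (by norm_num : (0:ℝ) ≤ 2)
    refine (Complex.re_le_norm _).trans ?_
    rw [Finset.sum_mul]
    refine (norm_sum_le _ _).trans (Finset.sum_le_sum fun i _ => ?_)
    rw [Finset.sum_mul]
    refine (norm_sum_le _ _).trans (Finset.sum_le_sum fun j _ => ?_)
    rw [norm_mul, norm_mul, RCLike.norm_conj, mul_assoc, sq]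
    have h1 : ‖g q i j‖ ≤ |M i j| := (hM i j q hq).trans (le_abs_self _)
    have h2 : ‖V i‖ ≤ ‖V‖ := norm_le_pi_norm V i
    have h3 : ‖V j‖ ≤ ‖V‖ := norm_le_pi_norm V j
    gcongr
  have hloc : ∀ q ∈ Metric.closedBall p (r / 2), riemDist X g q p ≤ Real.sqrt A * ‖p - q‖ := by
    intro q hq
    have hp' : p ∈ Metric.closedBall p (r / 2) := Metric.mem_closedBall_self (by linarith)
    have hmem : ∀ t ∈ Icc (0 : ℝ) 1, q + t • (p - q) ∈ Metric.closedBall p (r / 2) := by
      intro t ht
      exact (convex_closedBall p (r / 2)).add_smul_sub_mem hq hp' ht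
    have hder : ∀ t : ℝ, HasDerivAt (fun t : ℝ => q + t • (p - q)) (p - q) t := by
      intro t
      simpa using ((hasDerivAt_id t).smul_const (p - q)).const_add q
    have hcd : ContDiff ℝ 1 (fun t : ℝ => q + t • (p - q)) :=
      contDiff_const.add (contDiff_id.smul contDiff_const)
    have hmemP : (fun t : ℝ => q + t • (p - q)) ∈ pathsIn X q p :=
      ⟨hcd, by simp, by simp, fun t ht => hKX (hmem t ht)⟩
    have hle : riemDist X g q p ≤ pathLength g (fun t : ℝ => q + t • (p - q)) := by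
      apply csInf_le
      · refine ⟨0, ?_⟩
        rintro _ ⟨c, _, rfl⟩
        exact pathLength_nonneg g c
      · exact ⟨_, hmemP, rfl⟩
    refine hle.trans ?_
    unfold pathLength
    have hb2 : ∀ t ∈ Icc (0 : ℝ) 1, Real.sqrt (normSq g (q + t • (p - q))
        (deriv (fun t : ℝ => q + t • (p - q)) t)) ≤ Real.sqrt A * ‖p - q‖ := by
      intro t ht
      rw [(hder t).deriv, ← Real.sqrt_sq (norm_nonneg (p - q)), ← Real.sqrt_mul hA0]
      exact Real.sqrt_le_sqrt (hup _ (hmem t ht) _)
    have hci : ContinuousOn (fun t : ℝ => Real.sqrt (normSq g (q + t • (p - q))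
        (deriv (fun t : ℝ => q + t • (p - q)) t))) (Icc 0 1) :=
      continuousOn_normSq hcont hcd.continuous.continuousOn
        (hcd.continuous_deriv le_rfl).continuousOn fun t ht => hKX (hmem t ht)
    have i1 : IntervalIntegrable (fun t : ℝ => Real.sqrt (normSq g (q + t • (p - q))
        (deriv (fun t : ℝ => q + t • (p - q)) t))) volume 0 1 := by
      apply ContinuousOn.intervalIntegrable
      rwa [uIcc_of_le zero_le_one]
    refine (intervalIntegral.integral_mono_on zero_le_one i1 intervalIntegrable_const hb2).trans ?_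
    simp
  have hlim : Tendsto (fun m => Real.sqrt A * ‖p - s m‖) atTop (𝓝 0) := by
    have h1 : Tendsto (fun m => p - s m) atTop (𝓝 0) := by
      simpa using (tendsto_const_nhds (x := p)).sub hp
    simpa using (h1.norm).const_mul (Real.sqrt A)
  refine squeeze_zero' (Eventually.of_forall fun m => riemDist_nonneg _ _ _ _) ?_ hlim
  have hev : ∀ᶠ m in atTop, s m ∈ Metric.closedBall p (r / 2) :=
    hp.eventually (Metric.closedBall_mem_nhds p (by linarith))
  filter_upwards [hev] with m hm
  exact hloc (s m) hm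

end general

end Pool.Agent.L5helper88.KE
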