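import Pool.Agent.L5helper88.KE.Small
import Pool.Agent.L5helper88.KE.Complete

/-! The metrics are complete. -/

set_option linter.unusedSectionVars false
set_option linter.unusedSimpArgs false

namespace Pool.Agent.L5helper88.KE

open MeasureTheory Set Filter Topology Matrix
open scoped ComplexOrder ComplexConjugate

/-- reference form -/
noncomputable def F0 (p V : Ix → ℂ) : ℝ :=
  ∑ j, Complex.normSq (V (Sum.inl j)) / del j p ^ 2 +
    ∑ a, ex a p * Complex.normSq (thV a p V) / (1 - v p a) ^ 2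

theorem normSq_met {W : (Fin 2 → ℝ) → ℝ} (hG : Good W) {p : Ix → ℂ} (hp : p ∈ X) (V : Ix → ℂ) :
    normSq (met W) p V = 2 * levi (11 / 5) W p V := by
  unfold normSq
  simp only [met_eq hp (hG.smooth p hp)]
  rw [sum_hess (hG.smooth p hp), Complex.ofReal_re]

theorem levi_ge {P : (Fin 2 → ℝ) → ℝ} (hP : ContDiff ℝ ((⊤ : ℕ∞) : WithTop ℕ∞) P) {ε : ℝ}
    (h : ∀ x ∈ Icc (0 : Fin 2 → ℝ) 1, Cond P ε x) {p : Ix → ℂ} (hp : p ∈ X) (V : Ix → ℂ) :
    F0 p V ≤ levi (11 / 5) (Wf P ε) p V := by
  have hc := h _ (v_mem_Icc hp)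
  have hS := v_mem_S hp
  have l : ∀ a, 0 < 1 - v p a := fun a => by have := v_lt_one hp a; linarith
  have l' : ∀ a, 1 - v p a ≤ 1 := fun a => by have := v_nonneg p a; linarith
  rw [levi_eq]
  unfold F0
  apply add_le_add
  · apply Finset.sum_le_sum
    intro j _
    rw [Kc_Wf hP ε hS]
    have h1 : 1 ≤ 11 / 5 / (1 - v p (blk j)) * (1 + ε * kf P (blk j) (v p)) := by
      have h2 : 1 / 2 < 1 + ε * kf P (blk j) (v p) := hc.kh (blk j)
      have h3 : 11 / 5 ≤ 11 / 5 / (1 - v p (blk j)) := by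
        rw [le_div_iff₀ (l _)]
        nlinarith [l' (blk j)]
      nlinarith
    have h4 : 0 ≤ Complex.normSq (V (Sum.inl j)) := Complex.normSq_nonneg _
    have h5 : 0 < del j p ^ 2 := pow_pos (del_pos hp j) 2
    rw [div_eq_mul_one_div, mul_comm]
    gcongr
  · set A := ex 0 p * Complex.normSq (thV 0 p V) with hA
    set C := ex 1 p * Complex.normSq (thV 1 p V) with hC
    have hA0 : 0 ≤ A := mul_nonneg (ex_pos _ _).le (Complex.normSq_nonneg _)
    have hC0 : 0 ≤ C := mul_nonneg (ex_pos _ _).le (Complex.normSq_nonneg _)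
    have h1 := vert_nonneg (p := p) (b0 := 11 / (1 - v p 0) ^ 2 * (1 / 2 + ε * bf P 0 (v p)))
      (b1 := 11 / (1 - v p 1) ^ 2 * (1 / 2 + ε * bf P 1 (v p)))
      (n := D 0 (D 1 (Wf P ε)) (v p))
      (by have := hc.bh 0; have := l 0; apply mul_nonneg <;> [positivity; linarith])
      (by have := hc.bh 1; have := l 1; apply mul_nonneg <;> [positivity; linarith])
      (by
        rw [DD_Wf hP ε hS, if_neg (by decide), zero_add]
        have h2 := hc.bh2.le
        have h0 := l 0
        have h1 := l 1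
        have e3 : v p 0 * v p 1 * (ε * D 0 (D 1 P) (v p)) ^ 2 =
            121 / ((1 - v p 0) ^ 2 * (1 - v p 1) ^ 2) *
            (v p 0 * v p 1 * (ε * ((1 - v p 0) * (1 - v p 1) * D 0 (D 1 P) (v p))) ^ 2 / 121) := by
          field_simp
        have e4 : 11 / (1 - v p 0) ^ 2 * (1 / 2 + ε * bf P 0 (v p)) *
            (11 / (1 - v p 1) ^ 2 * (1 / 2 + ε * bf P 1 (v p))) =
            121 / ((1 - v p 0) ^ 2 * (1 - v p 1) ^ 2) *
            ((1 / 2 + ε * bf P 0 (v p)) * (1 / 2 + ε * bf P 1 (v p))) := by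
          field_simp
          ring
        rw [e3, e4]
        exact mul_le_mul_of_nonneg_left h2 (by positivity)) V
    have e0 : (1 : ℝ) / (1 - v p 0) ^ 2 ≤ 11 / (1 - v p 0) ^ 2 * (1 / 2) := by
      have := l 0
      rw [div_mul_eq_mul_div]
      gcongr
      norm_num
    have e1 : (1 : ℝ) / (1 - v p 1) ^ 2 ≤ 11 / (1 - v p 1) ^ 2 * (1 / 2) := by
      have := l 1
      rw [div_mul_eq_mul_div]
      gcongr
      norm_num
    rw [B_Wf hP ε hS, B_Wf hP ε hS]
    unfold vert at h1 ⊢
    rw [← hA, ← hC] at h1 ⊢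
    rw [Fin.sum_univ_two, ← hA, ← hC]
    have f0 := mul_le_mul_of_nonneg_right e0 hA0
    have f1 := mul_le_mul_of_nonneg_right e1 hC0
    have g0 : A / (1 - v p 0) ^ 2 = 1 / (1 - v p 0) ^ 2 * A := by ring
    have g1 : C / (1 - v p 1) ^ 2 = 1 / (1 - v p 1) ^ 2 * C := by ring
    rw [g0, g1]
    nlinarith [h1, f0, f1]

/-- exhaustion function -/
noncomputable def bx (p : Ix → ℂ) : ℝ := Hf 1 (fun x => - ∑ a, Real.log (1 - x a)) p

theorem contDiffAt_lg {x : Fin 2 → ℝ} (hx : x ∈ S) :
    ContDiffAt ℝ ((⊤ : ℕ∞) : WithTop ℕ∞) (fun x : Fin 2 → ℝ => - ∑ a, Real.log (1 - x a)) x := by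
  apply ContDiffAt.neg
  apply ContDiffAt.sum
  intro a _
  apply ContDiffAt.log
  · exact (contDiff_const.sub (contDiff_coord a)).contDiffAt
  · have := hx a; linarith

theorem D_lg {x : Fin 2 → ℝ} (hx : x ∈ S) (a : Fin 2) :
    D a (fun x : Fin 2 → ℝ => - ∑ a, Real.log (1 - x a)) x = 1 / (1 - x a) := by
  have h1 : ∀ b ∈ (Finset.univ : Finset (Fin 2)), HasFDerivAt (fun y : Fin 2 → ℝ => Real.log (1 - y b))
      ((1 - x b)⁻¹ • (-(ContinuousLinearMap.proj (R := ℝ) (φ := fun _ : Fin 2 => ℝ) b))) x := by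
    intro b _
    exact (hasFDerivAt_one_sub b x).log (by have := hx b; linarith)
  have h2 := (HasFDerivAt.fun_sum h1).neg
  rw [D_of_hasFDerivAt (W := fun x : Fin 2 → ℝ => - ∑ a, Real.log (1 - x a)) h2 a]
  simp only [_root_.add_apply, _root_.smul_apply, _root_.sum_apply, _root_.neg_apply,
    ContinuousLinearMap.proj_apply, smul_eq_mul, Fin.sum_univ_two, Pi.single_apply]
  fin_cases a <;> simp

theorem ex_ge_one {p : Ix → ℂ} (hp : p ∈ X0) (a : Fin 2) : 1 ≤ ex a p := by
  unfold ex
  apply Real.one_le_exp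
  have : 0 ≤ L a p := by
    unfold L
    apply Finset.sum_nonneg
    intro j _
    split_ifs
    · have := Real.log_nonpos (hp j).le (del_le_one p j)
      linarith
    · exact le_rfl
  positivity

theorem norm_w_le {p : Ix → ℂ} (hp : p ∈ X) (a : Fin 2) : Complex.normSq (p (Sum.inr a)) ≤ v p a := by
  rw [v_eq]
  have := ex_ge_one (X_subset_X0 hp) a
  nlinarith [Complex.normSq_nonneg (p (Sum.inr a))]

theorem F0_nonneg {p : Ix → ℂ} (V : Ix → ℂ) : 0 ≤ F0 p V := by
  unfold F0
  apply add_nonneg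
  · exact Finset.sum_nonneg fun j _ => div_nonneg (Complex.normSq_nonneg _) (sq_nonneg _)
  · exact Finset.sum_nonneg fun a _ => div_nonneg (mul_nonneg (ex_pos _ _).le
      (Complex.normSq_nonneg _)) (sq_nonneg _)

theorem base_le {p : Ix → ℂ} (hp : p ∈ X) (V : Ix → ℂ) (j : Fin 18) :
    ‖V (Sum.inl j)‖ / del j p ≤ Real.sqrt (F0 p V) := by
  apply Real.le_sqrt_of_sq_le
  have h1 : (‖V (Sum.inl j)‖ / del j p) ^ 2 = Complex.normSq (V (Sum.inl j)) / del j p ^ 2 := by
    rw [div_pow, Complex.sq_norm]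
  rw [h1]
  unfold F0
  have h2 := Finset.single_le_sum (f := fun j => Complex.normSq (V (Sum.inl j)) / del j p ^ 2)
    (fun j _ => div_nonneg (Complex.normSq_nonneg _) (sq_nonneg _)) (Finset.mem_univ j)
  have h3 : 0 ≤ ∑ a, ex a p * Complex.normSq (thV a p V) / (1 - v p a) ^ 2 :=
    Finset.sum_nonneg fun a _ => div_nonneg (mul_nonneg (ex_pos _ _).le
      (Complex.normSq_nonneg _)) (sq_nonneg _)
  linarith

theorem fibre_le {p : Ix → ℂ} (hp : p ∈ X) (V : Ix → ℂ) (a : Fin 2) :
    Real.sqrt (ex a p) * ‖thV a p V‖ / (1 - v p a) ≤ Real.sqrt (F0 p V) := by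
  apply Real.le_sqrt_of_sq_le
  have h1 : (Real.sqrt (ex a p) * ‖thV a p V‖ / (1 - v p a)) ^ 2 =
      ex a p * Complex.normSq (thV a p V) / (1 - v p a) ^ 2 := by
    rw [div_pow, mul_pow, Complex.sq_norm, Real.sq_sqrt (ex_pos _ _).le]
  rw [h1]
  unfold F0
  have h2 := Finset.single_le_sum (f := fun a => ex a p * Complex.normSq (thV a p V) /
    (1 - v p a) ^ 2) (fun j _ => div_nonneg (mul_nonneg (ex_pos _ _).le
      (Complex.normSq_nonneg _)) (sq_nonneg _)) (Finset.mem_univ a)
  have h3 : 0 ≤ ∑ j, Complex.normSq (V (Sum.inl j)) / del j p ^ 2 :=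
    Finset.sum_nonneg fun j _ => div_nonneg (Complex.normSq_nonneg _) (sq_nonneg _)
  linarith

theorem norm_le_one_of {z : ℂ} (h : Complex.normSq z < 1) : ‖z‖ ≤ 1 := by
  rw [← Complex.sq_norm] at h
  nlinarith [norm_nonneg z]

theorem ell_sum_le {p : Ix → ℂ} (hp : p ∈ X) (V : Ix → ℂ) (a : Fin 2) :
    ‖∑ I, ell a p I * V I‖ ≤ 18 * Real.sqrt (F0 p V) := by
  rw [Fintype.sum_sum_type]
  have h1 : ∑ b : Fin 2, ell a p (Sum.inr b) * V (Sum.inr b) = 0 :=
    Finset.sum_eq_zero fun b _ => by simp [ell]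
  rw [h1, add_zero]
  refine (norm_sum_le _ _).trans ?_
  have h2 : ∀ j ∈ (Finset.univ : Finset (Fin 18)), ‖ell a p (Sum.inl j) * V (Sum.inl j)‖ ≤
      Real.sqrt (F0 p V) := by
    intro j _
    rw [norm_mul]
    have h3 : ‖ell a p (Sum.inl j)‖ ≤ 1 / del j p := by
      have := del_pos hp j
      simp only [ell]
      split_ifs
      · rw [norm_div, RCLike.norm_conj, Complex.norm_real, Real.norm_of_nonneg this.le]
        gcongr
        exact norm_le_one_of (hp.1 j)
      · simp
        positivity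
    calc _ ≤ 1 / del j p * ‖V (Sum.inl j)‖ := by gcongr
      _ = ‖V (Sum.inl j)‖ / del j p := by ring
      _ ≤ _ := base_le hp V j
  refine (Finset.sum_le_sum h2).trans ?_
  simp

theorem grad_bx {p : Ix → ℂ} (hp : p ∈ X) (V : Ix → ℂ) :
    |fderiv ℝ bx p V| ≤ 76 * Real.sqrt (F0 p V) := by
  have hS := v_mem_S hp
  have h1 := hasW_Hf (κ := 1) (X_subset_X0 hp)
    ((contDiffAt_lg hS).differentiableAt (by norm_cast))
  have h2 := h1.hasFDerivAt_re.fderiv
  have h3 : fderiv ℝ bx p V = (Wl (fun I => ((1 : ℝ) : ℂ) * ∑ a, ell a p I +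
      ∑ a, (D a (fun x : Fin 2 → ℝ => - ∑ a, Real.log (1 - x a)) (v p) : ℂ) * vz a p I)
      (fun I => ((1 : ℝ) : ℂ) * ∑ a, conj (ell a p I) +
      ∑ a, (D a (fun x : Fin 2 → ℝ => - ∑ a, Real.log (1 - x a)) (v p) : ℂ) *
        conj (vz a p I)) V).re := congrArg (fun L => L V) h2
  rw [h3, Wl_apply, Finset.sum_add_distrib, Complex.add_re]
  have e1 : ∑ I, (((1 : ℝ) : ℂ) * ∑ a, ell a p I + ∑ a, (D a (fun x : Fin 2 → ℝ =>
      - ∑ a, Real.log (1 - x a)) (v p) : ℂ) * vz a p I) * V I =
      ∑ a, (∑ I, ell a p I * V I) + ∑ a, ((1 / (1 - v p a) : ℝ) : ℂ) *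
        ((ex a p : ℂ) * conj (p (Sum.inr a)) * thV a p V) := by
    simp only [D_lg hS, ← sum_vz]
    simp only [Fin.sum_univ_two, Finset.mul_sum]
    simp only [← Finset.sum_add_distrib]
    refine Finset.sum_congr rfl fun I _ => ?_
    push_cast
    ring
  have e2 : ∑ I, (((1 : ℝ) : ℂ) * ∑ a, conj (ell a p I) + ∑ a, (D a (fun x : Fin 2 → ℝ =>
      - ∑ a, Real.log (1 - x a)) (v p) : ℂ) * conj (vz a p I)) * conj (V I) =
      conj (∑ I, (((1 : ℝ) : ℂ) * ∑ a, ell a p I + ∑ a, (D a (fun x : Fin 2 → ℝ =>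
      - ∑ a, Real.log (1 - x a)) (v p) : ℂ) * vz a p I) * V I) := by
    rw [map_sum]
    refine Finset.sum_congr rfl fun I _ => ?_
    simp only [map_mul, map_add, map_sum, Complex.conj_ofReal]
  rw [e2, Complex.conj_re, e1]
  set z := ∑ a, (∑ I, ell a p I * V I) + ∑ a, ((1 / (1 - v p a) : ℝ) : ℂ) *
        ((ex a p : ℂ) * conj (p (Sum.inr a)) * thV a p V) with hz
  have h4 : |z.re| ≤ 38 * Real.sqrt (F0 p V) := by
    refine (Complex.abs_re_le_norm z).trans ?_
    rw [hz]
    refine (norm_add_le _ _).trans ?_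
    have h5 : ‖∑ a, (∑ I, ell a p I * V I)‖ ≤ 36 * Real.sqrt (F0 p V) := by
      rw [Fin.sum_univ_two]
      refine (norm_add_le _ _).trans ?_
      have := ell_sum_le hp V 0
      have := ell_sum_le hp V 1
      linarith
    have h6 : ∀ a, ‖((1 / (1 - v p a) : ℝ) : ℂ) *
        ((ex a p : ℂ) * conj (p (Sum.inr a)) * thV a p V)‖ ≤ Real.sqrt (F0 p V) := by
      intro a
      have l : 0 < 1 - v p a := by have := v_lt_one hp a; linarith
      rw [norm_mul, norm_mul, norm_mul, Complex.norm_real, Complex.norm_real,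
        Real.norm_of_nonneg (by positivity), Real.norm_of_nonneg (ex_pos a p).le, RCLike.norm_conj]
      refine le_trans ?_ (fibre_le hp V a)
      have h7 : Real.sqrt (ex a p) * ‖p (Sum.inr a)‖ ≤ 1 := by
        have h8 : (Real.sqrt (ex a p) * ‖p (Sum.inr a)‖) ^ 2 ≤ 1 := by
          rw [mul_pow, Real.sq_sqrt (ex_pos a p).le, Complex.sq_norm, mul_comm, ← v_eq]
          exact (v_lt_one hp a).le
        exact (sq_le_one_iff₀ (by positivity)).mp h8
      have h9 : 0 ≤ Real.sqrt (ex a p) := Real.sqrt_nonneg _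
      calc 1 / (1 - v p a) * (ex a p * ‖p (Sum.inr a)‖ * ‖thV a p V‖)
          = (Real.sqrt (ex a p) * ‖p (Sum.inr a)‖) *
            (Real.sqrt (ex a p) * ‖thV a p V‖ / (1 - v p a)) := by
            have : ex a p = Real.sqrt (ex a p) * Real.sqrt (ex a p) :=
              (Real.mul_self_sqrt (ex_pos a p).le).symm
            nth_rewrite 1 [this]
            ring
        _ ≤ 1 * (Real.sqrt (ex a p) * ‖thV a p V‖ / (1 - v p a)) := by gcongr
        _ = _ := one_mul _
    have h7 : ‖∑ a, ((1 / (1 - v p a) : ℝ) : ℂ) *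
        ((ex a p : ℂ) * conj (p (Sum.inr a)) * thV a p V)‖ ≤ 2 * Real.sqrt (F0 p V) := by
      rw [Fin.sum_univ_two]
      refine (norm_add_le _ _).trans ?_
      have := h6 0
      have := h6 1
      linarith
    linarith
  have h5 : |z.re + z.re| ≤ |z.re| + |z.re| := abs_add_le _ _
  linarith

theorem norm_le_F0 {p : Ix → ℂ} (hp : p ∈ X) (V : Ix → ℂ) : ‖V‖ ≤ 76 * Real.sqrt (F0 p V) := by
  have h0 : 0 ≤ Real.sqrt (F0 p V) := Real.sqrt_nonneg _
  rw [pi_norm_le_iff_of_nonneg (by positivity)]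
  intro I
  rcases I with j | a
  · have h1 := base_le hp V j
    have h2 := del_pos hp j
    have h3 := del_le_one p j
    have h4 : ‖V (Sum.inl j)‖ ≤ ‖V (Sum.inl j)‖ / del j p := by
      rw [le_div_iff₀ h2]
      nlinarith [norm_nonneg (V (Sum.inl j))]
    linarith
  · have e : thV a p V = V (Sum.inr a) + p (Sum.inr a) / 5 * ∑ I, ell a p I * V I := by
      unfold thV tht
      simp only [add_mul, Finset.sum_add_distrib, Finset.mul_sum, ite_mul, one_mul, zero_mul,
        Finset.sum_ite_eq', Finset.mem_univ, if_true, mul_assoc]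
    have e' : V (Sum.inr a) = thV a p V - p (Sum.inr a) / 5 * ∑ I, ell a p I * V I := by
      rw [e]; ring
    rw [e']
    refine (norm_sub_le _ _).trans ?_
    have h1 := ell_sum_le hp V a
    have hw : ‖p (Sum.inr a)‖ ≤ 1 := by
      apply norm_le_one_of
      exact (norm_w_le hp a).trans_lt (v_lt_one hp a)
    have h2 : ‖p (Sum.inr a) / 5 * ∑ I, ell a p I * V I‖ ≤ 18 * Real.sqrt (F0 p V) := by
      rw [norm_mul, norm_div]
      have h5 : ‖(5 : ℂ)‖ = 5 := by simp
      rw [h5]
      calc ‖p (Sum.inr a)‖ / 5 * ‖∑ I, ell a p I * V I‖ ≤ 1 / 5 * (18 * Real.sqrt (F0 p V)) := by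
            gcongr
        _ ≤ _ := by linarith
    have h3 : ‖thV a p V‖ ≤ Real.sqrt (F0 p V) := by
      refine le_trans ?_ (fibre_le hp V a)
      have l : 0 < 1 - v p a := by have := v_lt_one hp a; linarith
      have l' : 1 - v p a ≤ 1 := by have := v_nonneg p a; linarith
      have s1 : 1 ≤ Real.sqrt (ex a p) := by
        rw [Real.one_le_sqrt]
        exact ex_ge_one (X_subset_X0 hp) a
      rw [le_div_iff₀ l]
      nlinarith [norm_nonneg (thV a p V)]
    linarith

theorem bx_eq (p : Ix → ℂ) : bx p = ∑ a, L a p - ∑ a, Real.log (1 - v p a) := by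
  unfold bx Hf
  ring

theorem isCompact_sub (c : ℝ) : IsCompact {p | p ∈ X ∧ bx p ≤ c} := by
  have hbd : {p | p ∈ X ∧ bx p ≤ c} ⊆ Metric.closedBall (0 : Ix → ℂ) 1 := by
    rintro p ⟨hp, _⟩
    rw [mem_closedBall_zero_iff, pi_norm_le_iff_of_nonneg zero_le_one]
    intro I
    rcases I with j | a
    · exact norm_le_one_of (hp.1 j)
    · exact norm_le_one_of ((norm_w_le hp a).trans_lt (v_lt_one hp a))
  have hset : {p | p ∈ X ∧ bx p ≤ c} = {p | (∀ j, Real.exp (-c) ≤ del j p) ∧
      ((∀ j, Real.exp (-c) ≤ del j p) → (∀ a, v p a ≤ 1 - Real.exp (-c))) ∧ (bx p ≤ c)} := by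
    ext p
    constructor
    · rintro ⟨hp, hb⟩
      have hL : ∀ a, 0 ≤ L a p := by
        intro a
        unfold L
        apply Finset.sum_nonneg
        intro j _
        split_ifs
        · have := Real.log_nonpos (del_pos hp j).le (del_le_one p j)
          linarith
        · exact le_rfl
      have hv : ∀ a, 0 ≤ - Real.log (1 - v p a) := by
        intro a
        have l : 0 < 1 - v p a := by have := v_lt_one hp a; linarith
        have l' : 1 - v p a ≤ 1 := by have := v_nonneg p a; linarith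
        have := Real.log_nonpos l.le l'
        linarith
      have hb' := hb
      rw [bx_eq, Fin.sum_univ_two, Fin.sum_univ_two] at hb'
      have h1 : ∀ j, Real.exp (-c) ≤ del j p := by
        intro j
        rw [← Real.le_log_iff_exp_le (del_pos hp j)]
        have h2 : - Real.log (del j p) ≤ L (blk j) p := by
          unfold L
          have := Finset.single_le_sum (f := fun i => if blk i = blk j then - Real.log (del i p) else 0)
            (s := Finset.univ) (fun i _ => by
              split_ifs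
              · have := Real.log_nonpos (del_pos hp i).le (del_le_one p i)
                linarith
              · exact le_rfl) (Finset.mem_univ j)
          simpa using this
        have h3 : L (blk j) p ≤ L 0 p + L 1 p := by
          have hb : blk j = 0 ∨ blk j = 1 := by
            unfold blk
            split_ifs <;> simp
          rcases hb with h | h <;> rw [h] <;> linarith [hL 0, hL 1]
        linarith [hv 0, hv 1]
      refine ⟨h1, fun _ a => ?_, hb⟩
      have l : 0 < 1 - v p a := by have := v_lt_one hp a; linarith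
      have h4 : Real.exp (-c) ≤ 1 - v p a := by
        rw [← Real.le_log_iff_exp_le l]
        have : - Real.log (1 - v p a) ≤ - Real.log (1 - v p 0) + - Real.log (1 - v p 1) := by
          fin_cases a
          · have := hv 1; simp; linarith
          · have := hv 0; simp; linarith
        linarith [hL 0, hL 1]
      linarith
    · rintro ⟨h1, h2, h3⟩
      refine ⟨⟨fun j => ?_, fun a => ?_⟩, h3⟩
      · have := h1 j
        have := Real.exp_pos (-c)
        unfold del at *
        linarith [h1 j]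
      · have := h2 h1 a
        have := Real.exp_pos (-c)
        linarith
  have hcl1 : IsClosed {p : Ix → ℂ | ∀ j, Real.exp (-c) ≤ del j p} := by
    have : {p : Ix → ℂ | ∀ j, Real.exp (-c) ≤ del j p} = ⋂ j, {p | Real.exp (-c) ≤ del j p} := by
      ext p; simp
    rw [this]
    exact isClosed_iInter fun j => isClosed_le continuous_const (continuous_del j)
  have hsubX0 : {p : Ix → ℂ | ∀ j, Real.exp (-c) ≤ del j p} ⊆ X0 := fun p hp j =>
    (Real.exp_pos _).trans_le (hp j)
  have hcl2 : IsClosed ({p : Ix → ℂ | ∀ j, Real.exp (-c) ≤ del j p} ∩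
      {p | ∀ a, v p a ≤ 1 - Real.exp (-c)}) := by
    have : {p : Ix → ℂ | ∀ j, Real.exp (-c) ≤ del j p} ∩
      {p | ∀ a, v p a ≤ 1 - Real.exp (-c)} = {p : Ix → ℂ | ∀ j, Real.exp (-c) ≤ del j p} ∩
        v ⁻¹' {x | ∀ a, x a ≤ 1 - Real.exp (-c)} := rfl
    rw [this]
    apply (contDiffOn_v'.continuousOn.mono hsubX0).preimage_isClosed_of_isClosed hcl1
    have : {x : Fin 2 → ℝ | ∀ a, x a ≤ 1 - Real.exp (-c)} = ⋂ a, {x | x a ≤ 1 - Real.exp (-c)} := by
      ext x; simp
    rw [this]
    exact isClosed_iInter fun a => isClosed_le (continuous_apply a) continuous_const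
  have hsubX : ({p : Ix → ℂ | ∀ j, Real.exp (-c) ≤ del j p} ∩
      {p | ∀ a, v p a ≤ 1 - Real.exp (-c)}) ⊆ X := by
    rintro p ⟨h1, h2⟩
    refine ⟨fun j => ?_, fun a => ?_⟩
    · have h3 := h1 j
      have := Real.exp_pos (-c)
      unfold del at h3
      linarith
    · have := h2 a
      have := Real.exp_pos (-c)
      linarith
  have hcb : ContinuousOn bx X := by
    have h := contDiffOn_Hf (κ := 1) (W := fun x => - ∑ a, Real.log (1 - x a))
      (fun p hp => contDiffAt_lg (v_mem_S hp))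
    have h2 := Complex.continuous_re.comp_continuousOn h.continuousOn
    exact h2
  have hclosed : IsClosed {p | p ∈ X ∧ bx p ≤ c} := by
    have e : {p | p ∈ X ∧ bx p ≤ c} = ({p : Ix → ℂ | ∀ j, Real.exp (-c) ≤ del j p} ∩
      {p | ∀ a, v p a ≤ 1 - Real.exp (-c)}) ∩ bx ⁻¹' (Iic c) := by
      rw [hset]
      ext p
      simp only [mem_ofPred_eq, mem_inter_iff, mem_preimage, mem_Iic]
      constructor
      · rintro ⟨h1, h2, h3⟩
        exact ⟨⟨h1, h2 h1⟩, h3⟩
      · rintro ⟨⟨h1, h2⟩, h3⟩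
        exact ⟨h1, fun _ => h2, h3⟩
    rw [e]
    exact (hcb.mono hsubX).preimage_isClosed_of_isClosed hcl2 isClosed_Iic
  exact (isCompact_closedBall _ _).of_isClosed_subset hclosed hbd

theorem smul_mem_X {p : Ix → ℂ} (hp : p ∈ X) {t : ℝ} (ht : t ∈ Icc (0 : ℝ) 1) : t • p ∈ X := by
  have hn : ∀ K, Complex.normSq ((t • p) K) = t ^ 2 * Complex.normSq (p K) := by
    intro K
    rw [Pi.smul_apply, Complex.real_smul, Complex.normSq_mul, Complex.normSq_ofReal]
    ring
  have ht2 : t ^ 2 ≤ 1 := pow_le_one₀ ht.1 ht.2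
  have hd : ∀ j, del j p ≤ del j (t • p) := by
    intro j
    unfold del
    rw [hn]
    nlinarith [Complex.normSq_nonneg (p (Sum.inl j))]
  have hd' : ∀ j, 0 < del j (t • p) := fun j => (del_pos hp j).trans_le (hd j)
  refine ⟨fun j => ?_, fun a => ?_⟩
  · have := hd' j
    unfold del at this
    linarith
  · have hL : L a (t • p) ≤ L a p := by
      unfold L
      apply Finset.sum_le_sum
      intro j _
      split_ifs
      · have := Real.log_le_log (del_pos hp j) (hd j)
        linarith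
      · exact le_rfl
    unfold v
    rw [hn]
    have h1 : Real.exp (L a (t • p) / 5) ≤ Real.exp (L a p / 5) := by
      apply Real.exp_le_exp.mpr
      linarith
    have h2 := hp.2 a
    unfold v at h2
    have h3 := Complex.normSq_nonneg (p (Sum.inr a))
    have h4 := Real.exp_pos (L a (t • p) / 5)
    calc t ^ 2 * Complex.normSq (p (Sum.inr a)) * Real.exp (L a (t • p) / 5)
        ≤ 1 * Complex.normSq (p (Sum.inr a)) * Real.exp (L a p / 5) := by gcongr
      _ < 1 := by rw [one_mul]; exact h2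

theorem zero_mem_X : (0 : Ix → ℂ) ∈ X := by
  refine ⟨fun j => by simp, fun a => by simp [v]⟩

theorem paths_X (p : Ix → ℂ) (hp : p ∈ X) (q : Ix → ℂ) (hq : q ∈ X) : (pathsIn X p q).Nonempty := by
  refine ⟨fun t => Real.smoothTransition (1 - 2 * t) • p + Real.smoothTransition (2 * t - 1) • q,
    ?_, ?_, ?_, ?_⟩
  · apply ContDiff.add
    · exact (Real.smoothTransition.contDiff.comp (by fun_prop)).smul contDiff_const
    · exact (Real.smoothTransition.contDiff.comp (by fun_prop)).smul contDiff_const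
  · simp [Real.smoothTransition.one_of_one_le, Real.smoothTransition.zero_of_nonpos]
  · simp only
    rw [Real.smoothTransition.zero_of_nonpos (by norm_num), Real.smoothTransition.one_of_one_le (by norm_num)]
    simp
  · intro t ht
    simp only
    rcases le_total t (1 / 2) with h | h
    · rw [Real.smoothTransition.zero_of_nonpos (by linarith : 2 * t - 1 ≤ 0), zero_smul, add_zero]
      exact smul_mem_X hp ⟨Real.smoothTransition.nonneg _, Real.smoothTransition.le_one _⟩
    · rw [Real.smoothTransition.zero_of_nonpos (by linarith : 1 - 2 * t ≤ 0), zero_smul, zero_add]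
      exact smul_mem_X hq ⟨Real.smoothTransition.nonneg _, Real.smoothTransition.le_one _⟩

theorem isConnected_X : IsConnected X := by
  have h : IsPathConnected X := by
    refine ⟨0, zero_mem_X, fun {q} hq => ?_⟩
    refine ⟨⟨⟨fun t => (t : ℝ) • q, by fun_prop⟩, by simp, by simp⟩, fun t => ?_⟩
    exact smul_mem_X hq t.2
  exact h.isConnected

theorem complete_met {P : (Fin 2 → ℝ) → ℝ} (hP : ContDiff ℝ ((⊤ : ℕ∞) : WithTop ℕ∞) P) {ε : ℝ}
    (h : ∀ x ∈ Icc (0 : Fin 2 → ℝ) 1, Cond P ε x) : IsCompleteMetric X (met (Wf P ε)) := by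
  have hG := good_Wf hP h
  have hF : ∀ p ∈ X, ∀ V, Real.sqrt (F0 p V) ≤ Real.sqrt (normSq (met (Wf P ε)) p V) := by
    intro p hp V
    apply Real.sqrt_le_sqrt
    rw [normSq_met hG hp]
    have := levi_ge hP h hp V
    have := F0_nonneg (p := p) V
    linarith
  refine complete_of (b := bx) (C := 76) isOpen_X paths_X (fun i j => ?_) ?_ (by norm_num) ?_ ?_
    isCompact_sub
  · exact ((isKahler_met hG).smooth i j).continuousOn
  · have h := contDiffOn_Hf (κ := 1) (W := fun x => - ∑ a, Real.log (1 - x a))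
      (fun p hp => contDiffAt_lg (v_mem_S hp))
    have h2 := Complex.reCLM.contDiff.comp_contDiffOn h
    exact h2.of_le (by norm_cast)
  · intro p hp V
    refine (grad_bx hp V).trans ?_
    exact mul_le_mul_of_nonneg_left (hF p hp V) (by norm_num)
  · intro p hp V
    refine (norm_le_F0 hp V).trans ?_
    exact mul_le_mul_of_nonneg_left (hF p hp V) (by norm_num)

end Pool.Agent.L5helper88.KE
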