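import Pool.Agent.L5helper88.KE.Metric

/-! Determinant and Ricci form. -/

set_option linter.unusedSectionVars false
set_option linter.unusedSimpArgs false

namespace Pool.Agent.L5helper88.KE

open MeasureTheory Set Filter Topology Matrix
open scoped ComplexOrder ComplexConjugate

/-- the coframe -/
noncomputable def Tm (p : Ix → ℂ) : Matrix Ix Ix ℂ :=
  Matrix.fromBlocks 1 0 (Matrix.of fun (a : Fin 2) (j : Fin 18) => tht a p (Sum.inl j)) 1

/-- the vertical block -/
noncomputable def Sm (W : (Fin 2 → ℝ) → ℝ) (p : Ix → ℂ) : Matrix (Fin 2) (Fin 2) ℂ :=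
  Matrix.of fun a b => (if a = b then ((D a W (v p) * ex a p : ℝ) : ℂ) else 0) +
    (D a (D b W) (v p) : ℂ) * ex a p * ex b p * conj (p (Sum.inr a)) * p (Sum.inr b)

/-- the metric in the frame -/
noncomputable def Bm (κ : ℝ) (W : (Fin 2 → ℝ) → ℝ) (p : Ix → ℂ) : Matrix Ix Ix ℂ :=
  Matrix.fromBlocks (Matrix.diagonal fun j => ((Kc κ (blk j) W (v p) / del j p ^ 2 : ℝ) : ℂ)) 0 0
    (Sm W p)

theorem Tm_inr (p : Ix → ℂ) (a : Fin 2) (I : Ix) : Tm p (Sum.inr a) I = tht a p I := by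
  rcases I with j | b
  · simp [Tm]
  · simp only [Tm, Matrix.fromBlocks_apply₂₂, tht, ell, Matrix.one_apply]
    by_cases h : a = b
    · simp [h]
    · have : ¬ (Sum.inr b : Ix) = Sum.inr a := fun h' => h (Sum.inr_injective h').symm
      simp [h, this]

theorem Tm_inl (p : Ix → ℂ) (j : Fin 18) (I : Ix) :
    Tm p (Sum.inl j) I = if I = Sum.inl j then 1 else 0 := by
  rcases I with k | b
  · simp only [Tm, Matrix.fromBlocks_apply₁₁, Matrix.one_apply]
    by_cases h : j = k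
    · simp [h]
    · have : ¬ (Sum.inl k : Ix) = Sum.inl j := fun h' => h (Sum.inl_injective h').symm
      simp [h, this]
  · simp [Tm]

theorem hess_eq_mul {κ : ℝ} {W : (Fin 2 → ℝ) → ℝ} {p : Ix → ℂ}
    (hW : ContDiffAt ℝ ((⊤ : ℕ∞) : WithTop ℕ∞) W (v p)) :
    (Matrix.of fun I J => hess κ W p I J) =
      (Tm p)ᵀ * Bm κ W p * (Tm p).map (starRingEnd ℂ) := by
  ext I J
  rw [Matrix.of_apply, Matrix.mul_apply]
  simp only [Matrix.mul_apply, Matrix.transpose_apply, Matrix.map_apply]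
  rw [Fintype.sum_sum_type]
  have e1 : ∀ j : Fin 18, (∑ K, Tm p K I * Bm κ W p K (Sum.inl j)) * conj (Tm p (Sum.inl j) J) =
      (if I = Sum.inl j ∧ J = Sum.inl j then
        ((Kc κ (blk j) W (v p) / del j p ^ 2 : ℝ) : ℂ) else 0) := by
    intro j
    rw [Fintype.sum_sum_type]
    have : ∑ b : Fin 2, Tm p (Sum.inr b) I * Bm κ W p (Sum.inr b) (Sum.inl j) = 0 :=
      Finset.sum_eq_zero fun b _ => by simp [Bm]
    rw [this, add_zero, Finset.sum_eq_single j]
    · rw [Tm_inl, Tm_inl]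
      simp only [Bm, Matrix.fromBlocks_apply₁₁, Matrix.diagonal_apply_eq]
      by_cases h1 : I = Sum.inl j <;> by_cases h2 : J = Sum.inl j <;> simp [h1, h2]
    · intro k _ hk
      simp [Bm, Matrix.diagonal_apply_ne _ hk]
    · simp
  have e2 : ∀ a : Fin 2, (∑ K, Tm p K I * Bm κ W p K (Sum.inr a)) * conj (Tm p (Sum.inr a) J) =
      (∑ b, tht b p I * Sm W p b a) * conj (tht a p J) := by
    intro a
    rw [Fintype.sum_sum_type]
    have : ∑ b : Fin 18, Tm p (Sum.inl b) I * Bm κ W p (Sum.inl b) (Sum.inr a) = 0 :=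
      Finset.sum_eq_zero fun b _ => by simp [Bm]
    rw [this, zero_add, Tm_inr]
    congr 1
    refine Finset.sum_congr rfl fun b _ => ?_
    rw [Tm_inr]
    simp [Bm]
  simp only [e1, e2]
  have e3 : ∑ j, (if I = Sum.inl j ∧ J = Sum.inl j then
      ((Kc κ (blk j) W (v p) / del j p ^ 2 : ℝ) : ℂ) else 0) =
      κ * ∑ a, Lam a p I J + ∑ a, (D a W (v p) : ℂ) * ((v p a : ℂ) / 5 * Lam a p I J) := by
    rcases I with i | i
    · rcases J with j | j
      · rw [Finset.sum_eq_single i]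
        · by_cases hij : i = j
          · subst hij
            have hb : blk i = 0 ∨ blk i = 1 := by
              unfold blk
              split_ifs <;> simp
            simp only [Fin.sum_univ_two, Lam, Kc]
            rcases hb with h | h <;> simp [h] <;> ring
          · have : ¬ j = i := fun h => hij h.symm
            simp [Lam, hij, this, Sum.inl.injEq]
        · intro k _ hk
          have : ¬ (Sum.inl i : Ix) = Sum.inl k := fun h => hk (Sum.inl_injective h).symm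
          simp [this]
        · simp
      · simp [Lam]
    · simp [Lam]
  rw [e3]
  unfold hess Sm vz
  simp only [Fin.sum_univ_two, Matrix.of_apply, ex]
  rw [D_symm hW 1 0]
  simp only [map_mul, Complex.conj_conj, Complex.conj_ofReal]
  simp
  ring

theorem det_Tm (p : Ix → ℂ) : (Tm p).det = 1 := by
  unfold Tm
  rw [Matrix.det_fromBlocks_zero₁₂]
  simp

/-- the determinant of the Levi form -/
noncomputable def dt (κ : ℝ) (W : (Fin 2 → ℝ) → ℝ) (p : Ix → ℂ) : ℝ :=
  (∏ j, Kc κ (blk j) W (v p) / del j p ^ 2) * ((ex 0 p * ex 1 p) *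
    (B 0 W (v p) * B 1 W (v p) - v p 0 * v p 1 * (D 0 (D 1 W) (v p)) ^ 2))

theorem det_hess {κ : ℝ} {W : (Fin 2 → ℝ) → ℝ} {p : Ix → ℂ}
    (hW : ContDiffAt ℝ ((⊤ : ℕ∞) : WithTop ℕ∞) W (v p)) :
    (Matrix.of fun I J => hess κ W p I J).det = (dt κ W p : ℂ) := by
  rw [hess_eq_mul hW, Matrix.det_mul, Matrix.det_mul, Matrix.det_transpose, det_Tm]
  have h1 : ((Tm p).map (starRingEnd ℂ)).det = 1 := by
    have := (RingHom.map_det (starRingEnd ℂ) (Tm p)).symm
    rw [det_Tm, map_one] at this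
    exact this
  rw [h1, one_mul, mul_one]
  unfold Bm
  rw [Matrix.det_fromBlocks_zero₂₁, Matrix.det_diagonal, Matrix.det_fin_two]
  unfold dt
  push_cast
  congr 1
  unfold Sm
  simp only [Matrix.of_apply, B]
  rw [D_symm hW 1 0]
  simp only [v_eq]
  simp
  simp only [← Complex.mul_conj]
  ring

theorem det_met {W : (Fin 2 → ℝ) → ℝ} (hG : Good W) {p : Ix → ℂ} (hp : p ∈ X) :
    (met W p).det = (dt (11 / 5) W p : ℂ) := by
  rw [← det_hess (hG.smooth p hp)]
  congr 1
  ext I J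
  rw [met_eq hp (hG.smooth p hp), Matrix.of_apply]

theorem dt_pos {W : (Fin 2 → ℝ) → ℝ} (hG : Good W) {p : Ix → ℂ} (hp : p ∈ X) :
    0 < dt (11 / 5) W p := by
  unfold dt
  apply mul_pos
  · exact Finset.prod_pos fun j _ => div_pos (hG.posK p hp _) (pow_pos (del_pos hp j) 2)
  · exact mul_pos (mul_pos (ex_pos _ _) (ex_pos _ _)) (sub_pos.mpr (hG.posDet p hp))

theorem card_blk (a : Fin 2) : (Finset.univ.filter fun j => blk j = a).card = 9 := by
  fin_cases a <;> decide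

/-- the function with `log det = 11/5 (L_0 + L_1) + Wd (v_0, v_1)` -/
noncomputable def Wd (W : (Fin 2 → ℝ) → ℝ) (x : Fin 2 → ℝ) : ℝ :=
  9 * ∑ a, Real.log (Kc (11 / 5) a W x) +
    Real.log (B 0 W x * B 1 W x - x 0 * x 1 * (D 0 (D 1 W) x) ^ 2)

theorem log_dt {W : (Fin 2 → ℝ) → ℝ} (hG : Good W) {p : Ix → ℂ} (hp : p ∈ X) :
    Real.log (dt (11 / 5) W p) = Hf (11 / 5) (Wd W) p := by
  unfold dt Hf Wd
  have h1 : ∀ j ∈ (Finset.univ : Finset (Fin 18)), Kc (11 / 5) (blk j) W (v p) / del j p ^ 2 ≠ 0 :=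
    fun j _ => (div_pos (hG.posK p hp _) (pow_pos (del_pos hp j) 2)).ne'
  rw [Real.log_mul (Finset.prod_ne_zero_iff.mpr h1)
    (mul_pos (mul_pos (ex_pos _ _) (ex_pos _ _)) (sub_pos.mpr (hG.posDet p hp))).ne',
    Real.log_prod h1, Real.log_mul (mul_pos (ex_pos _ _) (ex_pos _ _)).ne'
    (sub_pos.mpr (hG.posDet p hp)).ne', Real.log_mul (ex_pos _ _).ne' (ex_pos _ _).ne']
  unfold ex
  rw [Real.log_exp, Real.log_exp]
  have h2 : ∀ j : Fin 18, Real.log (Kc (11 / 5) (blk j) W (v p) / del j p ^ 2) =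
      Real.log (Kc (11 / 5) (blk j) W (v p)) + 2 * (- Real.log (del j p)) := by
    intro j
    rw [Real.log_div (hG.posK p hp _).ne' (pow_pos (del_pos hp j) 2).ne', Real.log_pow]
    push_cast
    ring
  simp only [h2]
  rw [Finset.sum_add_distrib]
  have h3 : ∑ j, Real.log (Kc (11 / 5) (blk j) W (v p)) =
      9 * ∑ a, Real.log (Kc (11 / 5) a W (v p)) := by
    have h4 : ∀ j : Fin 18, Real.log (Kc (11 / 5) (blk j) W (v p)) =
        ∑ a, if blk j = a then Real.log (Kc (11 / 5) a W (v p)) else 0 := by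
      intro j
      simp
    rw [Finset.sum_congr rfl fun j _ => h4 j, Finset.sum_comm, Finset.mul_sum]
    refine Finset.sum_congr rfl fun a _ => ?_
    rw [← Finset.sum_filter, Finset.sum_const, card_blk]
    simp
  have h5 : ∑ j, 2 * (- Real.log (del j p)) = 2 * ∑ a, L a p := by
    rw [← Finset.mul_sum]
    congr 1
    unfold L
    rw [Finset.sum_comm]
    refine Finset.sum_congr rfl fun j _ => ?_
    simp
  rw [h3, h5]
  simp only [Fin.sum_univ_two]
  ring

theorem ricci_met {W : (Fin 2 → ℝ) → ℝ} (hG : Good W)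
    (hd : ∀ p ∈ X, ContDiffAt ℝ ((⊤ : ℕ∞) : WithTop ℕ∞) (Wd W) (v p)) {p : Ix → ℂ} (hp : p ∈ X)
    (I J : Ix) : ricci (met W) p I J = - hess (11 / 5) (Wd W) p I J := by
  unfold ricci
  rw [Matrix.of_apply]
  congr 1
  have h1 : (fun q => ((Real.log (met W q).det.re : ℝ) : ℂ)) =ᶠ[𝓝 p]
      fun q => ((Hf (11 / 5) (Wd W) q : ℝ) : ℂ) := by
    filter_upwards [isOpen_X.mem_nhds hp] with q hq
    rw [det_met hG hq, Complex.ofReal_re, log_dt hG hq]
  have h2 : dzbar J (fun q => ((Real.log (met W q).det.re : ℝ) : ℂ)) =ᶠ[𝓝 p]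
      dzbar J (fun q => ((Hf (11 / 5) (Wd W) q : ℝ) : ℂ)) := by
    filter_upwards [h1.eventuallyEq_nhds] with q hq
    unfold dzbar
    rw [hq.fderiv_eq]
  have h3 : dz I (dzbar J (fun q => ((Real.log (met W q).det.re : ℝ) : ℂ))) p =
      dz I (dzbar J (fun q => ((Hf (11 / 5) (Wd W) q : ℝ) : ℂ))) p := by
    conv_lhs => unfold dz
    rw [h2.fderiv_eq]
    rfl
  rw [h3]
  exact dz_dzbar_Hf (X_subset_X0 hp) (hd p hp) I J

theorem D_sub {W W' : (Fin 2 → ℝ) → ℝ} {x : Fin 2 → ℝ} (h : DifferentiableAt ℝ W x)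
    (h' : DifferentiableAt ℝ W' x) (a : Fin 2) :
    D a (fun y => W y - W' y) x = D a W x - D a W' x := by
  unfold D
  have := (h.hasFDerivAt.sub h'.hasFDerivAt).fderiv
  have h2 := congrArg (fun L => L (Pi.single a 1)) this
  simp only [_root_.sub_apply] at h2
  exact h2

theorem eventually_diff {W : (Fin 2 → ℝ) → ℝ} {x : Fin 2 → ℝ}
    (hW : ContDiffAt ℝ ((⊤ : ℕ∞) : WithTop ℕ∞) W x) : ∀ᶠ y in 𝓝 x, DifferentiableAt ℝ W y := by
  have h1 : ContDiffAt ℝ 1 W x := hW.of_le (by norm_cast)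
  filter_upwards [h1.eventually (by norm_num)] with y hy
  exact hy.differentiableAt (by norm_num)

theorem hess_sub {κ : ℝ} {W W' : (Fin 2 → ℝ) → ℝ} {p : Ix → ℂ}
    (h : ContDiffAt ℝ ((⊤ : ℕ∞) : WithTop ℕ∞) W (v p))
    (h' : ContDiffAt ℝ ((⊤ : ℕ∞) : WithTop ℕ∞) W' (v p)) (I J : Ix) :
    hess κ W p I J - hess κ W' p I J = hess 0 (fun y => W y - W' y) p I J := by
  have d1 : ∀ a, D a (fun y => W y - W' y) (v p) = D a W (v p) - D a W' (v p) := fun a =>
    D_sub (h.differentiableAt (by norm_cast)) (h'.differentiableAt (by norm_cast)) a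
  have d2 : ∀ a b, D b (D a (fun y => W y - W' y)) (v p) =
      D b (D a W) (v p) - D b (D a W') (v p) := by
    intro a b
    have e : D a (fun y => W y - W' y) =ᶠ[𝓝 (v p)] fun y => D a W y - D a W' y := by
      filter_upwards [eventually_diff h, eventually_diff h'] with y hy hy'
      exact D_sub hy hy' a
    rw [D_congr e]
    exact D_sub ((contDiffAt_D h a).differentiableAt (by norm_cast))
      ((contDiffAt_D h' a).differentiableAt (by norm_cast)) b
  unfold hess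
  simp only [d1, d2, Fin.sum_univ_two]
  push_cast
  ring

/-- `Ric(ω) + ω` has the Levi form of `W - Wd` -/
theorem ricci_add {W : (Fin 2 → ℝ) → ℝ} (hG : Good W)
    (hd : ∀ p ∈ X, ContDiffAt ℝ ((⊤ : ℕ∞) : WithTop ℕ∞) (Wd W) (v p)) {p : Ix → ℂ} (hp : p ∈ X)
    (I J : Ix) : (ricci (met W) p + met W p) I J = hess 0 (fun y => W y - Wd W y) p I J := by
  rw [Matrix.add_apply, ricci_met hG hd hp, met_eq hp (hG.smooth p hp), ← hess_sub (κ := 11 / 5)
    (hG.smooth p hp) (hd p hp)]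
  ring

end Pool.Agent.L5helper88.KE
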