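import Pool.Agent.L5helper88.KE.Wirt

/-! The domain, and complex Hessians. -/

set_option linter.unusedSectionVars false
set_option linter.unusedSimpArgs false

namespace Pool.Agent.L5helper88.KE

open MeasureTheory Set Filter Topology
open scoped ComplexOrder ComplexConjugate

section general

variable {ι : Type} [Fintype ι] [DecidableEq ι]

/-- `f` is real differentiable at `p` with holomorphic Wirtinger derivatives `a` -/
def HasA (f : (ι → ℂ) → ℂ) (p : ι → ℂ) (a : ι → ℂ) : Prop := ∃ b, HasW f p a b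

theorem HasW.hasA {f : (ι → ℂ) → ℂ} {p a b : ι → ℂ} (h : HasW f p a b) : HasA f p a := ⟨b, h⟩

theorem HasA.dz {f : (ι → ℂ) → ℂ} {p a : ι → ℂ} (h : HasA f p a) (i : ι) : dz i f p = a i := by
  obtain ⟨b, hb⟩ := h
  exact hb.dz i

theorem HasA.congr {f : (ι → ℂ) → ℂ} {p a a' : ι → ℂ} (h : HasA f p a)
    (h1 : ∀ i, a i = a' i) : HasA f p a' := by
  obtain ⟨b, hb⟩ := h
  exact ⟨b, hb.congr h1 fun _ => rfl⟩

theorem HasA.congr_fun {f g : (ι → ℂ) → ℂ} {p a : ι → ℂ} (h : HasA f p a)
    (hfg : g =ᶠ[𝓝 p] f) : HasA g p a := by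
  obtain ⟨b, hb⟩ := h
  exact ⟨b, hb.congr_fun hfg⟩

theorem hasA_const (c : ℂ) (p : ι → ℂ) : HasA (fun _ => c) p 0 := (hasW_const c p).hasA

theorem HasA.add {f g : (ι → ℂ) → ℂ} {p a c : ι → ℂ} (hf : HasA f p a) (hg : HasA g p c) :
    HasA (fun q => f q + g q) p (fun i => a i + c i) := by
  obtain ⟨b, hb⟩ := hf
  obtain ⟨d, hd⟩ := hg
  exact ⟨_, hb.add hd⟩

theorem HasA.mul {f g : (ι → ℂ) → ℂ} {p a c : ι → ℂ} (hf : HasA f p a) (hg : HasA g p c) :
    HasA (fun q => f q * g q) p (fun i => f p * c i + g p * a i) := by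
  obtain ⟨b, hb⟩ := hf
  obtain ⟨d, hd⟩ := hg
  exact ⟨_, hb.mul hd⟩

theorem HasA.const_mul {f : (ι → ℂ) → ℂ} {p a : ι → ℂ} (hf : HasA f p a) (c : ℂ) :
    HasA (fun q => c * f q) p (fun i => c * a i) := by
  obtain ⟨b, hb⟩ := hf
  exact ⟨_, hb.const_mul c⟩

theorem HasA.sum {α : Type*} {s : Finset α} {f : α → (ι → ℂ) → ℂ} {p : ι → ℂ}
    {a : α → ι → ℂ} (h : ∀ k ∈ s, HasA (f k) p (a k)) :
    HasA (fun q => ∑ k ∈ s, f k q) p (fun i => ∑ k ∈ s, a k i) := by
  classical
  choose! b hb using h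
  exact ⟨_, HasW.sum hb⟩

end general

/-- the set of coordinates: `18` base coordinates and `2` fibre coordinates -/
abbrev Ix := Fin 18 ⊕ Fin 2

/-- the block of a base coordinate -/
def blk (j : Fin 18) : Fin 2 := if j.val < 9 then 0 else 1

/-- `1 - |z_j|²` -/
noncomputable def del (j : Fin 18) (p : Ix → ℂ) : ℝ := 1 - Complex.normSq (p (Sum.inl j))

/-- `- ∑ log (1 - |z_j|²)` over the block `a` -/
noncomputable def L (a : Fin 2) (p : Ix → ℂ) : ℝ :=
  ∑ j, if blk j = a then - Real.log (del j p) else 0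

/-- `v_a = |w_a|² / ∏ (1 - |z_j|²)^{1/5}` -/
noncomputable def v (p : Ix → ℂ) (a : Fin 2) : ℝ :=
  Complex.normSq (p (Sum.inr a)) * Real.exp (L a p / 5)

/-- the domain -/
def X : Set (Ix → ℂ) := {p | (∀ j, Complex.normSq (p (Sum.inl j)) < 1) ∧ ∀ a, v p a < 1}

theorem del_pos {p : Ix → ℂ} (hp : p ∈ X) (j : Fin 18) : 0 < del j p := by
  have := hp.1 j
  unfold del
  linarith

theorem del_le_one (p : Ix → ℂ) (j : Fin 18) : del j p ≤ 1 := by
  have := Complex.normSq_nonneg (p (Sum.inl j))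
  unfold del
  linarith

theorem v_nonneg (p : Ix → ℂ) (a : Fin 2) : 0 ≤ v p a :=
  mul_nonneg (Complex.normSq_nonneg _) (Real.exp_pos _).le

theorem v_lt_one {p : Ix → ℂ} (hp : p ∈ X) (a : Fin 2) : v p a < 1 := hp.2 a

theorem continuous_del (j : Fin 18) : Continuous (del j) := by
  unfold del
  exact continuous_const.sub (Complex.continuous_normSq.comp (continuous_apply _))

/-- the base part of the domain -/
def X0 : Set (Ix → ℂ) := {p | ∀ j, 0 < del j p}

theorem isOpen_X0 : IsOpen X0 := by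
  have : X0 = ⋂ j, {p | 0 < del j p} := by
    ext p; simp [X0]
  rw [this]
  exact isOpen_iInter_of_finite fun j => isOpen_lt continuous_const (continuous_del j)

theorem X_subset_X0 : X ⊆ X0 := fun _ hp j => del_pos hp j

theorem contDiff_del (j : Fin 18) : ContDiff ℝ ((⊤ : ℕ∞) : WithTop ℕ∞) (del j) := by
  have : del j = fun p : Ix → ℂ => 1 - ((p (Sum.inl j)).re ^ 2 + (p (Sum.inl j)).im ^ 2) := by
    ext p
    simp [del, Complex.normSq_apply, sq]
  rw [this]
  have h1 : ContDiff ℝ ((⊤ : ℕ∞) : WithTop ℕ∞) fun p : Ix → ℂ => (p (Sum.inl j)).re :=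
    Complex.reCLM.contDiff.comp (contDiff_apply ℝ ℂ _)
  have h2 : ContDiff ℝ ((⊤ : ℕ∞) : WithTop ℕ∞) fun p : Ix → ℂ => (p (Sum.inl j)).im :=
    Complex.imCLM.contDiff.comp (contDiff_apply ℝ ℂ _)
  exact contDiff_const.sub ((h1.pow 2).add (h2.pow 2))

theorem contDiffOn_L (a : Fin 2) : ContDiffOn ℝ ((⊤ : ℕ∞) : WithTop ℕ∞) (L a) X0 := by
  unfold L
  apply ContDiffOn.sum
  intro j _
  by_cases h : blk j = a
  · simp only [h, if_true]
    exact ((contDiff_del j).contDiffOn.log fun p hp => (hp j).ne').neg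
  · simp only [h, if_false]
    exact contDiffOn_const

theorem contDiffOn_v (a : Fin 2) :
    ContDiffOn ℝ ((⊤ : ℕ∞) : WithTop ℕ∞) (fun p => v p a) X0 := by
  unfold v
  apply ContDiffOn.mul
  · have : (fun p : Ix → ℂ => Complex.normSq (p (Sum.inr a))) =
        fun p : Ix → ℂ => ((p (Sum.inr a)).re ^ 2 + (p (Sum.inr a)).im ^ 2) := by
      ext p
      simp [Complex.normSq_apply, sq]
    rw [this]
    have h1 : ContDiff ℝ ((⊤ : ℕ∞) : WithTop ℕ∞) fun p : Ix → ℂ => (p (Sum.inr a)).re :=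
      Complex.reCLM.contDiff.comp (contDiff_apply ℝ ℂ _)
    have h2 : ContDiff ℝ ((⊤ : ℕ∞) : WithTop ℕ∞) fun p : Ix → ℂ => (p (Sum.inr a)).im :=
      Complex.imCLM.contDiff.comp (contDiff_apply ℝ ℂ _)
    exact ((h1.pow 2).add (h2.pow 2)).contDiffOn
  · exact ((contDiffOn_L a).div_const 5).exp

theorem contDiffOn_v' : ContDiffOn ℝ ((⊤ : ℕ∞) : WithTop ℕ∞) v X0 :=
  contDiffOn_pi.mpr contDiffOn_v

theorem isOpen_X : IsOpen X := by
  have h : X = X0 ∩ {p | ∀ a, v p a < 1} := by
    ext p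
    simp [X, X0, del]
  have h2 : X = ⋂ a, (X0 ∩ (fun p => v p a) ⁻¹' (Iio 1)) := by
    rw [h]
    ext p
    simp only [mem_inter_iff, mem_ofPred_eq, mem_iInter, mem_preimage, mem_Iio]
    exact ⟨fun h a => ⟨h.1, h.2 a⟩, fun h => ⟨(h 0).1, fun a => (h a).2⟩⟩
  rw [h2]
  exact isOpen_iInter_of_finite fun a =>
    (contDiffOn_v a).continuousOn.isOpen_inter_preimage isOpen_X0 isOpen_Iio

/-- `∂L_a/∂z_I` -/
noncomputable def ell (a : Fin 2) (p : Ix → ℂ) : Ix → ℂ
  | Sum.inl j => if blk j = a then conj (p (Sum.inl j)) / (del j p : ℂ) else 0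
  | Sum.inr _ => 0

/-- the vertical coframe `θ_a` -/
noncomputable def tht (a : Fin 2) (p : Ix → ℂ) (I : Ix) : ℂ :=
  (if I = Sum.inr a then 1 else 0) + p (Sum.inr a) / 5 * ell a p I

/-- `∂²L_a/∂z_I∂z̄_J` -/
noncomputable def Lam (a : Fin 2) (p : Ix → ℂ) : Ix → Ix → ℂ
  | Sum.inl i, Sum.inl j => if i = j ∧ blk j = a then 1 / (del j p : ℂ) ^ 2 else 0
  | _, _ => 0

theorem hasW_normSq (K : Ix) (p : Ix → ℂ) :
    HasW (fun q => ((Complex.normSq (q K) : ℝ) : ℂ)) p (fun I => conj (p K) * (Pi.single K 1 : Ix → ℂ) I)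
      (fun I => p K * (Pi.single K 1 : Ix → ℂ) I) := by
  have h := (hasW_coord K p).mul (hasW_conj_coord K p)
  refine (h.congr_fun (Eventually.of_forall fun q => ?_)).congr ?_ ?_
  · exact (Complex.mul_conj (q K)).symm
  · intro I; simp
  · intro I; simp

theorem hasW_del (j : Fin 18) (p : Ix → ℂ) :
    HasW (fun q => ((del j q : ℝ) : ℂ)) p
      (fun I => - (conj (p (Sum.inl j)) * (Pi.single (Sum.inl j) 1 : Ix → ℂ) I))
      (fun I => - (p (Sum.inl j) * (Pi.single (Sum.inl j) 1 : Ix → ℂ) I)) := by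
  have h := (hasW_const 1 p).sub (hasW_normSq (Sum.inl j) p)
  refine (h.congr_fun (Eventually.of_forall fun q => ?_)).congr ?_ ?_
  · simp [del]
  · intro I; simp
  · intro I; simp

theorem hasW_L (a : Fin 2) {p : Ix → ℂ} (hp : p ∈ X0) :
    HasW (fun q => ((L a q : ℝ) : ℂ)) p (ell a p) (fun I => conj (ell a p I)) := by
  have h1 : ∀ j ∈ (Finset.univ : Finset (Fin 18)), HasW (fun q =>
      (((if blk j = a then - Real.log (del j q) else 0 : ℝ) : ℝ) : ℂ)) p
      (fun I => if blk j = a then conj (p (Sum.inl j)) / (del j p : ℂ) *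
        (Pi.single (Sum.inl j) 1 : Ix → ℂ) I else 0)
      (fun I => if blk j = a then (p (Sum.inl j)) / (del j p : ℂ) *
        (Pi.single (Sum.inl j) 1 : Ix → ℂ) I else 0) := by
    intro j _
    by_cases h : blk j = a
    · simp only [h, if_true]
      have hd : HasDerivAt (fun x => - Real.log x) (-(del j p)⁻¹) (del j p) :=
        (Real.hasDerivAt_log (hp j).ne').neg
      refine ((hasW_del j p).comp hd).congr ?_ ?_
      · intro I; push_cast; ring
      · intro I; push_cast; ring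
    · simp only [h, if_false]
      exact (hasW_const 0 p).congr_fun (by simp) |>.congr (by simp) (by simp)
  have h2 := HasW.sum h1
  refine (h2.congr_fun (Eventually.of_forall fun q => ?_)).congr ?_ ?_
  · simp [L]
  · intro I
    rcases I with j | b
    · rw [Finset.sum_eq_single j]
      · simp [ell]
      · intro k _ hk
        have : (Sum.inl j : Ix) ≠ Sum.inl k := fun h => hk (Sum.inl_injective h).symm
        simp [Pi.single_apply, this]
      · simp
    · simp [ell, Pi.single_apply]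
  · intro I
    rcases I with j | b
    · rw [Finset.sum_eq_single j]
      · by_cases h : blk j = a <;> simp [ell, h]
      · intro k _ hk
        have : (Sum.inl j : Ix) ≠ Sum.inl k := fun h => hk (Sum.inl_injective h).symm
        simp [Pi.single_apply, this]
      · simp
    · simp [ell, Pi.single_apply]

theorem conj5 : (starRingEnd ℂ) 5 = 5 := map_ofNat _ 5

/-- `∂v_a/∂z_I` -/
noncomputable def vz (a : Fin 2) (p : Ix → ℂ) (I : Ix) : ℂ :=
  (Real.exp (L a p / 5) : ℂ) * conj (p (Sum.inr a)) * tht a p I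

theorem hasW_exp (a : Fin 2) {p : Ix → ℂ} (hp : p ∈ X0) :
    HasW (fun q => ((Real.exp (L a q / 5) : ℝ) : ℂ)) p
      (fun I => (Real.exp (L a p / 5) : ℂ) / 5 * ell a p I)
      (fun I => (Real.exp (L a p / 5) : ℂ) / 5 * conj (ell a p I)) := by
  have hd : HasDerivAt (fun x => Real.exp (x / 5)) (Real.exp (L a p / 5) * (1 / 5)) (L a p) :=
    ((hasDerivAt_id (L a p)).div_const 5).exp
  refine ((hasW_L a hp).comp hd).congr ?_ ?_
  · intro I; push_cast; ring
  · intro I; push_cast; ring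

theorem hasW_v (a : Fin 2) {p : Ix → ℂ} (hp : p ∈ X0) :
    HasW (fun q => ((v q a : ℝ) : ℂ)) p (vz a p) (fun I => conj (vz a p I)) := by
  have h := (hasW_normSq (Sum.inr a) p).mul (hasW_exp a hp)
  refine (h.congr_fun (Eventually.of_forall fun q => ?_)).congr ?_ ?_
  · simp [v]
  · intro I
    have e : ((Complex.normSq (p (Sum.inr a)) : ℝ) : ℂ) = p (Sum.inr a) * conj (p (Sum.inr a)) :=
      (Complex.mul_conj _).symm
    simp only [vz, tht, e, Pi.single_apply]
    split_ifs <;> ring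
  · intro I
    have e : ((Complex.normSq (p (Sum.inr a)) : ℝ) : ℂ) = p (Sum.inr a) * conj (p (Sum.inr a)) :=
      (Complex.mul_conj _).symm
    simp only [vz, tht, e, Pi.single_apply, map_mul, map_add, Complex.conj_conj,
      Complex.conj_ofReal, map_div₀, conj5]
    split_ifs <;> simp <;> ring

theorem hasA_ellbar (a : Fin 2) (J : Ix) {p : Ix → ℂ} (hp : p ∈ X0) :
    HasA (fun q => conj (ell a q J)) p (fun I => Lam a p I J) := by
  rcases J with j | b
  · by_cases h : blk j = a
    · have hd : HasDerivAt (fun x : ℝ => x⁻¹) (-((del j p) ^ 2)⁻¹) (del j p) := by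
        simpa using hasDerivAt_inv (hp j).ne'
      have h1 := (hasW_coord (Sum.inl j) p).hasA.mul ((hasW_del j p).comp hd).hasA
      refine (h1.congr_fun (Eventually.of_forall fun q => ?_)).congr ?_
      · simp [ell, h, div_eq_mul_inv]
      · intro I
        have hne : (del j p : ℂ) ≠ 0 := by exact_mod_cast (hp j).ne'
        have e : p (Sum.inl j) * conj (p (Sum.inl j)) = 1 - (del j p : ℂ) := by
          rw [Complex.mul_conj]
          simp [del]
        rcases I with i | b
        · by_cases hij : i = j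
          · subst hij
            simp only [Lam, h, Pi.single_eq_same, and_self, if_true]
            push_cast
            field_simp
            linear_combination e
          · have : (Sum.inl i : Ix) ≠ Sum.inl j := fun h => hij (Sum.inl_injective h)
            simp [Lam, hij, Pi.single_apply, this]
        · simp [Lam, Pi.single_apply]
    · refine ((hasA_const 0 p).congr_fun (Eventually.of_forall fun q => ?_)).congr ?_
      · simp [ell, h]
      · intro I
        rcases I with i | b <;> simp [Lam, h]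
  · refine ((hasA_const 0 p).congr_fun (Eventually.of_forall fun q => ?_)).congr ?_
    · simp [ell]
    · intro I
      rcases I with i | b' <;> simp [Lam]

theorem hasA_thtbar (a : Fin 2) (J : Ix) {p : Ix → ℂ} (hp : p ∈ X0) :
    HasA (fun q => conj (tht a q J)) p (fun I => conj (p (Sum.inr a)) / 5 * Lam a p I J) := by
  have h1 := ((hasW_conj_coord (Sum.inr a) p).hasA.mul (hasA_ellbar a J hp)).const_mul (1 / 5)
  have h2 := (hasA_const (if J = Sum.inr a then 1 else 0) p).add h1
  refine (h2.congr_fun (Eventually.of_forall fun q => ?_)).congr ?_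
  · simp only [tht, map_add, map_mul, map_div₀, conj5]
    split_ifs <;> simp <;> ring
  · intro I
    simp
    ring

theorem hasA_vzbar (a : Fin 2) (J : Ix) {p : Ix → ℂ} (hp : p ∈ X0) :
    HasA (fun q => conj (vz a q J)) p (fun I => (Real.exp (L a p / 5) : ℂ) *
      tht a p I * conj (tht a p J) + (v p a : ℂ) / 5 * Lam a p I J) := by
  have h1 := ((hasW_exp a hp).hasA.mul (hasW_coord (Sum.inr a) p).hasA).mul (hasA_thtbar a J hp)
  refine (h1.congr_fun (Eventually.of_forall fun q => ?_)).congr ?_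
  · simp only [vz, map_mul, Complex.conj_conj, Complex.conj_ofReal]
  · intro I
    have e : (v p a : ℂ) = p (Sum.inr a) * conj (p (Sum.inr a)) * (Real.exp (L a p / 5) : ℂ) := by
      rw [v, Complex.mul_conj]
      push_cast
      ring
    rw [e]
    simp only [tht, Pi.single_apply]
    split_ifs <;> ring

end Pool.Agent.L5helper88.KE
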