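import Pool.Agent.L5helper88.KE.Poly2

/-! All conditions hold for small `ε`. -/

set_option linter.unusedSectionVars false
set_option linter.unusedSimpArgs false

namespace Pool.Agent.L5helper88.KE

open MeasureTheory Set Filter Topology Matrix

/-- monomials -/
noncomputable def xm (i j : ℕ) (x : Fin 2 → ℝ) : ℝ := x 0 ^ i * x 1 ^ j

theorem contDiff_xm (i j : ℕ) : ContDiff ℝ ((⊤ : ℕ∞) : WithTop ℕ∞) (xm i j) :=
  ((contDiff_coord 0).pow i).mul ((contDiff_coord 1).pow j)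

theorem D_x (a b : Fin 2) (m : ℕ) (x : Fin 2 → ℝ) :
    D a (fun y => (y b) ^ m) x = if a = b then (m : ℝ) * (x b) ^ (m - 1) else 0 := by
  have h := (hasDerivAt_pow m (x b)).comp_hasFDerivAt x (hasFDerivAt_coord b x)
  rw [D_of_hasFDerivAt (W := fun y => (y b) ^ m) h a]
  by_cases hab : a = b
  · subst hab
    simp
  · simp [hab]

theorem D_xm0 (i j : ℕ) : D 0 (xm i j) = fun x => (i : ℝ) * xm (i - 1) j x := by
  ext x
  have h := D_mul (f := fun y : Fin 2 → ℝ => (y 0) ^ i) (g := fun y : Fin 2 → ℝ => (y 1) ^ j)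
    (((contDiff_coord 0).pow i).differentiable (by norm_cast) x)
    (((contDiff_coord 1).pow j).differentiable (by norm_cast) x) 0
  rw [D_x, D_x] at h
  refine Eq.trans h ?_
  simp [xm]
  ring

theorem D_xm1 (i j : ℕ) : D 1 (xm i j) = fun x => (j : ℝ) * xm i (j - 1) x := by
  ext x
  have h := D_mul (f := fun y : Fin 2 → ℝ => (y 0) ^ i) (g := fun y : Fin 2 → ℝ => (y 1) ^ j)
    (((contDiff_coord 0).pow i).differentiable (by norm_cast) x)
    (((contDiff_coord 1).pow j).differentiable (by norm_cast) x) 1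
  rw [D_x, D_x] at h
  refine Eq.trans h ?_
  simp [xm]
  ring

theorem psi_Lc' : psi PP = Lc Finset.univ ![1, 4 / 5500, 8 / 5500, 4 / 5500, 8 / 5500, -1 / 2750]
    (fun i : Fin 6 => xm (![4, 1, 2, 0, 0, 0] i) (![4, 0, 0, 1, 2, 0] i)) := by
  rw [psi_PP]
  ext x
  simp [Lc, Fin.sum_univ_six, xm]
  ring

theorem D0_psi (x : Fin 2 → ℝ) : D 0 (psi PP) x = 4 * x 0 ^ 3 * x 1 ^ 4 + (4 + 16 * x 0) / 5500 := by
  rw [psi_Lc', D_Lc fun _ => contDiff_xm _ _]
  simp only [D_xm0]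
  simp [Lc, Fin.sum_univ_six, xm]
  ring

theorem D1_psi (x : Fin 2 → ℝ) : D 1 (psi PP) x = 4 * x 0 ^ 4 * x 1 ^ 3 + (4 + 16 * x 1) / 5500 := by
  rw [psi_Lc', D_Lc fun _ => contDiff_xm _ _]
  simp only [D_xm1]
  simp [Lc, Fin.sum_univ_six, xm]
  ring

theorem D00_psi (x : Fin 2 → ℝ) : D 0 (D 0 (psi PP)) x = 12 * x 0 ^ 2 * x 1 ^ 4 + 16 / 5500 := by
  rw [psi_Lc', D_Lc fun _ => contDiff_xm _ _, D_Lc fun _ => contDiff_D (contDiff_xm _ _) _]
  simp only [D_xm0, D_cmul _ (contDiff_xm _ _)]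
  simp [Lc, Fin.sum_univ_six, xm]
  ring

theorem D11_psi (x : Fin 2 → ℝ) : D 1 (D 1 (psi PP)) x = 12 * x 0 ^ 4 * x 1 ^ 2 + 16 / 5500 := by
  rw [psi_Lc', D_Lc fun _ => contDiff_xm _ _, D_Lc fun _ => contDiff_D (contDiff_xm _ _) _]
  simp only [D_xm1, D_cmul _ (contDiff_xm _ _)]
  simp [Lc, Fin.sum_univ_six, xm]
  ring

theorem D01_psi (x : Fin 2 → ℝ) : D 0 (D 1 (psi PP)) x = 16 * x 0 ^ 3 * x 1 ^ 3 := by
  rw [psi_Lc', D_Lc fun _ => contDiff_xm _ _, D_Lc fun _ => contDiff_D (contDiff_xm _ _) _]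
  simp only [D_xm1, D_cmul _ (contDiff_xm _ _), D_xm0]
  simp [Lc, Fin.sum_univ_six, xm]
  ring

section zero

variable {P : (Fin 2 → ℝ) → ℝ} (hP : ContDiff ℝ ((⊤ : ℕ∞) : WithTop ℕ∞) P)

include hP

theorem D_psi (a : Fin 2) : D a (psi P) = fun x => D a P x -
    (9 * (D a (kf P 0) x + D a (kf P 1) x) + D a (q0 P) x) := by
  ext x
  have h : ∀ {f : (Fin 2 → ℝ) → ℝ}, ContDiff ℝ ((⊤ : ℕ∞) : WithTop ℕ∞) f → DifferentiableAt ℝ f x :=
    fun hf => hf.differentiable (by norm_cast) x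
  have k0 := h (contDiff_kf hP 0)
  have k1 := h (contDiff_kf hP 1)
  have c0 := h (contDiff_q0 hP)
  have e : psi P = fun y => P y - (9 * (kf P 0 y + kf P 1 y) + q0 P y) := by
    ext y
    simp only [psi, Fin.sum_univ_two]
    ring
  rw [e, D_sub (h hP) (((k0.fun_add k1).const_mul 9).fun_add c0),
    D_add ((k0.fun_add k1).const_mul 9) c0, D_const_mul (k0.fun_add k1), D_add k0 k1]

theorem E1_zero (a : Fin 2) (x : Fin 2 → ℝ) : E1 P a 0 x = D a (psi P) x := by
  rw [D_psi hP]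
  simp [E1, kh, dh, Fin.sum_univ_two]

theorem E2_zero (a b : Fin 2) (x : Fin 2 → ℝ) : E2 P b a 0 x = D b (D a (psi P)) x := by
  have h : ∀ {f : (Fin 2 → ℝ) → ℝ}, ContDiff ℝ ((⊤ : ℕ∞) : WithTop ℕ∞) f → DifferentiableAt ℝ f x :=
    fun hf => hf.differentiable (by norm_cast) x
  have k0 := h (contDiff_D (contDiff_kf hP 0) a)
  have k1 := h (contDiff_D (contDiff_kf hP 1) a)
  have c0 := h (contDiff_D (contDiff_q0 hP) a)
  have pa := h (contDiff_D hP a)
  rw [D_psi hP, D_sub pa (((k0.fun_add k1).const_mul 9).fun_add c0),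
    D_add ((k0.fun_add k1).const_mul 9) c0, D_const_mul (k0.fun_add k1), D_add k0 k1]
  simp [E2, kh, dh, Fin.sum_univ_two]

theorem continuousAt_E1 (a : Fin 2) (y : Fin 2 → ℝ) :
    ContinuousAt (fun z : ℝ × (Fin 2 → ℝ) => E1 P a z.1 z.2) (0, y) := by
  unfold E1
  simp only [Fin.sum_univ_two, kh, dh]
  have c0 := (contDiff_kf hP 0).continuous
  have c1 := (contDiff_kf hP 1).continuous
  have c2 := (contDiff_q0 hP).continuous
  have c3 := (contDiff_q1 hP).continuous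
  have d0 := (contDiff_D (contDiff_kf hP 0) a).continuous
  have d1 := (contDiff_D (contDiff_kf hP 1) a).continuous
  have d2 := (contDiff_D (contDiff_q0 hP) a).continuous
  have d3 := (contDiff_D (contDiff_q1 hP) a).continuous
  have d4 := (contDiff_D hP a).continuous
  fun_prop (disch := simp)

theorem continuousAt_E2 (a b : Fin 2) (y : Fin 2 → ℝ) :
    ContinuousAt (fun z : ℝ × (Fin 2 → ℝ) => E2 P b a z.1 z.2) (0, y) := by
  unfold E2
  simp only [Fin.sum_univ_two, kh, dh]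
  have c0 := (contDiff_kf hP 0).continuous
  have c1 := (contDiff_kf hP 1).continuous
  have c2 := (contDiff_q0 hP).continuous
  have c3 := (contDiff_q1 hP).continuous
  have d0 := (contDiff_D (contDiff_kf hP 0) a).continuous
  have d1 := (contDiff_D (contDiff_kf hP 1) a).continuous
  have d2 := (contDiff_D (contDiff_q0 hP) a).continuous
  have d3 := (contDiff_D (contDiff_q1 hP) a).continuous
  have b0 := (contDiff_D (contDiff_kf hP 0) b).continuous
  have b1 := (contDiff_D (contDiff_kf hP 1) b).continuous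
  have b2 := (contDiff_D (contDiff_q0 hP) b).continuous
  have b3 := (contDiff_D (contDiff_q1 hP) b).continuous
  have f0 := (contDiff_D (contDiff_D (contDiff_kf hP 0) a) b).continuous
  have f1 := (contDiff_D (contDiff_D (contDiff_kf hP 1) a) b).continuous
  have f2 := (contDiff_D (contDiff_D (contDiff_q0 hP) a) b).continuous
  have f3 := (contDiff_D (contDiff_D (contDiff_q1 hP) a) b).continuous
  have f4 := (contDiff_D (contDiff_D hP a) b).continuous
  fun_prop (disch := simp)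

theorem continuousAt_Mf {μ : Fin 2 → (Fin 2 → ℝ) → ℝ}
    (hμ : ∀ a, ContDiff ℝ ((⊤ : ℕ∞) : WithTop ℕ∞) (μ a)) (y : Fin 2 → ℝ) :
    ContinuousAt (fun z : ℝ × (Fin 2 → ℝ) => Mf P μ z.1 z.2) (0, y) := by
  unfold Mf
  simp only [Fin.sum_univ_two, kh, dh, ut]
  have c0 := (contDiff_kf hP 0).continuous
  have c1 := (contDiff_kf hP 1).continuous
  have c2 := (contDiff_q0 hP).continuous
  have c3 := (contDiff_q1 hP).continuous
  have c4 := (contDiff_bf hP 0).continuous
  have c5 := (contDiff_bf hP 1).continuous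
  have d0 := fun a => (contDiff_D (contDiff_kf hP 0) a).continuous
  have d1 := fun a => (contDiff_D (contDiff_kf hP 1) a).continuous
  have d2 := fun a => (contDiff_D (contDiff_q0 hP) a).continuous
  have d3 := fun a => (contDiff_D (contDiff_q1 hP) a).continuous
  have d4 := (contDiff_D (contDiff_D hP 1) 0).continuous
  have m0 := (hμ 0).continuous
  have m1 := (hμ 1).continuous
  have m2 := (contDiff_D (hμ 0) 0).continuous
  have m3 := (contDiff_D (hμ 1) 1).continuous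
  fun_prop (disch := simp)

end zero

theorem eventually_Cond (y : Fin 2 → ℝ) (hy : y ∈ Icc (0 : Fin 2 → ℝ) 1) :
    ∀ᶠ z : ℝ × (Fin 2 → ℝ) in 𝓝 (0, y), Cond PP z.1 z.2 := by
  have hP := contDiff_PP
  have y0 : 0 ≤ y 0 := hy.1 0
  have y1 : 0 ≤ y 1 := hy.1 1
  have c0 := (contDiff_kf hP 0).continuous
  have c1 := (contDiff_kf hP 1).continuous
  have c2 := (contDiff_q0 hP).continuous
  have c3 := (contDiff_q1 hP).continuous
  have c4 := (contDiff_bf hP 0).continuous
  have c5 := (contDiff_bf hP 1).continuous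
  have d4 := (contDiff_D (contDiff_D hP 1) 0).continuous
  have k0 : ContinuousAt (fun z : ℝ × (Fin 2 → ℝ) => kh PP z.1 0 z.2) (0, y) := by
    unfold kh; fun_prop
  have k1 : ContinuousAt (fun z : ℝ × (Fin 2 → ℝ) => kh PP z.1 1 z.2) (0, y) := by
    unfold kh; fun_prop
  have b0 : ContinuousAt (fun z : ℝ × (Fin 2 → ℝ) => 1 + z.1 * bf PP 0 z.2) (0, y) := by
    fun_prop
  have b1 : ContinuousAt (fun z : ℝ × (Fin 2 → ℝ) => 1 + z.1 * bf PP 1 z.2) (0, y) := by
    fun_prop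
  have g0 : ContinuousAt (fun z : ℝ × (Fin 2 → ℝ) => z.2 0 * z.2 1 *
      (z.1 * ((1 - z.2 0) * (1 - z.2 1) * D 0 (D 1 PP) z.2)) ^ 2 / 121) (0, y) := by
    fun_prop
  have g1 : ContinuousAt (fun z : ℝ × (Fin 2 → ℝ) =>
      (1 / 2 + z.1 * bf PP 0 z.2) * (1 / 2 + z.1 * bf PP 1 z.2)) (0, y) := by
    fun_prop
  have dh0 : ContinuousAt (fun z : ℝ × (Fin 2 → ℝ) => dh PP z.1 z.2) (0, y) := by
    unfold dh; fun_prop
  have e0 := continuousAt_E1 hP 0 y
  have e1 := continuousAt_E1 hP 1 y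
  have e00 := continuousAt_E2 hP 0 0 y
  have e11 := continuousAt_E2 hP 1 1 y
  have e01 := continuousAt_E2 hP 1 0 y
  have f0 : ContinuousAt (fun z : ℝ × (Fin 2 → ℝ) => E1 PP 0 z.1 z.2 + z.2 0 * E2 PP 0 0 z.1 z.2)
      (0, y) := by fun_prop
  have f1 : ContinuousAt (fun z : ℝ × (Fin 2 → ℝ) => E1 PP 1 z.1 z.2 + z.2 1 * E2 PP 1 1 z.1 z.2)
      (0, y) := by fun_prop
  have f2 : ContinuousAt (fun z : ℝ × (Fin 2 → ℝ) => z.2 0 * z.2 1 * (E2 PP 0 1 z.1 z.2) ^ 2)
      (0, y) := by fun_prop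
  have f3 := f0.mul f1
  filter_upwards [continuousAt_const.eventually_lt k0 (show (1 / 2 : ℝ) < _ by simp [kh]; norm_num),
    continuousAt_const.eventually_lt k1 (show (1 / 2 : ℝ) < _ by simp [kh]; norm_num),
    continuousAt_const.eventually_lt b0 (show (1 / 2 : ℝ) < _ by simp; norm_num),
    continuousAt_const.eventually_lt b1 (show (1 / 2 : ℝ) < _ by simp; norm_num),
    g0.eventually_lt g1 (by simp),
    continuousAt_const.eventually_lt dh0 (show (0 : ℝ) < _ by simp [dh]),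
    continuousAt_const.eventually_lt e0 (show (0 : ℝ) < _ by
      simp only [E1_zero hP, D0_psi]; positivity),
    continuousAt_const.eventually_lt e1 (show (0 : ℝ) < _ by
      simp only [E1_zero hP, D1_psi]; positivity),
    continuousAt_const.eventually_lt f0 (show (0 : ℝ) < _ by
      simp only [E1_zero hP, E2_zero hP, D0_psi, D00_psi]; positivity),
    continuousAt_const.eventually_lt f1 (show (0 : ℝ) < _ by
      simp only [E1_zero hP, E2_zero hP, D1_psi, D11_psi]; positivity),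
    f2.eventually_lt f3 (by
      simp only [Pi.mul_apply, E1_zero hP, E2_zero hP, D0_psi, D00_psi, D1_psi, D11_psi, D01_psi]
      have h1 : 0 < 16 * y 0 ^ 3 * y 1 ^ 4 * ((4 + 32 * y 1) / 5500) +
        (4 + 32 * y 0) / 5500 * (16 * y 0 ^ 4 * y 1 ^ 3) +
        (4 + 32 * y 0) / 5500 * ((4 + 32 * y 1) / 5500) := by positivity
      nlinarith [h1])] with z h1 h2 h3 h4 h5 h6 h7 h8 h9 h10 h11
  exact
    { kh := fun a => by fin_cases a; exacts [h1, h2]
      bh := fun a => by fin_cases a; exacts [h3, h4]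
      bh2 := h5
      dh := h6
      e1 := fun a => by fin_cases a; exacts [h7, h8]
      e2 := fun a => by fin_cases a; exacts [h9, h10]
      e3 := h11 }

theorem eventually_all : ∀ᶠ ε : ℝ in 𝓝 0, ∀ x ∈ Icc (0 : Fin 2 → ℝ) 1,
    Cond PP ε x ∧ Db / 2 ≤ Mf PP mu ε x := by
  apply isCompact_Icc.eventually_forall_of_forall_eventually
  intro y hy
  have h1 := (continuousAt_Mf contDiff_PP contDiff_mu y)
  have h2 := continuousAt_const.eventually_lt h1 (show Db / 2 < _ by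
    simp only [Mf_PP]
    have := Db_pos
    linarith)
  filter_upwards [eventually_Cond y hy, h2] with z h3 h4
  exact ⟨h3, h4.le⟩

theorem Cond_zero : ∀ x ∈ Icc (0 : Fin 2 → ℝ) 1, Cond PP 0 x := fun x hx =>
  (eventually_all.self_of_nhds x hx).1

theorem exists_eps : ∃ ε : ℝ, 0 < ε ∧ ∀ x ∈ Icc (0 : Fin 2 → ℝ) 1,
    Cond PP ε x ∧ Db / 2 ≤ Mf PP mu ε x := by
  obtain ⟨δ, hδ, h⟩ := Metric.eventually_nhds_iff.mp eventually_all
  refine ⟨δ / 2, by positivity, h ?_⟩
  rw [Real.dist_eq, sub_zero, abs_of_pos (by positivity)]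
  linarith

/-- the bottom of the spectrum of a perturbed metric is larger than `75/11` -/
theorem exists_perturbed : ∃ ε : ℝ, 0 < ε ∧ met (Wf PP ε) ∈ Kcal X ∧
    75 / 11 < bottom X (met (Wf PP ε)) := by
  obtain ⟨ε, hε, h⟩ := exists_eps
  have hc : ∀ x ∈ Icc (0 : Fin 2 → ℝ) 1, Cond PP ε x := fun x hx => (h x hx).1
  have hG := good_Wf contDiff_PP hc
  refine ⟨ε, hε, ⟨isKahler_met hG, complete_met contDiff_PP hc, fun p hp =>
    ricci_Wf contDiff_PP hε hc hp⟩, ?_⟩
  have h2 := bottom_Wf_ge contDiff_PP contDiff_mu hε.le hc (d := Db / 2) fun x hx => (h x hx).2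
  have h3 := mul_pos hε Db_pos
  linarith

end Pool.Agent.L5helper88.KE
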