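import Pool.Agent.L5helper88.KE.Det

/-! The family of metrics `-11 ∑ log (1 - v_a) + ε P(v_0, v_1)`. -/

set_option linter.unusedSectionVars false
set_option linter.unusedSimpArgs false

namespace Pool.Agent.L5helper88.KE

open MeasureTheory Set Filter Topology Matrix
open scoped ComplexOrder ComplexConjugate

/-- the region of definition of the potentials -/
def S : Set (Fin 2 → ℝ) := {x | ∀ a, x a < 1}

theorem isOpen_S : IsOpen S := by
  have : S = ⋂ a, {x | x a < 1} := by ext x; simp [S]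
  rw [this]
  exact isOpen_iInter_of_finite fun a => isOpen_lt (continuous_apply a) continuous_const

theorem v_mem_S {p : Ix → ℂ} (hp : p ∈ X) : v p ∈ S := hp.2

theorem v_mem_Icc {p : Ix → ℂ} (hp : p ∈ X) : v p ∈ Icc (0 : Fin 2 → ℝ) 1 :=
  ⟨fun a => v_nonneg p a, fun a => (hp.2 a).le⟩

theorem contDiff_D {W : (Fin 2 → ℝ) → ℝ} (h : ContDiff ℝ ((⊤ : ℕ∞) : WithTop ℕ∞) W) (a : Fin 2) :
    ContDiff ℝ ((⊤ : ℕ∞) : WithTop ℕ∞) (D a W) := by
  rw [contDiff_iff_contDiffAt]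
  exact fun x => contDiffAt_D h.contDiffAt a

/-- the potential -/
noncomputable def Wf (P : (Fin 2 → ℝ) → ℝ) (ε : ℝ) (x : Fin 2 → ℝ) : ℝ :=
  -11 * ∑ a, Real.log (1 - x a) + ε * P x

theorem D_of_hasFDerivAt {W : (Fin 2 → ℝ) → ℝ} {W' : (Fin 2 → ℝ) →L[ℝ] ℝ} {x : Fin 2 → ℝ}
    (h : HasFDerivAt W W' x) (a : Fin 2) : D a W x = W' (Pi.single a 1) := by
  unfold D
  rw [h.fderiv]

theorem hasFDerivAt_coord (b : Fin 2) (x : Fin 2 → ℝ) : HasFDerivAt (fun y : Fin 2 → ℝ => y b)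
    (ContinuousLinearMap.proj (R := ℝ) (φ := fun _ : Fin 2 => ℝ) b) x :=
  (ContinuousLinearMap.proj (R := ℝ) (φ := fun _ : Fin 2 => ℝ) b).hasFDerivAt

theorem hasFDerivAt_one_sub (b : Fin 2) (x : Fin 2 → ℝ) :
    HasFDerivAt (fun y : Fin 2 → ℝ => 1 - y b)
    (-(ContinuousLinearMap.proj (R := ℝ) (φ := fun _ : Fin 2 => ℝ) b)) x :=
  (hasFDerivAt_coord b x).const_sub 1

theorem contDiff_coord (b : Fin 2) :
    ContDiff ℝ ((⊤ : ℕ∞) : WithTop ℕ∞) (fun y : Fin 2 → ℝ => y b) := contDiff_apply ℝ ℝ b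

theorem contDiffAt_Wf {P : (Fin 2 → ℝ) → ℝ} (hP : ContDiff ℝ ((⊤ : ℕ∞) : WithTop ℕ∞) P) (ε : ℝ)
    {x : Fin 2 → ℝ} (hx : x ∈ S) : ContDiffAt ℝ ((⊤ : ℕ∞) : WithTop ℕ∞) (Wf P ε) x := by
  unfold Wf
  apply ContDiffAt.add
  · apply contDiffAt_const.mul
    apply ContDiffAt.sum
    intro a _
    apply ContDiffAt.log
    · exact (contDiff_const.sub (contDiff_coord a)).contDiffAt
    · have := hx a; linarith
  · exact contDiffAt_const.mul hP.contDiffAt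

theorem D_Wf {P : (Fin 2 → ℝ) → ℝ} (hP : ContDiff ℝ ((⊤ : ℕ∞) : WithTop ℕ∞) P) (ε : ℝ)
    {x : Fin 2 → ℝ} (hx : x ∈ S) (a : Fin 2) :
    D a (Wf P ε) x = 11 / (1 - x a) + ε * D a P x := by
  have h1 : ∀ b ∈ (Finset.univ : Finset (Fin 2)), HasFDerivAt (fun y : Fin 2 → ℝ => Real.log (1 - y b))
      ((1 - x b)⁻¹ • (-(ContinuousLinearMap.proj (R := ℝ) (φ := fun _ : Fin 2 => ℝ) b))) x := by
    intro b _
    exact (hasFDerivAt_one_sub b x).log (by have := hx b; linarith)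
  have h2 := ((HasFDerivAt.fun_sum h1).const_mul (-11)).add
    ((hP.differentiable (by norm_cast) x).hasFDerivAt.const_mul ε)
  rw [D_of_hasFDerivAt (W := Wf P ε) h2 a]
  simp only [_root_.add_apply, _root_.smul_apply, _root_.sum_apply, _root_.neg_apply,
    ContinuousLinearMap.proj_apply, smul_eq_mul, Fin.sum_univ_two, Pi.single_apply]
  unfold D
  have hxa : 1 - x a ≠ 0 := by have := hx a; linarith
  fin_cases a
  · simp at hxa ⊢
    field_simp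
  · simp at hxa ⊢
    field_simp

theorem DD_Wf {P : (Fin 2 → ℝ) → ℝ} (hP : ContDiff ℝ ((⊤ : ℕ∞) : WithTop ℕ∞) P) (ε : ℝ)
    {x : Fin 2 → ℝ} (hx : x ∈ S) (a b : Fin 2) :
    D a (D b (Wf P ε)) x = (if a = b then 11 / (1 - x a) ^ 2 else 0) + ε * D a (D b P) x := by
  have he : D b (Wf P ε) =ᶠ[𝓝 x] fun y => 11 * (1 - y b)⁻¹ + ε * D b P y := by
    filter_upwards [isOpen_S.mem_nhds hx] with y hy
    rw [D_Wf hP ε hy b]
    ring
  rw [D_congr he]
  have hb : 1 - x b ≠ 0 := by have := hx b; linarith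
  have h0 := (hasDerivAt_inv hb).comp_hasFDerivAt x (hasFDerivAt_one_sub b x)
  have h2 := (h0.const_mul 11).add
    (((contDiff_D hP b).differentiable (by norm_cast) x).hasFDerivAt.const_mul ε)
  rw [D_of_hasFDerivAt (W := fun y => 11 * (1 - y b)⁻¹ + ε * D b P y) h2 a]
  simp only [_root_.add_apply, _root_.smul_apply, _root_.neg_apply,
    ContinuousLinearMap.proj_apply, smul_eq_mul, Pi.single_apply]
  conv_rhs => rw [D]
  by_cases h : a = b
  · subst h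
    simp
    field_simp
  · have h' : ¬ b = a := fun hh => h hh.symm
    simp [h, h']

/-- relative perturbation of the horizontal coefficients -/
noncomputable def kf (P : (Fin 2 → ℝ) → ℝ) (a : Fin 2) (x : Fin 2 → ℝ) : ℝ :=
  (1 - x a) * x a * D a P x / 11

/-- relative perturbation of the vertical coefficients -/
noncomputable def bf (P : (Fin 2 → ℝ) → ℝ) (a : Fin 2) (x : Fin 2 → ℝ) : ℝ :=
  (1 - x a) ^ 2 * (D a P x + x a * D a (D a P) x) / 11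

/-- relative perturbation of the vertical determinant, first order -/
noncomputable def q0 (P : (Fin 2 → ℝ) → ℝ) (x : Fin 2 → ℝ) : ℝ := bf P 0 x + bf P 1 x

/-- relative perturbation of the vertical determinant, second order -/
noncomputable def q1 (P : (Fin 2 → ℝ) → ℝ) (x : Fin 2 → ℝ) : ℝ :=
  bf P 0 x * bf P 1 x - x 0 * x 1 * ((1 - x 0) * (1 - x 1) * D 0 (D 1 P) x) ^ 2 / 121

/-- `P - ΔP` -/
noncomputable def psi (P : (Fin 2 → ℝ) → ℝ) (x : Fin 2 → ℝ) : ℝ :=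
  P x - 9 * ∑ a, kf P a x - q0 P x

/-- `1 + ε q0 + ε² q1` -/
noncomputable def dh (P : (Fin 2 → ℝ) → ℝ) (ε : ℝ) (x : Fin 2 → ℝ) : ℝ :=
  1 + ε * q0 P x + ε ^ 2 * q1 P x

theorem Kc_Wf {P : (Fin 2 → ℝ) → ℝ} (hP : ContDiff ℝ ((⊤ : ℕ∞) : WithTop ℕ∞) P) (ε : ℝ)
    {x : Fin 2 → ℝ} (hx : x ∈ S) (a : Fin 2) :
    Kc (11 / 5) a (Wf P ε) x = 11 / 5 / (1 - x a) * (1 + ε * kf P a x) := by
  unfold Kc kf
  rw [D_Wf hP ε hx]
  have h : 1 - x a ≠ 0 := by have := hx a; linarith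
  field_simp
  ring

theorem B_Wf {P : (Fin 2 → ℝ) → ℝ} (hP : ContDiff ℝ ((⊤ : ℕ∞) : WithTop ℕ∞) P) (ε : ℝ)
    {x : Fin 2 → ℝ} (hx : x ∈ S) (a : Fin 2) :
    B a (Wf P ε) x = 11 / (1 - x a) ^ 2 * (1 + ε * bf P a x) := by
  unfold B bf
  rw [D_Wf hP ε hx, DD_Wf hP ε hx, if_pos rfl]
  have h : 1 - x a ≠ 0 := by have := hx a; linarith
  field_simp
  ring

theorem det_Wf {P : (Fin 2 → ℝ) → ℝ} (hP : ContDiff ℝ ((⊤ : ℕ∞) : WithTop ℕ∞) P) (ε : ℝ)
    {x : Fin 2 → ℝ} (hx : x ∈ S) :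
    B 0 (Wf P ε) x * B 1 (Wf P ε) x - x 0 * x 1 * (D 0 (D 1 (Wf P ε)) x) ^ 2 =
      121 / ((1 - x 0) ^ 2 * (1 - x 1) ^ 2) * dh P ε x := by
  rw [B_Wf hP ε hx, B_Wf hP ε hx, DD_Wf hP ε hx, if_neg (by decide)]
  unfold dh q0 q1
  have h : 1 - x 0 ≠ 0 := by have := hx 0; linarith
  have h' : 1 - x 1 ≠ 0 := by have := hx 1; linarith
  field_simp
  ring

section smooth

variable {P : (Fin 2 → ℝ) → ℝ} (hP : ContDiff ℝ ((⊤ : ℕ∞) : WithTop ℕ∞) P)

include hP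

theorem contDiff_kf (a : Fin 2) : ContDiff ℝ ((⊤ : ℕ∞) : WithTop ℕ∞) (kf P a) := by
  unfold kf
  exact ((((contDiff_const.sub (contDiff_coord a)).mul (contDiff_coord a)).mul
    (contDiff_D hP a))).div_const 11

theorem contDiff_bf (a : Fin 2) : ContDiff ℝ ((⊤ : ℕ∞) : WithTop ℕ∞) (bf P a) := by
  unfold bf
  exact ((((contDiff_const.sub (contDiff_coord a)).pow 2).mul ((contDiff_D hP a).add
    ((contDiff_coord a).mul (contDiff_D (contDiff_D hP a) a))))).div_const 11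

theorem contDiff_q0 : ContDiff ℝ ((⊤ : ℕ∞) : WithTop ℕ∞) (q0 P) := by
  unfold q0
  exact (contDiff_bf hP 0).add (contDiff_bf hP 1)

theorem contDiff_q1 : ContDiff ℝ ((⊤ : ℕ∞) : WithTop ℕ∞) (q1 P) := by
  unfold q1
  refine ((contDiff_bf hP 0).mul (contDiff_bf hP 1)).sub ?_
  refine ContDiff.div_const ?_ _
  exact ((contDiff_coord 0).mul (contDiff_coord 1)).mul
    ((((contDiff_const.sub (contDiff_coord 0)).mul (contDiff_const.sub (contDiff_coord 1))).mul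
      (contDiff_D (contDiff_D hP 1) 0)).pow 2)

theorem contDiff_psi : ContDiff ℝ ((⊤ : ℕ∞) : WithTop ℕ∞) (psi P) := by
  unfold psi
  exact (hP.sub (contDiff_const.mul (ContDiff.sum fun a _ => contDiff_kf hP a))).sub (contDiff_q0 hP)

end smooth

end Pool.Agent.L5helper88.KE
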