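import Pool.Agent.H911R3.Test

/-! Test functions in the fibre. -/

set_option linter.unusedSectionVars false
set_option linter.unusedSimpArgs false

namespace Pool.Agent.L5helper88.KE

open MeasureTheory Set Filter Topology
open Pool.Agent.H911R3 (chi chi_zero chi_one chi_nonneg chi_le_one deriv_chi_zero deriv_chi_bdd
  prof prof_zero prof_smooth hasDerivAt_prof)

theorem normSq_lt_one_iff (w : ℂ) : Complex.normSq w < 1 ↔ ‖w‖ < 1 := by
  rw [← Complex.sq_norm]
  exact sq_lt_one_iff₀ (norm_nonneg w)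

theorem radial_int (n : ℕ) : (∫ y in (0 : ℝ)..1, y * (1 - y ^ 2) ^ n) = 1 / (2 * ((n : ℝ) + 1)) := by
  have h : ∀ y ∈ uIcc (0 : ℝ) 1, HasDerivAt (fun y : ℝ => -(1 - y ^ 2) ^ (n + 1) / (2 * (n + 1)))
      (y * (1 - y ^ 2) ^ n) y := by
    intro y _
    have h1 : HasDerivAt (fun y : ℝ => 1 - y ^ 2) (-(2 * y)) y := by
      simpa using (hasDerivAt_pow 2 y).const_sub 1
    have h2 := ((h1.pow (n + 1)).neg).div_const (2 * ((n : ℝ) + 1))
    refine h2.congr_deriv ?_
    have : (n : ℝ) + 1 ≠ 0 := by positivity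
    push_cast
    field_simp
  rw [intervalIntegral.integral_eq_sub_of_hasDerivAt h]
  · have : (n : ℝ) + 1 ≠ 0 := by positivity
    simp
    field_simp
  · exact (by fun_prop : Continuous fun y : ℝ => y * (1 - y ^ 2) ^ n).intervalIntegrable _ _

/-- integrals over the unit disc -/
theorem disc_pow (n : ℕ) : (∫ w in {w : ℂ | Complex.normSq w < 1}, (1 - Complex.normSq w) ^ n) =
    Real.pi / ((n : ℝ) + 1) := by
  have hms : MeasurableSet {w : ℂ | Complex.normSq w < 1} :=
    (isOpen_lt Complex.continuous_normSq continuous_const).measurableSet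
  rw [← integral_indicator hms]
  have e1 : ({w : ℂ | Complex.normSq w < 1}.indicator fun w => (1 - Complex.normSq w) ^ n) =
      fun w : ℂ => (fun y : ℝ => (Iio (1 : ℝ)).indicator (fun y => (1 - y ^ 2) ^ n) y) ‖w‖ := by
    ext w
    simp only [Set.indicator_apply, mem_ofPred_eq, mem_Iio, normSq_lt_one_iff, Complex.sq_norm]
  rw [e1, integral_fun_norm_addHaar (volume : Measure ℂ)
    (fun y : ℝ => (Iio (1 : ℝ)).indicator (fun y => (1 - y ^ 2) ^ n) y)]
  have e2 : (∫ y in Ioi (0 : ℝ), y ^ (Module.finrank ℝ ℂ - 1) •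
      (Iio (1 : ℝ)).indicator (fun y : ℝ => (1 - y ^ 2) ^ n) y) = 1 / (2 * ((n : ℝ) + 1)) := by
    rw [Complex.finrank_real_complex]
    have e3 : ∀ y : ℝ, y ^ (2 - 1) • (Iio (1 : ℝ)).indicator (fun y => (1 - y ^ 2) ^ n) y =
        (Iio (1 : ℝ)).indicator (fun y => y * (1 - y ^ 2) ^ n) y := by
      intro y
      simp only [Set.indicator_apply]
      split_ifs <;> simp
    simp only [e3]
    rw [setIntegral_indicator measurableSet_Iio]
    have e4 : Ioi (0 : ℝ) ∩ Iio 1 = Ioo 0 1 := rfl
    rw [e4, ← integral_Ioc_eq_integral_Ioo, ← intervalIntegral.integral_of_le zero_le_one,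
      radial_int]
  rw [e2, Complex.finrank_real_complex]
  have e5 : (volume : Measure ℂ).real (Metric.ball 0 1) = Real.pi := by
    rw [measureReal_def, Complex.volume_ball]
    simp
  rw [e5]
  have : (n : ℝ) + 1 ≠ 0 := by positivity
  simp
  field_simp

theorem disc_vol : (volume : Measure ℂ).real {w : ℂ | Complex.normSq w < 1} = Real.pi := by
  have h := disc_pow 0
  simp at h
  exact h

theorem integrableOn_disc {g : ℝ → ℝ} (hg : Continuous g) :
    IntegrableOn (fun w : ℂ => g (Complex.normSq w)) {w : ℂ | Complex.normSq w < 1} := by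
  have hc : Continuous fun w : ℂ => g (Complex.normSq w) := hg.comp Complex.continuous_normSq
  apply (hc.continuousOn.integrableOn_compact (isCompact_closedBall (0 : ℂ) 1)).mono_set
  intro w hw
  rw [mem_closedBall_zero_iff]
  exact ((normSq_lt_one_iff w).mp hw).le

/-- the profile -/
noncomputable def fk (k : ℝ) (s : ℝ) : ℝ := (1 - s) ^ 7 * prof k s

theorem fk_smooth {k : ℝ} (hk : 1 ≤ k) : ContDiff ℝ ((⊤ : ℕ∞) : WithTop ℕ∞) (fk k) :=
  (contDiff_const.sub contDiff_id).pow 7 |>.mul (prof_smooth hk)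

theorem fk_sq {k s : ℝ} (hs : s < 1) : fk k s ^ 2 = (1 - s) ^ 15 * chi (k * (1 - s)) ^ 2 := by
  unfold fk prof
  have h := Real.sq_sqrt (show 0 ≤ 1 - s by linarith)
  calc ((1 - s) ^ 7 * (Real.sqrt (1 - s) * chi (k * (1 - s)))) ^ 2 =
      (1 - s) ^ 14 * Real.sqrt (1 - s) ^ 2 * chi (k * (1 - s)) ^ 2 := by ring
    _ = _ := by rw [h]; ring

theorem deriv_fk_sq {k s : ℝ} (hs : s < 1) : deriv (fk k) s ^ 2 = (1 - s) ^ 13 *
    (15 / 2 * chi (k * (1 - s)) + k * (1 - s) * deriv chi (k * (1 - s))) ^ 2 := by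
  have h1 : HasDerivAt (fun s : ℝ => (1 - s) ^ 7) (-(7 * (1 - s) ^ 6)) s := by
    have h0 : HasDerivAt (fun s : ℝ => 1 - s) (-1) s := by
      simpa using (hasDerivAt_id s).const_sub 1
    refine (h0.pow 7).congr_deriv ?_
    ring
  have h2 := h1.mul (hasDerivAt_prof (k := k) hs)
  have h3 : deriv (fk k) s = _ := h2.deriv
  rw [h3]
  have hpos : 0 < 1 - s := by linarith
  have h := Real.sq_sqrt hpos.le
  have hs0 : 0 < Real.sqrt (1 - s) := Real.sqrt_pos.mpr hpos
  set q := Real.sqrt (1 - s) with hq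
  have e : -(7 * (1 - s) ^ 6) * prof k s + (1 - s) ^ 7 * (-(1 / (2 * q)) * chi (k * (1 - s)) +
      q * (deriv chi (k * (1 - s)) * (-k))) = -((1 - s) ^ 6 * q *
      (15 / 2 * chi (k * (1 - s)) + k * (1 - s) * deriv chi (k * (1 - s)))) := by
    unfold prof
    rw [← hq]
    have h4 : (1 - s) ^ 7 = (1 - s) ^ 6 * q ^ 2 := by rw [h]; ring
    have h5 : (1 - s) ^ 7 * (-(1 / (2 * q)) * chi (k * (1 - s))) =
        -((1 - s) ^ 6 * q * (1 / 2 * chi (k * (1 - s)))) := by
      rw [h4]
      field_simp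
    rw [mul_add, h5]
    ring
  rw [e]
  calc (-((1 - s) ^ 6 * q *
      (15 / 2 * chi (k * (1 - s)) + k * (1 - s) * deriv chi (k * (1 - s))))) ^ 2 =
      (1 - s) ^ 12 * q ^ 2 *
      (15 / 2 * chi (k * (1 - s)) + k * (1 - s) * deriv chi (k * (1 - s))) ^ 2 := by ring
    _ = _ := by rw [h]; ring

theorem exists_fk {τ : ℝ} (hτ : 0 < τ) : ∃ f : ℝ → ℝ, ContDiff ℝ ((⊤ : ℕ∞) : WithTop ℕ∞) f ∧
    ∃ η : ℝ, 0 < η ∧ η ≤ 1 ∧ (∀ s, 1 - η < s → f s = 0) ∧
    0 < ∫ w : ℂ, f (Complex.normSq w) ^ 2 / (1 - Complex.normSq w) ^ 11 ∧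
    (∫ w : ℂ, f (Complex.normSq w) ^ 2 / (1 - Complex.normSq w) ^ 10) ≤
      ∫ w : ℂ, f (Complex.normSq w) ^ 2 / (1 - Complex.normSq w) ^ 11 ∧
    45 / 11 * (∫ w : ℂ, f (Complex.normSq w) ^ 2 / (1 - Complex.normSq w) ^ 10) +
      4 / 11 * (∫ w : ℂ, deriv f (Complex.normSq w) ^ 2 * Complex.normSq w /
        (1 - Complex.normSq w) ^ 9) ≤
      (75 / 11 + τ) * ∫ w : ℂ, f (Complex.normSq w) ^ 2 / (1 - Complex.normSq w) ^ 11 := by
  obtain ⟨C, hC0, hC⟩ := deriv_chi_bdd
  have hπ := Real.pi_pos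
  set C1 : ℝ := (15 / 2 + C) ^ 2 with hC1
  have hC1p : 0 ≤ C1 := sq_nonneg _
  -- choice of `k`
  set e : ℝ := min (τ / (10 * (4 / 11 * C1 + 75 / 11))) (1 / 10) with he
  have hden : 0 < 10 * (4 / 11 * C1 + 75 / 11) := by positivity
  have he0 : 0 < e := lt_min (by positivity) (by norm_num)
  have he1 : e ≤ 1 / 10 := min_le_right _ _
  have he2 : e * (10 * (4 / 11 * C1 + 75 / 11)) ≤ τ := by
    rw [← le_div_iff₀ hden]
    exact min_le_left _ _
  obtain ⟨k, hk1, hk⟩ : ∃ k : ℝ, 1 ≤ k ∧ 1 / k ^ 4 ≤ e := by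
    refine ⟨1 / e, ?_, ?_⟩
    · rw [le_div_iff₀ he0]; linarith
    · have h1 : e ≤ 1 := by linarith
      have h2 : e ^ 4 ≤ e := by
        have : e ^ 3 ≤ 1 := pow_le_one₀ he0.le h1
        calc e ^ 4 = e * e ^ 3 := by ring
          _ ≤ e * 1 := by gcongr
          _ = e := mul_one e
      rw [one_div_pow, one_div_one_div]
      exact h2
  have hk0 : 0 < k := by linarith
  set κ : ℝ := 1 / k ^ 4 with hκ
  have hκ0 : 0 < κ := by positivity
  set B : Set ℂ := {w : ℂ | Complex.normSq w < 1} with hB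
  have hBm : MeasurableSet B :=
    (isOpen_lt Complex.continuous_normSq continuous_const).measurableSet
  have fzero : ∀ s, 1 - 1 / (2 * k) < s → fk k s = 0 := by
    intro s hs
    unfold fk
    rw [prof_zero, mul_zero]
    have h1 : 1 - s < 1 / (2 * k) := by linarith
    have := mul_le_mul_of_nonneg_left h1.le hk0.le
    refine this.trans (le_of_eq ?_)
    field_simp
  have hη0 : 0 < 1 / (2 * k) := by positivity
  have hη1 : 1 / (2 * k) ≤ 1 := by
    rw [div_le_one (by positivity)]
    linarith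
  have dzero : ∀ s, 1 - 1 / (2 * k) < s → deriv (fk k) s = 0 := by
    intro s hs
    have : fk k =ᶠ[𝓝 s] fun _ => 0 := by
      filter_upwards [Ioi_mem_nhds hs] with y hy
      exact fzero y hy
    rw [this.deriv_eq]
    simp
  -- small `r`
  have small : ∀ r : ℝ, 0 ≤ r → k * r < 1 → r ^ 4 ≤ κ := by
    intro r hr h
    rw [hκ, le_div_iff₀ (by positivity)]
    calc r ^ 4 * k ^ 4 = (k * r) ^ 4 := by ring
      _ ≤ 1 := pow_le_one₀ (by positivity) h.le
  -- continuity of the integrands
  have cont : ∀ (g : ℝ → ℝ) (n : ℕ), Continuous g → (∀ s, 1 - 1 / (2 * k) < s → g s = 0) →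
      Continuous fun s => g s / (1 - s) ^ n := by
    intro g n hg hz
    rw [continuous_iff_continuousAt]
    intro s
    rcases lt_or_ge s 1 with hs | hs
    · apply hg.continuousAt.div (by fun_prop)
      exact pow_ne_zero _ (by linarith)
    · have : (fun s => g s / (1 - s) ^ n) =ᶠ[𝓝 s] fun _ => 0 := by
        filter_upwards [Ioi_mem_nhds (by linarith : 1 - 1 / (2 * k) < s)] with y hy
        rw [hz y hy, zero_div]
      exact continuousAt_const.congr this.symm
  have hfc := (fk_smooth hk1).continuous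
  have hfd : Continuous (deriv (fk k)) := (fk_smooth hk1).continuous_deriv (by norm_cast)
  have g11 : Continuous fun s => fk k s ^ 2 / (1 - s) ^ 11 :=
    cont (fun s => fk k s ^ 2) 11 (hfc.pow 2) fun s hs => by simp [fzero s hs]
  have g10 : Continuous fun s => fk k s ^ 2 / (1 - s) ^ 10 :=
    cont (fun s => fk k s ^ 2) 10 (hfc.pow 2) fun s hs => by simp [fzero s hs]
  have g9 : Continuous fun s => deriv (fk k) s ^ 2 * s / (1 - s) ^ 9 :=
    cont (fun s => deriv (fk k) s ^ 2 * s) 9 ((hfd.pow 2).mul continuous_id)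
      fun s hs => by simp [dzero s hs]
  -- restriction to the disc
  have restr : ∀ g : ℝ → ℝ, (∀ s, 1 - 1 / (2 * k) < s → g s = 0) →
      ∫ w : ℂ, g (Complex.normSq w) = ∫ w in B, g (Complex.normSq w) := by
    intro g hg
    rw [setIntegral_eq_integral_of_forall_compl_eq_zero]
    intro w hw
    apply hg
    have : 1 ≤ Complex.normSq w := not_lt.mp hw
    linarith
  have i11 := restr (fun s => fk k s ^ 2 / (1 - s) ^ 11) fun s hs => by simp [fzero s hs]
  have i10 := restr (fun s => fk k s ^ 2 / (1 - s) ^ 10) fun s hs => by simp [fzero s hs]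
  have i9 := restr (fun s => deriv (fk k) s ^ 2 * s / (1 - s) ^ 9) fun s hs => by
    simp [dzero s hs]
  -- pointwise formulas
  have p11 : ∀ w ∈ B, fk k (Complex.normSq w) ^ 2 / (1 - Complex.normSq w) ^ 11 =
      (1 - Complex.normSq w) ^ 4 * chi (k * (1 - Complex.normSq w)) ^ 2 := by
    intro w hw
    have : 1 - Complex.normSq w ≠ 0 := by
      have : Complex.normSq w < 1 := hw
      linarith
    rw [fk_sq hw]
    field_simp
  have p10 : ∀ w ∈ B, fk k (Complex.normSq w) ^ 2 / (1 - Complex.normSq w) ^ 10 =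
      (1 - Complex.normSq w) ^ 5 * chi (k * (1 - Complex.normSq w)) ^ 2 := by
    intro w hw
    have : 1 - Complex.normSq w ≠ 0 := by
      have : Complex.normSq w < 1 := hw
      linarith
    rw [fk_sq hw]
    field_simp
  have p9 : ∀ w ∈ B, deriv (fk k) (Complex.normSq w) ^ 2 * Complex.normSq w /
      (1 - Complex.normSq w) ^ 9 = (1 - Complex.normSq w) ^ 4 * Complex.normSq w *
      (15 / 2 * chi (k * (1 - Complex.normSq w)) + k * (1 - Complex.normSq w) *
        deriv chi (k * (1 - Complex.normSq w))) ^ 2 := by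
    intro w hw
    have : 1 - Complex.normSq w ≠ 0 := by
      have : Complex.normSq w < 1 := hw
      linarith
    rw [deriv_fk_sq hw]
    field_simp
  have chi2 : ∀ x, chi x ^ 2 ≤ 1 := fun x => pow_le_one₀ (chi_nonneg x) (chi_le_one x)
  have J4 := disc_pow 4
  have J5 := disc_pow 5
  have hv := disc_vol
  rw [← hB] at J4 J5 hv
  have hconst : ∀ c : ℝ, ∫ _w in B, c = c * Real.pi := by
    intro c
    rw [setIntegral_const, hv, smul_eq_mul, mul_comm]
  have hfin : ∀ c : ℝ, IntegrableOn (fun _ : ℂ => c) B := fun c =>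
    integrableOn_disc (g := fun _ => c) continuous_const
  -- bounds
  have b11 : Real.pi / 5 - κ * Real.pi ≤
      ∫ w in B, fk k (Complex.normSq w) ^ 2 / (1 - Complex.normSq w) ^ 11 := by
    have h1 : ∫ w in B, ((1 - Complex.normSq w) ^ 4 - κ) = Real.pi / 5 - κ * Real.pi := by
      rw [integral_sub (integrableOn_disc (g := fun s => (1 - s) ^ 4) (by fun_prop)) (hfin κ),
        hconst, J4]
      norm_num
    rw [← h1]
    apply setIntegral_mono_on (integrableOn_disc (g := fun s => (1 - s) ^ 4 - κ) (by fun_prop))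
      (integrableOn_disc g11) hBm
    intro w hw
    rw [p11 w hw]
    have hw' : Complex.normSq w < 1 := hw
    have hr : 0 ≤ 1 - Complex.normSq w := by linarith
    rcases lt_or_ge (k * (1 - Complex.normSq w)) 1 with h | h
    · have := small _ hr h
      have : 0 ≤ (1 - Complex.normSq w) ^ 4 * chi (k * (1 - Complex.normSq w)) ^ 2 := by positivity
      linarith
    · rw [chi_one h]
      linarith
  have b10 : ∫ w in B, fk k (Complex.normSq w) ^ 2 / (1 - Complex.normSq w) ^ 10 ≤
      Real.pi / 6 := by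
    have h1 : ∫ w in B, (1 - Complex.normSq w) ^ 5 = Real.pi / 6 := by
      rw [J5]; norm_num
    rw [← h1]
    apply setIntegral_mono_on (integrableOn_disc g10)
      (integrableOn_disc (g := fun s => (1 - s) ^ 5) (by fun_prop)) hBm
    intro w hw
    rw [p10 w hw]
    have hw' : Complex.normSq w < 1 := hw
    have hr : 0 ≤ 1 - Complex.normSq w := by linarith
    have := chi2 (k * (1 - Complex.normSq w))
    have h5 : 0 ≤ (1 - Complex.normSq w) ^ 5 := by positivity
    nlinarith
  have b1110 : ∫ w in B, fk k (Complex.normSq w) ^ 2 / (1 - Complex.normSq w) ^ 10 ≤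
      ∫ w in B, fk k (Complex.normSq w) ^ 2 / (1 - Complex.normSq w) ^ 11 := by
    apply setIntegral_mono_on (integrableOn_disc g10) (integrableOn_disc g11) hBm
    intro w hw
    rw [p10 w hw, p11 w hw]
    have hw' : Complex.normSq w < 1 := hw
    have hn := Complex.normSq_nonneg w
    have hr : 0 ≤ 1 - Complex.normSq w := by linarith
    have h5 : (1 - Complex.normSq w) ^ 5 ≤ (1 - Complex.normSq w) ^ 4 :=
      pow_le_pow_of_le_one hr (by linarith) (by norm_num)
    gcongr
  have b9 : ∫ w in B, deriv (fk k) (Complex.normSq w) ^ 2 * Complex.normSq w /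
      (1 - Complex.normSq w) ^ 9 ≤ 225 / 4 * (Real.pi / 30) + C1 * κ * Real.pi := by
    have h1 : ∫ w in B, (225 / 4 * ((1 - Complex.normSq w) ^ 4 - (1 - Complex.normSq w) ^ 5) +
        C1 * κ) = 225 / 4 * (Real.pi / 30) + C1 * κ * Real.pi := by
      rw [integral_add ((integrableOn_disc (g := fun s => 225 / 4 * ((1 - s) ^ 4 - (1 - s) ^ 5))
        (by fun_prop))) (hfin _), hconst, integral_const_mul,
        integral_sub (integrableOn_disc (g := fun s => (1 - s) ^ 4) (by fun_prop))
        (integrableOn_disc (g := fun s => (1 - s) ^ 5) (by fun_prop)), J4, J5]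
      congr 1
      push_cast
      ring
    rw [← h1]
    apply setIntegral_mono_on (integrableOn_disc g9) (integrableOn_disc
      (g := fun s => 225 / 4 * ((1 - s) ^ 4 - (1 - s) ^ 5) + C1 * κ) (by fun_prop)) hBm
    intro w hw
    rw [p9 w hw]
    have hw' : Complex.normSq w < 1 := hw
    have hn := Complex.normSq_nonneg w
    have hr : 0 ≤ 1 - Complex.normSq w := by linarith
    have h45 : (1 - Complex.normSq w) ^ 4 - (1 - Complex.normSq w) ^ 5 =
        (1 - Complex.normSq w) ^ 4 * Complex.normSq w := by ring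
    rw [h45]
    have h0 : 0 ≤ (1 - Complex.normSq w) ^ 4 * Complex.normSq w := by positivity
    rcases lt_or_ge (k * (1 - Complex.normSq w)) 1 with h | h
    · have h2 := small _ hr h
      have h3 : (15 / 2 * chi (k * (1 - Complex.normSq w)) + k * (1 - Complex.normSq w) *
          deriv chi (k * (1 - Complex.normSq w))) ^ 2 ≤ C1 := by
        rw [hC1]
        apply sq_le_sq'
        · have h4 := hC (k * (1 - Complex.normSq w))
          have h5 := (abs_le.mp h4).1
          have h6 := chi_nonneg (k * (1 - Complex.normSq w))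
          have h7 : 0 ≤ k * (1 - Complex.normSq w) := by positivity
          nlinarith
        · have h4 := hC (k * (1 - Complex.normSq w))
          have h5 := (abs_le.mp h4).2
          have h6 := chi_le_one (k * (1 - Complex.normSq w))
          have h7 : 0 ≤ k * (1 - Complex.normSq w) := by positivity
          nlinarith
      have h4 : (1 - Complex.normSq w) ^ 4 * Complex.normSq w ≤ κ := by
        have : (1 - Complex.normSq w) ^ 4 * Complex.normSq w ≤ (1 - Complex.normSq w) ^ 4 * 1 := by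
          gcongr
        linarith
      have h5 := mul_le_mul h4 h3 (sq_nonneg _) hκ0.le
      linarith
    · rw [chi_one h]
      rcases eq_or_lt_of_le h with h' | h'
      · -- boundary value of the derivative
        have hd : deriv chi (k * (1 - Complex.normSq w)) = 0 := by
          rw [← h']
          have hc : Continuous (deriv chi) :=
            Pool.Agent.H911R3.chi_smooth.continuous_deriv (by norm_cast)
          have h8 : Tendsto (deriv chi) (𝓝[>] 1) (𝓝 (deriv chi 1)) :=
            (hc.tendsto 1).mono_left nhdsWithin_le_nhds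
          have h9 : Tendsto (deriv chi) (𝓝[>] 1) (𝓝 0) := by
            apply tendsto_const_nhds.congr'
            filter_upwards [self_mem_nhdsWithin] with x hx
            exact (deriv_chi_zero (Or.inr hx)).symm
          exact tendsto_nhds_unique h8 h9
        rw [hd]
        have h10 : 0 ≤ C1 * κ := mul_nonneg hC1p hκ0.le
        have h11 : (15 / 2 * 1 + k * (1 - Complex.normSq w) * 0) ^ 2 = (225 / 4 : ℝ) := by ring
        rw [h11]
        linarith
      · rw [deriv_chi_zero (Or.inr h')]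
        have h10 : 0 ≤ C1 * κ := mul_nonneg hC1p hκ0.le
        have h11 : (15 / 2 * 1 + k * (1 - Complex.normSq w) * 0) ^ 2 = (225 / 4 : ℝ) := by ring
        rw [h11]
        linarith
  refine ⟨fk k, fk_smooth hk1, 1 / (2 * k), hη0, hη1, fzero, ?_, ?_, ?_⟩
  · rw [i11]
    have hκe : κ * Real.pi ≤ 1 / 10 * Real.pi :=
      mul_le_mul_of_nonneg_right (hk.trans he1) hπ.le
    linarith
  · rw [i11, i10]
    exact b1110
  · rw [i11, i10, i9]
    set m := ∫ w in B, fk k (Complex.normSq w) ^ 2 / (1 - Complex.normSq w) ^ 11 with hm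
    have hκe : κ * Real.pi ≤ 1 / 10 * Real.pi :=
      mul_le_mul_of_nonneg_right (hk.trans he1) hπ.le
    have hm1 : Real.pi / 10 ≤ m := by linarith
    have h1 : κ * (4 / 11 * C1 + 75 / 11) * Real.pi ≤ τ * m := by
      have h2 : κ * (10 * (4 / 11 * C1 + 75 / 11)) ≤ τ :=
        (mul_le_mul_of_nonneg_right hk hden.le).trans he2
      have h3 := mul_le_mul h2 hm1 (by positivity) hτ.le
      linarith
    have h4 : κ * (4 / 11 * C1 + 75 / 11) * Real.pi =
      4 / 11 * (C1 * κ * Real.pi) + 75 / 11 * (κ * Real.pi) := by ring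
    rw [h4] at h1
    have h5 : (75 / 11 + τ) * m = 75 / 11 * m + τ * m := by ring
    rw [h5]
    linarith

end Pool.Agent.L5helper88.KE
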