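import Pool.Agent.L5helper88.KE.Det
import Pool.Agent.L5helper88.KE.Barrier

/-! The vector field giving the lower bound of the spectrum. -/

set_option linter.unusedSectionVars false
set_option linter.unusedSimpArgs false

namespace Pool.Agent.L5helper88.KE

open MeasureTheory Set Filter Topology Matrix
open scoped ComplexOrder ComplexConjugate

/-- `∑ |z_j|²` over the block `a` -/
noncomputable def sb (a : Fin 2) (p : Ix → ℂ) : ℝ :=
  ∑ j, if blk j = a then Complex.normSq (p (Sum.inl j)) else 0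

/-- the vector field -/
noncomputable def Uf (A u : Fin 2 → (Fin 2 → ℝ) → ℝ) : Ix → (Ix → ℂ) → ℂ
  | Sum.inl j, p => -(1 / 2) * p (Sum.inl j) * (del j p : ℂ) * (A (blk j) (v p) : ℂ)
  | Sum.inr a, p => p (Sum.inr a) * ((u a (v p) : ℂ) + (sb a p : ℂ) * (A a (v p) : ℂ) * (1 / 10))

theorem vz_inl (c : Fin 2) {p : Ix → ℂ} (j : Fin 18) :
    vz c p (Sum.inl j) = if blk j = c then (v p c : ℂ) / 5 * (conj (p (Sum.inl j)) / (del j p : ℂ))
      else 0 := by
  have e : (v p c : ℂ) = p (Sum.inr c) * conj (p (Sum.inr c)) * (Real.exp (L c p / 5) : ℂ) := by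
    rw [v, Complex.mul_conj]
    push_cast
    ring
  by_cases h : blk j = c
  · simp only [vz, tht, ell, h, if_true, e]
    simp
    ring
  · simp [vz, tht, ell, h]

theorem vz_inr (c : Fin 2) {p : Ix → ℂ} (a : Fin 2) :
    vz c p (Sum.inr a) = if c = a then (ex a p : ℂ) * conj (p (Sum.inr a)) else 0 := by
  by_cases h : c = a
  · subst h
    simp [vz, tht, ell, ex]
  · have : ¬ (Sum.inr a : Ix) = Sum.inr c := fun h' => h (Sum.inr_injective h').symm
    simp [vz, tht, ell, h, this]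

theorem w_vz (a : Fin 2) {p : Ix → ℂ} :
    p (Sum.inr a) * ((ex a p : ℂ) * conj (p (Sum.inr a))) = (v p a : ℂ) := by
  rw [v_eq]
  push_cast
  rw [← Complex.mul_conj]
  ring

theorem hasA_W {W : (Fin 2 → ℝ) → ℝ} {p : Ix → ℂ} (hp : p ∈ X0)
    (hW : DifferentiableAt ℝ W (v p)) :
    HasA (fun q => ((W (v q) : ℝ) : ℂ)) p (fun I => ∑ b, (D b W (v p) : ℂ) * vz b p I) :=
  (HasW.comp_pi (h := v) (W := W) (fun b => hasW_v b hp) hW.hasFDerivAt).hasA

theorem hasA_exp {κ : ℝ} {W : (Fin 2 → ℝ) → ℝ} {p : Ix → ℂ} (hp : p ∈ X0)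
    (hW : DifferentiableAt ℝ W (v p)) :
    HasA (fun q => ((Real.exp (Hf κ W q) : ℝ) : ℂ)) p (fun I => (Real.exp (Hf κ W p) : ℂ) *
      (κ * ∑ a, ell a p I + ∑ a, (D a W (v p) : ℂ) * vz a p I)) :=
  ((hasW_Hf (κ := κ) hp hW).comp (Real.hasDerivAt_exp _)).hasA

theorem hasA_sb (a : Fin 2) (p : Ix → ℂ) :
    HasA (fun q => ((sb a q : ℝ) : ℂ)) p (fun I => ∑ j, if blk j = a then
      conj (p (Sum.inl j)) * (Pi.single (Sum.inl j) 1 : Ix → ℂ) I else 0) := by
  have h1 : ∀ j ∈ (Finset.univ : Finset (Fin 18)), HasA (fun q =>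
      (((if blk j = a then Complex.normSq (q (Sum.inl j)) else 0 : ℝ) : ℝ) : ℂ)) p
      (fun I => if blk j = a then
        conj (p (Sum.inl j)) * (Pi.single (Sum.inl j) 1 : Ix → ℂ) I else 0) := by
    intro j _
    by_cases h : blk j = a
    · simp only [h, if_true]
      exact (hasW_normSq (Sum.inl j) p).hasA
    · simp only [h, if_false]
      exact ((hasA_const 0 p).congr_fun (by simp)).congr (by simp)
  refine (HasA.sum h1).congr_fun (Eventually.of_forall fun q => ?_)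
  simp only [sb]
  push_cast
  rfl

section divg

variable {A u : Fin 2 → (Fin 2 → ℝ) → ℝ} {κ : ℝ} {O : (Fin 2 → ℝ) → ℝ} {p : Ix → ℂ}

theorem dz_inl (hp : p ∈ X0) (hA : ∀ a, DifferentiableAt ℝ (A a) (v p))
    (hO : DifferentiableAt ℝ O (v p)) (j : Fin 18) :
    dz (Sum.inl j) (fun q => Uf A u (Sum.inl j) q * ((Real.exp (Hf κ O q) : ℝ) : ℂ)) p =
      ((Real.exp (Hf κ O p) * (-(1 / 2) * A (blk j) (v p) +
        Complex.normSq (p (Sum.inl j)) * (A (blk j) (v p) -
          1 / 10 * v p (blk j) * D (blk j) (A (blk j)) (v p) -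
          1 / 2 * A (blk j) (v p) * (κ + v p (blk j) * D (blk j) O (v p) / 5))) : ℝ) : ℂ) := by
  have h1 := ((((hasA_const (-(1 / 2)) p).mul (hasW_coord (Sum.inl j) p).hasA).mul
    (hasW_del j p).hasA).mul (hasA_W hp (hA (blk j)))).mul (hasA_exp (κ := κ) hp hO)
  have h2 := h1.dz (Sum.inl j)
  refine Eq.trans h2 ?_
  have hd : (del j p : ℂ) ≠ 0 := by exact_mod_cast (hp j).ne'
  have e : p (Sum.inl j) * conj (p (Sum.inl j)) = ((Complex.normSq (p (Sum.inl j)) : ℝ) : ℂ) :=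
    Complex.mul_conj _
  have ed : (del j p : ℂ) = 1 - ((Complex.normSq (p (Sum.inl j)) : ℝ) : ℂ) := by
    simp [del]
  have el : ∑ a, ell a p (Sum.inl j) = conj (p (Sum.inl j)) / (del j p : ℂ) := by
    simp [ell]
  have ev : ∀ f : Fin 2 → ℂ, ∑ a, f a * vz a p (Sum.inl j) =
      f (blk j) * ((v p (blk j) : ℂ) / 5 * (conj (p (Sum.inl j)) / (del j p : ℂ))) := by
    intro f
    simp [vz_inl]
  simp only [el, ev, Pi.single_eq_same, Pi.zero_apply]
  push_cast
  rw [← e]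
  have ed' : (del j p : ℂ) = 1 - p (Sum.inl j) * conj (p (Sum.inl j)) := by rw [ed, e]
  field_simp
  rw [ed']
  ring

theorem dz_inr (hp : p ∈ X0) (hA : ∀ a, DifferentiableAt ℝ (A a) (v p))
    (hu : ∀ a, DifferentiableAt ℝ (u a) (v p))
    (hO : DifferentiableAt ℝ O (v p)) (a : Fin 2) :
    dz (Sum.inr a) (fun q => Uf A u (Sum.inr a) q * ((Real.exp (Hf κ O q) : ℝ) : ℂ)) p =
      ((Real.exp (Hf κ O p) * (u a (v p) + v p a * D a (u a) (v p) +
        v p a * u a (v p) * D a O (v p) + sb a p * (1 / 10 * A a (v p) +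
        1 / 10 * v p a * D a (A a) (v p) + 1 / 10 * v p a * A a (v p) * D a O (v p))) : ℝ) : ℂ) := by
  have h1 := ((hasW_coord (Sum.inr a) p).hasA.mul ((hasA_W hp (hu a)).add
    (((hasA_sb a p).mul (hasA_W hp (hA a))).mul (hasA_const (1 / 10) p)))).mul
    (hasA_exp (κ := κ) hp hO)
  have h2 := h1.dz (Sum.inr a)
  refine Eq.trans h2 ?_
  have el : ∑ b, ell b p (Sum.inr a) = 0 := by
    simp [ell]
  have es : (∑ j, if blk j = a then
      conj (p (Sum.inl j)) * (Pi.single (Sum.inl j) 1 : Ix → ℂ) (Sum.inr a) else 0) = 0 := by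
    apply Finset.sum_eq_zero
    intro j _
    simp
  have ev : ∀ f : Fin 2 → ℂ, ∑ b, f b * vz b p (Sum.inr a) =
      f a * ((ex a p : ℂ) * conj (p (Sum.inr a))) := by
    intro f
    simp [vz_inr]
  have ew := w_vz a (p := p)
  simp only [el, ev, es, Pi.single_eq_same, Pi.zero_apply]
  push_cast
  rw [← ew]
  ring

theorem sum_blk (c d : Fin 2 → ℝ) (p : Ix → ℂ) :
    ∑ j, (c (blk j) + Complex.normSq (p (Sum.inl j)) * d (blk j)) =
      ∑ a, (9 * c a + sb a p * d a) := by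
  have h4 : ∀ j : Fin 18, c (blk j) + Complex.normSq (p (Sum.inl j)) * d (blk j) =
      ∑ a, ((if blk j = a then c a else 0) +
        (if blk j = a then Complex.normSq (p (Sum.inl j)) else 0) * d a) := by
    intro j
    simp [Finset.sum_add_distrib]
  rw [Finset.sum_congr rfl fun j _ => h4 j, Finset.sum_comm]
  refine Finset.sum_congr rfl fun a _ => ?_
  rw [Finset.sum_add_distrib, ← Finset.sum_mul, ← Finset.sum_filter, Finset.sum_const, card_blk]
  simp [sb]

/-- the divergence -/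
theorem sum_dz (hp : p ∈ X0) (hA : ∀ a, DifferentiableAt ℝ (A a) (v p))
    (hu : ∀ a, DifferentiableAt ℝ (u a) (v p))
    (hO : DifferentiableAt ℝ O (v p)) :
    ∑ I, dz I (fun q => Uf A u I q * ((Real.exp (Hf (11 / 5) O q) : ℝ) : ℂ)) p =
      ((Real.exp (Hf (11 / 5) O p) * ∑ a, (u a (v p) + v p a * D a (u a) (v p) +
        v p a * u a (v p) * D a O (v p) - 9 / 2 * A a (v p)) : ℝ) : ℂ) := by
  rw [Fintype.sum_sum_type]
  simp only [dz_inl hp hA hO, dz_inr hp hA hu hO]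
  rw [← Complex.ofReal_sum, ← Complex.ofReal_sum, ← Complex.ofReal_add]
  congr 1
  rw [← Finset.mul_sum, ← Finset.mul_sum, ← mul_add]
  congr 1
  rw [sum_blk (fun a => -(1 / 2) * A a (v p)) (fun a => A a (v p) -
          1 / 10 * v p a * D a (A a) (v p) -
          1 / 2 * A a (v p) * (11 / 5 + v p a * D a O (v p) / 5)) p, ← Finset.sum_add_distrib]
  refine Finset.sum_congr rfl fun a _ => ?_
  ring

end divg

theorem thV_eq (a : Fin 2) (p V : Ix → ℂ) :
    thV a p V = V (Sum.inr a) + p (Sum.inr a) / 5 * ∑ I, ell a p I * V I := by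
  unfold thV tht
  simp only [add_mul, Finset.sum_add_distrib, Finset.mul_sum, ite_mul, one_mul, zero_mul,
    Finset.sum_ite_eq', Finset.mem_univ, if_true, mul_assoc]

theorem thV_Uf (A u : Fin 2 → (Fin 2 → ℝ) → ℝ) {p : Ix → ℂ} (hp : p ∈ X0) (a : Fin 2) :
    thV a p (fun I => Uf A u I p) = p (Sum.inr a) * (u a (v p) : ℂ) := by
  rw [thV_eq]
  have h1 : ∑ I, ell a p I * Uf A u I p = -(1 / 2) * (sb a p : ℂ) * (A a (v p) : ℂ) := by
    rw [Fintype.sum_sum_type]
    have h2 : ∑ b : Fin 2, ell a p (Sum.inr b) * Uf A u (Sum.inr b) p = 0 :=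
      Finset.sum_eq_zero fun b _ => by simp [ell]
    rw [h2, add_zero]
    unfold sb
    rw [Complex.ofReal_sum, Finset.mul_sum, Finset.sum_mul]
    refine Finset.sum_congr rfl fun j _ => ?_
    have hd : (del j p : ℂ) ≠ 0 := by exact_mod_cast (hp j).ne'
    by_cases h : blk j = a
    · simp only [ell, h, if_true, Uf]
      rw [← Complex.mul_conj]
      field_simp
    · simp [ell, h]
  rw [h1]
  simp only [Uf]
  ring

/-- the lower bound for the spectrum -/
noncomputable def Low (W : (Fin 2 → ℝ) → ℝ) (u : Fin 2 → (Fin 2 → ℝ) → ℝ) (x : Fin 2 → ℝ) : ℝ :=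
  ∑ a, (9 / 4 * (1 / Kc (11 / 5) a W x) - (u a x + x a * D a (u a) x +
    x a * u a x * D a (Wd W) x + B a W x * x a * u a x ^ 2)) -
    2 * D 0 (D 1 W) x * (x 0 * x 1) * (u 0 x * u 1 x)

theorem levi_Uf {W : (Fin 2 → ℝ) → ℝ} (hG : Good W) (u : Fin 2 → (Fin 2 → ℝ) → ℝ)
    {p : Ix → ℂ} (hp : p ∈ X) :
    levi (11 / 5) W p (fun I => Uf (fun a x => 1 / Kc (11 / 5) a W x) u I p) =
      ∑ a, sb a p * (1 / 4 * (1 / Kc (11 / 5) a W (v p))) +
      ∑ a, B a W (v p) * v p a * u a (v p) ^ 2 +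
      2 * D 0 (D 1 W) (v p) * (v p 0 * v p 1) * (u 0 (v p) * u 1 (v p)) := by
  unfold levi
  simp only [thV_Uf _ u (X_subset_X0 hp)]
  congr 1
  · congr 1
    · have h0 := sum_blk (fun _ => 0) (fun a => 1 / 4 * (1 / Kc (11 / 5) a W (v p))) p
      simp only [mul_zero, zero_add] at h0
      rw [← h0]
      refine Finset.sum_congr rfl fun j _ => ?_
      have hK := (hG.posK p hp (blk j)).ne'
      have hd := (del_pos hp j).ne'
      simp only [Uf]
      rw [Complex.normSq_mul, Complex.normSq_mul, Complex.normSq_mul, Complex.normSq_ofReal,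
        Complex.normSq_ofReal]
      have : Complex.normSq (-(1 / 2)) = 1 / 4 := by
        rw [Complex.normSq_neg]
        have : (1 / 2 : ℂ) = ((1 / 2 : ℝ) : ℂ) := by push_cast; rfl
        rw [this, Complex.normSq_ofReal]
        norm_num
      rw [this]
      field_simp
    · refine Finset.sum_congr rfl fun a _ => ?_
      rw [Complex.normSq_mul, Complex.normSq_ofReal, v_eq]
      ring
  · have e : conj (p (Sum.inr 0)) * (p (Sum.inr 0) * (u 0 (v p) : ℂ)) *
        conj (conj (p (Sum.inr 1)) * (p (Sum.inr 1) * (u 1 (v p) : ℂ))) =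
        ((Complex.normSq (p (Sum.inr 0)) * Complex.normSq (p (Sum.inr 1)) *
          (u 0 (v p) * u 1 (v p)) : ℝ) : ℂ) := by
      push_cast
      simp only [← Complex.mul_conj, map_mul, Complex.conj_conj, Complex.conj_ofReal]
      ring
    rw [e, Complex.ofReal_re, v_eq, v_eq]
    ring

theorem sb_le {p : Ix → ℂ} (hp : p ∈ X) (a : Fin 2) : sb a p ≤ 9 := by
  have h1 : sb a p ≤ ∑ j, if blk j = a then (1 : ℝ) else 0 := by
    unfold sb
    apply Finset.sum_le_sum
    intro j _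
    split_ifs
    · exact (hp.1 j).le
    · exact le_rfl
  refine h1.trans (le_of_eq ?_)
  rw [← Finset.sum_filter, Finset.sum_const, card_blk]
  simp

theorem contDiffAt_Kc {W : (Fin 2 → ℝ) → ℝ} {x : Fin 2 → ℝ}
    (h : ContDiffAt ℝ ((⊤ : ℕ∞) : WithTop ℕ∞) W x) (a : Fin 2) :
    ContDiffAt ℝ ((⊤ : ℕ∞) : WithTop ℕ∞) (Kc (11 / 5) a W) x := by
  unfold Kc
  exact contDiffAt_const.add (((contDiff_apply ℝ ℝ a).contDiffAt.mul (contDiffAt_D h a)).div_const 5)

theorem zero_mem : (0 : Ix → ℂ) ∈ X := by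
  refine ⟨fun j => by simp, fun a => by simp [v]⟩

theorem bottom_met_ge {W : (Fin 2 → ℝ) → ℝ} (hG : Good W)
    (hd : ∀ p ∈ X, ContDiffAt ℝ ((⊤ : ℕ∞) : WithTop ℕ∞) (Wd W) (v p))
    {u : Fin 2 → (Fin 2 → ℝ) → ℝ} (hu : ∀ a, ContDiff ℝ ((⊤ : ℕ∞) : WithTop ℕ∞) (u a)) {lam : ℝ}
    (h : ∀ p ∈ X, lam ≤ Low W u (v p)) : 2 * lam ≤ bottom X (met W) := by
  set A : Fin 2 → (Fin 2 → ℝ) → ℝ := fun a x => 1 / Kc (11 / 5) a W x with hA
  have hAc : ∀ p ∈ X, ∀ a, ContDiffAt ℝ ((⊤ : ℕ∞) : WithTop ℕ∞) (A a) (v p) := by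
    intro p hp a
    exact contDiffAt_const.div (contDiffAt_Kc (hG.smooth p hp) a) (hG.posK p hp a).ne'
  have hcomp : ∀ {f : (Fin 2 → ℝ) → ℝ}, (∀ p ∈ X, ContDiffAt ℝ ((⊤ : ℕ∞) : WithTop ℕ∞) f (v p)) →
      ContDiffOn ℝ ((⊤ : ℕ∞) : WithTop ℕ∞) (fun q => ((f (v q) : ℝ) : ℂ)) X := by
    intro f hf p hp
    have h1 := (contDiffOn_v' p (X_subset_X0 hp)).contDiffAt (isOpen_X0.mem_nhds (X_subset_X0 hp))
    have h2 := (hf p hp).comp p h1
    exact (Complex.ofRealCLM.contDiff.contDiffAt.comp p h2).contDiffWithinAt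
  have hdet : ∀ p ∈ X, (met W p).det = ((Real.exp (Hf (11 / 5) (Wd W) p) : ℝ) : ℂ) := by
    intro p hp
    rw [det_met hG hp, ← log_dt hG hp, Real.exp_log (dt_pos hG hp)]
  have hdre : ∀ p ∈ X, (met W p).det.re = Real.exp (Hf (11 / 5) (Wd W) p) := fun p hp => by
    rw [hdet p hp, Complex.ofReal_re]
  have hexp : ContDiffOn ℝ ((⊤ : ℕ∞) : WithTop ℕ∞)
      (fun q => ((Real.exp (Hf (11 / 5) (Wd W) q) : ℝ) : ℂ)) X := by
    have h1 := contDiffOn_Hf (κ := 11 / 5) (W := Wd W) hd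
    have h2 : ContDiffOn ℝ ((⊤ : ℕ∞) : WithTop ℕ∞) (fun q => Hf (11 / 5) (Wd W) q) X :=
      Complex.reCLM.contDiff.comp_contDiffOn h1
    exact Complex.ofRealCLM.contDiff.comp_contDiffOn h2.exp
  have hcoord : ∀ K : Ix, ContDiffOn ℝ ((⊤ : ℕ∞) : WithTop ℕ∞) (fun q : Ix → ℂ => q K) X :=
    fun K => (contDiff_apply ℝ ℂ K).contDiffOn
  have hsb : ∀ a, ContDiff ℝ ((⊤ : ℕ∞) : WithTop ℕ∞) fun q => ((sb a q : ℝ) : ℂ) := by
    intro a
    have : (fun q => ((sb a q : ℝ) : ℂ)) = fun q => ∑ j, if blk j = a then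
        1 - ((del j q : ℝ) : ℂ) else 0 := by
      ext q
      simp only [sb, del]
      rw [Complex.ofReal_sum]
      refine Finset.sum_congr rfl fun j _ => ?_
      split_ifs <;> simp
    rw [this]
    apply ContDiff.sum
    intro j _
    by_cases hb : blk j = a
    · simp only [hb, if_true]
      exact contDiff_const.sub (Complex.ofRealCLM.contDiff.comp (contDiff_del j))
    · simp only [hb, if_false]
      exact contDiff_const
  have hU : ∀ I, ContDiffOn ℝ ((⊤ : ℕ∞) : WithTop ℕ∞) (fun q => Uf A u I q *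
      ((Real.exp (Hf (11 / 5) (Wd W) q) : ℝ) : ℂ)) X := by
    intro I
    refine ContDiffOn.mul ?_ hexp
    rcases I with j | a
    · exact (((contDiffOn_const.mul (hcoord _)).mul
        (Complex.ofRealCLM.contDiff.comp (contDiff_del j)).contDiffOn).mul
        (hcomp fun p hp => hAc p hp (blk j)))
    · exact (hcoord _).mul ((hcomp fun p _ => (hu a).contDiffAt).add
        (((hsb a).contDiffOn.mul (hcomp fun p hp => hAc p hp a)).mul contDiffOn_const))
  apply bottom_ge isOpen_X ⟨0, zero_mem⟩ (isKahler_met hG) (Uf A u)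
  · intro I
    refine ((hU I).of_le (by norm_cast)).congr fun q hq => ?_
    rw [hdet q hq]
  · intro p hp
    have hp0 := X_subset_X0 hp
    have e1 : ∀ I, dz I (fun q => Uf A u I q * (met W q).det) p =
        dz I (fun q => Uf A u I q * ((Real.exp (Hf (11 / 5) (Wd W) q) : ℝ) : ℂ)) p := by
      intro I
      unfold dz
      have : (fun q => Uf A u I q * (met W q).det) =ᶠ[𝓝 p]
          fun q => Uf A u I q * ((Real.exp (Hf (11 / 5) (Wd W) q) : ℝ) : ℂ) := by
        filter_upwards [isOpen_X.mem_nhds hp] with q hq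
        rw [hdet q hq]
      rw [this.fderiv_eq]
    simp only [e1]
    rw [sum_dz hp0 (fun a => (hAc p hp a).differentiableAt (by norm_cast))
      (fun a => (hu a).differentiable (by norm_cast) _)
      ((hd p hp).differentiableAt (by norm_cast)), Complex.ofReal_re, hdre p hp]
    simp only [met_eq hp (hG.smooth p hp)]
    rw [sum_hess (hG.smooth p hp), Complex.ofReal_re, levi_Uf hG u hp]
    have h1 := h p hp
    unfold Low at h1
    have hE := Real.exp_pos (Hf (11 / 5) (Wd W) p)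
    have h2 : ∀ a, sb a p * (1 / 4 * (1 / Kc (11 / 5) a W (v p))) ≤
        9 / 4 * (1 / Kc (11 / 5) a W (v p)) := by
      intro a
      have := hG.posK p hp a
      have h3 : 0 ≤ 1 / 4 * (1 / Kc (11 / 5) a W (v p)) := by positivity
      have := mul_le_mul_of_nonneg_right (sb_le hp a) h3
      linarith
    have h3 : lam ≤ -∑ a, (u a (v p) + v p a * D a (u a) (v p) +
        v p a * u a (v p) * D a (Wd W) (v p) - 9 / 2 * A a (v p)) -
        (∑ a, sb a p * (1 / 4 * (1 / Kc (11 / 5) a W (v p))) +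
      ∑ a, B a W (v p) * v p a * u a (v p) ^ 2 +
      2 * D 0 (D 1 W) (v p) * (v p 0 * v p 1) * (u 0 (v p) * u 1 (v p))) := by
      have h4 := h2 0
      have h5 := h2 1
      simp only [Fin.sum_univ_two, hA] at h1 ⊢
      linarith
    have h4 := mul_le_mul_of_nonneg_left h3 hE.le
    linarith

end Pool.Agent.L5helper88.KE
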