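import Pool.Agent.L5helper88.KE.Compl2

/-! Integrals of product functions over the domain. -/

set_option linter.unusedSectionVars false
set_option linter.unusedSimpArgs false

namespace Pool.Agent.L5helper88.KE

open MeasureTheory Set Filter Topology

/-- `L_a` as a function of the base -/
noncomputable def Lz (a : Fin 2) (z : Fin 18 → ℂ) : ℝ :=
  ∑ j, if blk j = a then - Real.log (1 - Complex.normSq (z j)) else 0

/-- product functions -/
noncomputable def Pq (α : Fin 18 → ℂ → ℝ) (β : Fin 2 → ℝ → ℝ)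
    (q : (Fin 18 → ℂ) × (Fin 2 → ℂ)) : ℝ :=
  (∏ j, α j (q.1 j)) * Real.exp (11 / 5 * ∑ a, Lz a q.1) *
    ∏ a, β a (Complex.normSq (q.2 a) * Real.exp (Lz a q.1 / 5))

/-- product functions on the domain -/
noncomputable def PX (α : Fin 18 → ℂ → ℝ) (β : Fin 2 → ℝ → ℝ) (p : Ix → ℂ) : ℝ :=
  (∏ j, α j (p (Sum.inl j))) * Real.exp (11 / 5 * ∑ a, L a p) * ∏ a, β a (v p a)

/-- conditions on the factors -/
structure Fac (η : ℝ) (α : Fin 18 → ℂ → ℝ) (β : Fin 2 → ℝ → ℝ) : Prop where
  pos : 0 < η
  le : η ≤ 1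
  a0 : ∀ j z, 1 - η < Complex.normSq z → α j z = 0
  ac : ∀ j, Continuous (α j)
  b0 : ∀ a s, 1 - η < s → β a s = 0
  bc : ∀ a, ContinuousOn (β a) (Iio 1)

variable {η : ℝ} {α : Fin 18 → ℂ → ℝ} {β : Fin 2 → ℝ → ℝ}

theorem sum_L (p : Ix → ℂ) : ∑ a, L a p = ∑ j, - Real.log (del j p) := by
  unfold L
  rw [Finset.sum_comm]
  exact Finset.sum_congr rfl fun j _ => by simp

theorem Fac.ne (h : Fac η α β) {p : Ix → ℂ} (hp : PX α β p ≠ 0) :
    (∀ j, η ≤ del j p) ∧ ∀ a, v p a ≤ 1 - η := by
  unfold PX at hp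
  have h1 := left_ne_zero_of_mul (left_ne_zero_of_mul hp)
  have h2 := right_ne_zero_of_mul hp
  rw [Finset.prod_ne_zero_iff] at h1 h2
  constructor
  · intro j
    by_contra hn
    apply h1 j (Finset.mem_univ j)
    apply h.a0
    unfold del at hn
    linarith
  · intro a
    by_contra hn
    apply h2 a (Finset.mem_univ a)
    apply h.b0
    linarith

theorem Fac.mem (h : Fac η α β) {p : Ix → ℂ} (hp : PX α β p ≠ 0) :
    p ∈ X ∧ bx p ≤ -(20 * Real.log η) := by
  obtain ⟨h1, h2⟩ := h.ne hp
  have hη := h.pos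
  have hX : p ∈ X := by
    refine ⟨fun j => ?_, fun a => ?_⟩
    · have := h1 j
      unfold del at this
      linarith
    · have := h2 a
      linarith
  refine ⟨hX, ?_⟩
  rw [bx_eq, sum_L]
  have h3 : ∑ j, - Real.log (del j p) ≤ ∑ _j : Fin 18, - Real.log η :=
    Finset.sum_le_sum fun j _ => neg_le_neg (Real.log_le_log hη (h1 j))
  have h4 : ∀ a, Real.log η ≤ Real.log (1 - v p a) := fun a =>
    Real.log_le_log hη (by have := h2 a; linarith)
  have h5 := h4 0
  have h6 := h4 1
  rw [Fin.sum_univ_two]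
  rw [Finset.sum_const, Finset.card_univ, Fintype.card_fin, nsmul_eq_mul] at h3
  push_cast at h3
  linarith

theorem Fac.continuousOn (h : Fac η α β) : ContinuousOn (PX α β) X := by
  unfold PX
  refine ContinuousOn.mul (ContinuousOn.mul ?_ ?_) ?_
  · exact continuousOn_finsetProd _ fun j _ => ((h.ac j).comp (continuous_apply _)).continuousOn
  · refine Real.continuous_exp.comp_continuousOn (continuousOn_const.mul ?_)
    exact continuousOn_finsetSum _ fun a _ => ((contDiffOn_L a).continuousOn.mono X_subset_X0)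
  · refine continuousOn_finsetProd _ fun a _ => ?_
    exact (h.bc a).comp ((contDiffOn_v a).continuousOn.mono X_subset_X0) fun p hp => hp.2 a

theorem Fac.integrable (h : Fac η α β) : Integrable (PX α β) := by
  have hK := isCompact_sub (-(20 * Real.log η))
  have h1 : IntegrableOn (PX α β) {p | p ∈ X ∧ bx p ≤ -(20 * Real.log η)} :=
    (h.continuousOn.mono fun p hp => hp.1).integrableOn_compact hK
  rwa [integrableOn_iff_integrable_of_support_subset] at h1
  intro p hp
  exact h.mem hp

theorem PX_eq (p : Ix → ℂ) : PX α β p =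
    Pq α β (MeasurableEquiv.sumPiEquivProdPi (fun _ : Ix => ℂ) p) := rfl

theorem inner (z : Fin 18 → ℂ) : ∫ w : Fin 2 → ℂ,
    ∏ a, β a (Complex.normSq (w a) * Real.exp (Lz a z / 5)) =
    Real.exp (-(1 / 5) * ∑ a, Lz a z) * ∏ a, ∫ w : ℂ, β a (Complex.normSq w) := by
  rw [integral_fintype_prod_volume_eq_prod (fun a (w : ℂ) =>
    β a (Complex.normSq w * Real.exp (Lz a z / 5)))]
  have h1 : ∀ a, ∫ w : ℂ, β a (Complex.normSq w * Real.exp (Lz a z / 5)) =
      Real.exp (-(Lz a z / 5)) * ∫ w : ℂ, β a (Complex.normSq w) := by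
    intro a
    have h2 := Measure.integral_comp_smul (volume : Measure ℂ) (fun w => β a (Complex.normSq w))
      (Real.exp (Lz a z / 10))
    have h3 : ∀ w : ℂ, Complex.normSq (Real.exp (Lz a z / 10) • w) =
        Complex.normSq w * Real.exp (Lz a z / 5) := by
      intro w
      rw [Complex.real_smul, Complex.normSq_mul, Complex.normSq_ofReal, ← Real.exp_add]
      rw [mul_comm]
      congr 2
      ring
    simp only [h3] at h2
    rw [h2, Complex.finrank_real_complex, ← Real.exp_nat_mul, ← Real.exp_neg,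
      abs_of_pos (Real.exp_pos _), smul_eq_mul]
    congr 2
    push_cast
    ring
  simp only [h1]
  rw [Finset.prod_mul_distrib, ← Real.exp_sum]
  congr 2
  rw [Finset.mul_sum]
  exact Finset.sum_congr rfl fun a _ => by ring

theorem Fac.integral (h : Fac η α β) : ∫ p in X, PX α β p =
    (∏ j, ∫ z : ℂ, α j z / (1 - Complex.normSq z) ^ 2) *
      ∏ a, ∫ w : ℂ, β a (Complex.normSq w) := by
  rw [setIntegral_eq_integral_of_forall_compl_eq_zero (fun p hp => by
    by_contra hn
    exact hp (h.mem hn).1)]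
  have hmp := volume_measurePreserving_sumPiEquivProdPi (fun _ : Ix => ℂ)
  have h1 : ∫ p, PX α β p = ∫ q, Pq α β q := by
    have := hmp.integral_comp' (g := Pq α β)
    exact this
  have hint : Integrable (Pq α β) := by
    have h2 : Integrable (Pq α β ∘ MeasurableEquiv.sumPiEquivProdPi (fun _ : Ix => ℂ)) :=
      h.integrable
    exact (hmp.integrable_comp_emb (MeasurableEquiv.measurableEmbedding _)).mp h2
  rw [h1, Measure.volume_eq_prod, integral_prod _ hint]
  have h3 : ∀ z : Fin 18 → ℂ, ∫ w, Pq α β (z, w) =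
      (∏ j, α j (z j) / (1 - Complex.normSq (z j)) ^ 2) *
        ∏ a, ∫ w : ℂ, β a (Complex.normSq w) := by
    intro z
    unfold Pq
    simp only
    rw [integral_const_mul, inner]
    by_cases hz : ∀ j, Complex.normSq (z j) ≤ 1 - η
    · have hpos : ∀ j, 0 < 1 - Complex.normSq (z j) := fun j => by
        have := hz j
        have := h.pos
        linarith
      have e : Real.exp (11 / 5 * ∑ a, Lz a z) * Real.exp (-(1 / 5) * ∑ a, Lz a z) =
          ∏ j, 1 / (1 - Complex.normSq (z j)) ^ 2 := by
        rw [← Real.exp_add]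
        have e1 : 11 / 5 * ∑ a, Lz a z + -(1 / 5) * ∑ a, Lz a z =
            ∑ j, (2 * - Real.log (1 - Complex.normSq (z j))) := by
          have : ∑ a, Lz a z = ∑ j, - Real.log (1 - Complex.normSq (z j)) := by
            unfold Lz
            rw [Finset.sum_comm]
            exact Finset.sum_congr rfl fun j _ => by simp
          rw [this, ← Finset.mul_sum]
          ring
        rw [e1, Real.exp_sum]
        refine Finset.prod_congr rfl fun j _ => ?_
        rw [show 2 * - Real.log (1 - Complex.normSq (z j)) =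
          -(((2 : ℕ) : ℝ) * Real.log (1 - Complex.normSq (z j))) by push_cast; ring,
          Real.exp_neg, Real.exp_nat_mul, Real.exp_log (hpos j), one_div]
      have e2 : ∏ j, α j (z j) / (1 - Complex.normSq (z j)) ^ 2 =
          (∏ j, α j (z j)) * ∏ j, 1 / (1 - Complex.normSq (z j)) ^ 2 := by
        rw [← Finset.prod_mul_distrib]
        exact Finset.prod_congr rfl fun j _ => by ring
      rw [e2, ← e]
      ring
    · push Not at hz
      obtain ⟨j, hj⟩ := hz
      have h0 : α j (z j) = 0 := h.a0 j _ hj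
      have e1 : ∏ j, α j (z j) = 0 := Finset.prod_eq_zero (Finset.mem_univ j) h0
      have e2 : ∏ j, α j (z j) / (1 - Complex.normSq (z j)) ^ 2 = 0 :=
        Finset.prod_eq_zero (Finset.mem_univ j) (by rw [h0, zero_div])
      rw [e1, e2]
      ring
  simp only [h3]
  rw [integral_mul_const, integral_fintype_prod_volume_eq_prod (fun j (z : ℂ) =>
    α j z / (1 - Complex.normSq z) ^ 2)]

end Pool.Agent.L5helper88.KE
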