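import Pool.Agent.L5helper88.KE.Field
import Pool.Agent.L5helper88.KE.Family

/-! Upper bound for the gradient of product functions. -/

set_option linter.unusedSectionVars false
set_option linter.unusedSimpArgs false

namespace Pool.Agent.L5helper88.KE

open MeasureTheory Set Filter Topology Matrix
open scoped ComplexOrder ComplexConjugate

section general

variable {ι : Type} [Fintype ι] [DecidableEq ι]

theorem quad_upper {g : Matrix ι ι ℂ} (hg : g.PosDef) (ξ : ι → ℂ) {R : ℝ}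
    (h : ∀ V : ι → ℂ, 2 * (∑ i, ξ i * V i).re ≤ R + (∑ i, ∑ j, g i j * V i * conj (V j)).re) :
    (∑ i, ∑ j, g⁻¹ j i * ξ i * conj (ξ j)).re ≤ R := by
  have hdet : IsUnit g.det := by
    rw [isUnit_iff_ne_zero]
    exact hg.det_pos.ne'
  set u : ι → ℂ := g⁻¹ *ᵥ ξ with hu
  have hgu : g *ᵥ u = ξ := by
    rw [hu, Matrix.mulVec_mulVec, Matrix.mul_nonsing_inv _ hdet, Matrix.one_mulVec]
  have h1 := h (star u)
  have e1 : ∑ i, ∑ j, g i j * (star u) i * conj ((star u) j) = star u ⬝ᵥ ξ := by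
    rw [sum_eq_dot g (star u) (fun j => conj ((star u) j))]
    have : (fun j => conj ((star u) j)) = u := by
      ext j
      simp
    rw [this, hgu]
  have e2 : ∑ i, ξ i * (star u) i = star u ⬝ᵥ ξ := by
    rw [dotProduct_comm]
    rfl
  have e3 : ∑ i, ∑ j, g⁻¹ j i * ξ i * conj (ξ j) = star ξ ⬝ᵥ u := by
    rw [hu, Finset.sum_comm, dotProduct]
    refine Finset.sum_congr rfl fun j _ => ?_
    rw [Matrix.mulVec, dotProduct, Finset.mul_sum]
    refine Finset.sum_congr rfl fun i _ => ?_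
    simp only [Pi.star_apply, RCLike.star_def]
    ring
  have e5 : star ξ ⬝ᵥ u = star (star u ⬝ᵥ ξ) := Matrix.star_dotProduct _ _
  have c2 : (star (star u ⬝ᵥ ξ) : ℂ).re = (star u ⬝ᵥ ξ).re := by
    rw [RCLike.star_def, Complex.conj_re]
  rw [e1, e2] at h1
  rw [e3, e5, c2]
  linarith

theorem quad_nonneg' {g : Matrix ι ι ℂ} (hg : g.PosDef) (ξ : ι → ℂ) :
    0 ≤ (∑ i, ∑ j, g⁻¹ j i * ξ i * conj (ξ j)).re := by
  have := quad_dual hg ξ 0
  simpa using this

theorem two_re_le (a b : ℂ) {t : ℝ} (ht : 0 < t) :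
    2 * (a * b).re ≤ Complex.normSq a / t + t * Complex.normSq b := by
  rw [← sub_nonneg]
  have : Complex.normSq a / t + t * Complex.normSq b - 2 * (a * b).re =
      ((a.re - t * b.re) ^ 2 + (a.im + t * b.im) ^ 2) / t := by
    simp only [Complex.normSq_apply, Complex.mul_re]
    field_simp
    ring
  rw [this]
  positivity

theorem dz_ofReal {G : (ι → ℂ) → ℝ} {G' : (ι → ℂ) →L[ℝ] ℝ} {p : ι → ℂ} (h : HasFDerivAt G G' p)
    (i : ι) : dz i (fun q => (G q : ℂ)) p =
      ((G' (Pi.single i 1) : ℂ) - Complex.I * (G' (Pi.single i Complex.I) : ℂ)) / 2 := by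
  have h1 := Complex.ofRealCLM.hasFDerivAt.comp p h
  have h2 : fderiv ℝ (fun q => (G q : ℂ)) p = _ := h1.fderiv
  unfold dz
  rw [h2]
  rfl

end general

/-- product of functions of the base coordinates -/
noncomputable def Hp (h : ℂ → ℝ) (p : Ix → ℂ) : ℝ := ∏ j : Fin 18, h (p (Sum.inl j))

/-- the Wirtinger derivative of a real function on `ℂ` -/
noncomputable def hz (h : ℂ → ℝ) (z : ℂ) : ℂ :=
  ((fderiv ℝ h z 1 : ℝ) - Complex.I * (fderiv ℝ h z Complex.I : ℝ)) / 2

theorem normSq_hz (h : ℂ → ℝ) (z : ℂ) : Complex.normSq (hz h z) =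
    (fderiv ℝ h z 1 ^ 2 + fderiv ℝ h z Complex.I ^ 2) / 4 := by
  unfold hz
  rw [Complex.normSq_apply]
  simp
  ring

theorem hasFDerivAt_Hp {h : ℂ → ℝ} (hh : Differentiable ℝ h) (p : Ix → ℂ) :
    HasFDerivAt (Hp h) (∑ j : Fin 18, (∏ i ∈ Finset.univ.erase j, h (p (Sum.inl i))) •
      ((fderiv ℝ h (p (Sum.inl j))).comp
        (ContinuousLinearMap.proj (R := ℝ) (φ := fun _ : Ix => ℂ) (Sum.inl j)))) p := by
  have h1 : ∀ j ∈ (Finset.univ : Finset (Fin 18)), HasFDerivAt (fun q : Ix → ℂ => h (q (Sum.inl j)))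
      ((fderiv ℝ h (p (Sum.inl j))).comp
        (ContinuousLinearMap.proj (R := ℝ) (φ := fun _ : Ix => ℂ) (Sum.inl j))) p := by
    intro j _
    exact (hh (p (Sum.inl j))).hasFDerivAt.comp p
      (ContinuousLinearMap.proj (R := ℝ) (φ := fun _ : Ix => ℂ) (Sum.inl j)).hasFDerivAt
  have h2 := HasFDerivAt.finsetProd h1
  exact h2

theorem dz_Hp_inl {h : ℂ → ℝ} (hh : Differentiable ℝ h) (p : Ix → ℂ) (j : Fin 18) :
    dz (Sum.inl j) (fun q => (Hp h q : ℂ)) p =
      ((∏ i ∈ Finset.univ.erase j, h (p (Sum.inl i)) : ℝ) : ℂ) * hz h (p (Sum.inl j)) := by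
  rw [dz_ofReal (hasFDerivAt_Hp hh p)]
  have e : ∀ w : ℂ, (∑ i : Fin 18, (∏ k ∈ Finset.univ.erase i, h (p (Sum.inl k))) •
      ((fderiv ℝ h (p (Sum.inl i))).comp (ContinuousLinearMap.proj (R := ℝ)
        (φ := fun _ : Ix => ℂ) (Sum.inl i)))) (Pi.single (Sum.inl j) w) =
      (∏ k ∈ Finset.univ.erase j, h (p (Sum.inl k))) * fderiv ℝ h (p (Sum.inl j)) w := by
    intro w
    simp only [_root_.sum_apply, _root_.smul_apply, ContinuousLinearMap.comp_apply,
      ContinuousLinearMap.proj_apply, smul_eq_mul]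
    rw [Finset.sum_eq_single j]
    · simp
    · intro k _ hk
      have : (Sum.inl k : Ix) ≠ Sum.inl j := fun h' => hk (Sum.inl_injective h')
      rw [Pi.single_eq_of_ne this, map_zero, mul_zero]
    · simp
  rw [e, e]
  unfold hz
  push_cast
  ring

theorem dz_Hp_inr {h : ℂ → ℝ} (hh : Differentiable ℝ h) (p : Ix → ℂ) (a : Fin 2) :
    dz (Sum.inr a) (fun q => (Hp h q : ℂ)) p = 0 := by
  rw [dz_ofReal (hasFDerivAt_Hp hh p)]
  have e : ∀ w : ℂ, (∑ i : Fin 18, (∏ k ∈ Finset.univ.erase i, h (p (Sum.inl k))) •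
      ((fderiv ℝ h (p (Sum.inl i))).comp (ContinuousLinearMap.proj (R := ℝ)
        (φ := fun _ : Ix => ℂ) (Sum.inl i)))) (Pi.single (Sum.inr a) w) = 0 := by
    intro w
    simp only [_root_.sum_apply, _root_.smul_apply, ContinuousLinearMap.comp_apply,
      ContinuousLinearMap.proj_apply, smul_eq_mul]
    apply Finset.sum_eq_zero
    intro k _
    have : (Sum.inl k : Ix) ≠ Sum.inr a := by simp
    rw [Pi.single_eq_of_ne this, map_zero, mul_zero]
  rw [e, e]
  simp

/-- the test function -/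
noncomputable def Ft (h : ℂ → ℝ) (f : ℝ → ℝ) (p : Ix → ℂ) : ℝ :=
  Hp h p * (f (v p 0) * f (v p 1))

/-- the fibre part -/
noncomputable def ph (f : ℝ → ℝ) (x : Fin 2 → ℝ) : ℝ := f (x 0) * f (x 1)

theorem hasFDerivAt_fx {f : ℝ → ℝ} (hf : Differentiable ℝ f) (a : Fin 2) (x : Fin 2 → ℝ) :
    HasFDerivAt (fun y : Fin 2 → ℝ => f (y a)) (deriv f (x a) •
      ContinuousLinearMap.proj (R := ℝ) (φ := fun _ : Fin 2 => ℝ) a) x :=
  (hf (x a)).hasDerivAt.comp_hasFDerivAt x (hasFDerivAt_coord a x)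

theorem D0_ph {f : ℝ → ℝ} (hf : Differentiable ℝ f) (x : Fin 2 → ℝ) :
    D 0 (ph f) x = deriv f (x 0) * f (x 1) := by
  have h := (hasFDerivAt_fx hf 0 x).mul (hasFDerivAt_fx hf 1 x)
  rw [D_of_hasFDerivAt (W := ph f) h]
  simp
  ring

theorem D1_ph {f : ℝ → ℝ} (hf : Differentiable ℝ f) (x : Fin 2 → ℝ) :
    D 1 (ph f) x = f (x 0) * deriv f (x 1) := by
  have h := (hasFDerivAt_fx hf 0 x).mul (hasFDerivAt_fx hf 1 x)
  rw [D_of_hasFDerivAt (W := ph f) h]
  simp

theorem diff_ph {f : ℝ → ℝ} (hf : Differentiable ℝ f) (x : Fin 2 → ℝ) :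
    DifferentiableAt ℝ (ph f) x :=
  ((hasFDerivAt_fx hf 0 x).mul (hasFDerivAt_fx hf 1 x)).differentiableAt

/-- the energy density of the test function -/
noncomputable def Rd (W : (Fin 2 → ℝ) → ℝ) (h : ℂ → ℝ) (f : ℝ → ℝ) (p : Ix → ℂ) : ℝ :=
  ∑ j, ((f (v p 0) * f (v p 1)) * ∏ i ∈ Finset.univ.erase j, h (p (Sum.inl i))) ^ 2 *
    Complex.normSq (hz h (p (Sum.inl j))) / (Kc (11 / 5) (blk j) W (v p) / del j p ^ 2) +
  ∑ a, (Hp h p * D a (ph f) (v p)) ^ 2 * v p a / B a W (v p)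

theorem gradSq_le {W : (Fin 2 → ℝ) → ℝ} (hG : Good W) (hW : ∀ x ∈ S, D 0 (D 1 W) x = 0)
    {h : ℂ → ℝ} (hh : Differentiable ℝ h) {f : ℝ → ℝ} (hf : Differentiable ℝ f)
    {p : Ix → ℂ} (hp : p ∈ X) : gradSq (met W) (Ft h f) p ≤ 2 * Rd W h f p := by
  have hp0 := X_subset_X0 hp
  unfold gradSq
  have key : (∑ i, ∑ j, (met W p)⁻¹ j i * dz i (fun q => ((Ft h f q : ℝ) : ℂ)) p *
      conj (dz j (fun q => ((Ft h f q : ℝ) : ℂ)) p)).re ≤ Rd W h f p := by
    apply quad_upper (posDef_met hG hp)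
    intro V
    simp only [met_eq hp (hG.smooth p hp)]
    rw [sum_hess (hG.smooth p hp), Complex.ofReal_re]
    have hHd : DifferentiableAt ℝ (fun q => ((Hp h q : ℝ) : ℂ)) p :=
      (Complex.ofRealCLM.hasFDerivAt.comp p (hasFDerivAt_Hp hh p)).differentiableAt
    have hφA := hasA_W hp0 (diff_ph hf (v p))
    obtain ⟨b, hb⟩ := hφA
    have hφd : DifferentiableAt ℝ (fun q => ((ph f (v q) : ℝ) : ℂ)) p :=
      HasFDerivAt.differentiableAt hb
    have hdz : ∀ I, dz I (fun q => ((Ft h f q : ℝ) : ℂ)) p =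
        (Hp h p : ℂ) * ∑ b, (D b (ph f) (v p) : ℂ) * vz b p I +
          (ph f (v p) : ℂ) * dz I (fun q => ((Hp h q : ℝ) : ℂ)) p := by
      intro I
      have e1 : (fun q => ((Ft h f q : ℝ) : ℂ)) =
          fun q => ((Hp h q : ℝ) : ℂ) * ((ph f (v q) : ℝ) : ℂ) := by
        ext q
        simp [Ft, ph]
      rw [e1, dz_mul hHd hφd, hb.dz I]
    have hsum : ∑ I, dz I (fun q => ((Ft h f q : ℝ) : ℂ)) p * V I =
        ∑ j : Fin 18, (((f (v p 0) * f (v p 1)) *
          ∏ i ∈ Finset.univ.erase j, h (p (Sum.inl i)) : ℝ) * hz h (p (Sum.inl j))) *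
            V (Sum.inl j) +
        ∑ a, (((Hp h p * D a (ph f) (v p) : ℝ) : ℂ) * ((ex a p : ℂ) * conj (p (Sum.inr a)))) *
          thV a p V := by
      have e2 : ∑ I, dz I (fun q => ((Hp h q : ℝ) : ℂ)) p * V I = ∑ j : Fin 18,
          (((∏ i ∈ Finset.univ.erase j, h (p (Sum.inl i)) : ℝ) : ℂ) * hz h (p (Sum.inl j))) *
            V (Sum.inl j) := by
        rw [Fintype.sum_sum_type]
        simp only [dz_Hp_inl hh, dz_Hp_inr hh, zero_mul, Finset.sum_const_zero, add_zero]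
      have e3 : ∑ I, dz I (fun q => ((Ft h f q : ℝ) : ℂ)) p * V I =
          (Hp h p : ℂ) * ∑ b, (D b (ph f) (v p) : ℂ) * ∑ I, vz b p I * V I +
          (ph f (v p) : ℂ) * ∑ I, dz I (fun q => ((Hp h q : ℝ) : ℂ)) p * V I := by
        simp only [hdz]
        simp only [Fin.sum_univ_two, Finset.mul_sum, ← Finset.sum_add_distrib]
        refine Finset.sum_congr rfl fun I _ => ?_
        ring
      rw [e3, e2]
      simp only [sum_vz]
      rw [add_comm]
      congr 1
      · rw [Finset.mul_sum]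
        refine Finset.sum_congr rfl fun j _ => ?_
        simp only [ph]
        push_cast
        ring
      · rw [Finset.mul_sum]
        refine Finset.sum_congr rfl fun a _ => ?_
        push_cast
        ring
    rw [hsum, Complex.add_re, Complex.re_sum, Complex.re_sum]
    have b1 : ∀ j ∈ (Finset.univ : Finset (Fin 18)), 2 * ((((f (v p 0) * f (v p 1)) *
          ∏ i ∈ Finset.univ.erase j, h (p (Sum.inl i)) : ℝ) * hz h (p (Sum.inl j))) *
            V (Sum.inl j)).re ≤ ((f (v p 0) * f (v p 1)) *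
          ∏ i ∈ Finset.univ.erase j, h (p (Sum.inl i))) ^ 2 *
    Complex.normSq (hz h (p (Sum.inl j))) / (Kc (11 / 5) (blk j) W (v p) / del j p ^ 2) +
      Kc (11 / 5) (blk j) W (v p) / del j p ^ 2 * Complex.normSq (V (Sum.inl j)) := by
      intro j _
      have ht : 0 < Kc (11 / 5) (blk j) W (v p) / del j p ^ 2 :=
        div_pos (hG.posK p hp _) (pow_pos (del_pos hp j) 2)
      have := two_re_le ((((f (v p 0) * f (v p 1)) *
          ∏ i ∈ Finset.univ.erase j, h (p (Sum.inl i)) : ℝ) : ℂ) * hz h (p (Sum.inl j)))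
            (V (Sum.inl j)) ht
      rw [Complex.normSq_mul, Complex.normSq_ofReal, ← sq] at this
      exact this
    have b2 : ∀ a ∈ (Finset.univ : Finset (Fin 2)), 2 * ((((Hp h p * D a (ph f) (v p) : ℝ) : ℂ) *
        ((ex a p : ℂ) * conj (p (Sum.inr a)))) * thV a p V).re ≤
        (Hp h p * D a (ph f) (v p)) ^ 2 * v p a / B a W (v p) +
          B a W (v p) * ex a p * Complex.normSq (thV a p V) := by
      intro a _
      have hB := hG.posB p hp a
      have hex := ex_pos a p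
      have ht : 0 < B a W (v p) * ex a p := mul_pos hB hex
      have := two_re_le (((Hp h p * D a (ph f) (v p) : ℝ) : ℂ) *
        ((ex a p : ℂ) * conj (p (Sum.inr a)))) (thV a p V) ht
      refine this.trans (le_of_eq ?_)
      congr 1
      rw [Complex.normSq_mul, Complex.normSq_mul, Complex.normSq_ofReal, Complex.normSq_ofReal,
        Complex.normSq_conj, v_eq]
      field_simp
    have s1 := Finset.sum_le_sum b1
    have s2 := Finset.sum_le_sum b2
    rw [← Finset.mul_sum, Finset.sum_add_distrib] at s1 s2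
    unfold Rd levi
    rw [hW _ (v_mem_S hp)]
    linarith
  linarith

end Pool.Agent.L5helper88.KE
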