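import Pool.Agent.L5helper88.KE.Dom

/-! Complex Hessian of `κ (L_0 + L_1) + W(v_0, v_1)`. -/

set_option linter.unusedSectionVars false
set_option linter.unusedSimpArgs false

namespace Pool.Agent.L5helper88.KE

open MeasureTheory Set Filter Topology
open scoped ComplexOrder ComplexConjugate

/-- partial derivative -/
noncomputable def D (a : Fin 2) (W : (Fin 2 → ℝ) → ℝ) (x : Fin 2 → ℝ) : ℝ :=
  fderiv ℝ W x (Pi.single a 1)

/-- `κ (L_0 + L_1) + W(v_0, v_1)` -/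
noncomputable def Hf (κ : ℝ) (W : (Fin 2 → ℝ) → ℝ) (p : Ix → ℂ) : ℝ :=
  κ * ∑ a, L a p + W (v p)

theorem contDiffAt_D {W : (Fin 2 → ℝ) → ℝ} {x : Fin 2 → ℝ}
    (h : ContDiffAt ℝ ((⊤ : ℕ∞) : WithTop ℕ∞) W x) (a : Fin 2) :
    ContDiffAt ℝ ((⊤ : ℕ∞) : WithTop ℕ∞) (D a W) x := by
  unfold D
  have := h.fderiv_right (m := ((⊤ : ℕ∞) : WithTop ℕ∞)) (by simp)
  exact this.clm_apply contDiffAt_const

theorem D_congr {W W' : (Fin 2 → ℝ) → ℝ} {x : Fin 2 → ℝ} (h : W =ᶠ[𝓝 x] W') (a : Fin 2) :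
    D a W x = D a W' x := by
  unfold D
  rw [h.fderiv_eq]

theorem D_congr' {W W' : (Fin 2 → ℝ) → ℝ} {x : Fin 2 → ℝ} (h : W =ᶠ[𝓝 x] W') (a : Fin 2) :
    D a W =ᶠ[𝓝 x] D a W' := by
  filter_upwards [h.eventuallyEq_nhds] with y hy
  exact D_congr hy a

theorem continuousAt_v {p : Ix → ℂ} (hp : p ∈ X0) : ContinuousAt v p :=
  (contDiffOn_v'.continuousOn.continuousAt (isOpen_X0.mem_nhds hp))

theorem hasW_Hf {κ : ℝ} {W : (Fin 2 → ℝ) → ℝ} {p : Ix → ℂ} (hp : p ∈ X0)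
    (hW : DifferentiableAt ℝ W (v p)) :
    HasW (fun q => ((Hf κ W q : ℝ) : ℂ)) p
      (fun I => κ * ∑ a, ell a p I + ∑ a, (D a W (v p) : ℂ) * vz a p I)
      (fun I => κ * ∑ a, conj (ell a p I) + ∑ a, (D a W (v p) : ℂ) * conj (vz a p I)) := by
  have h1 : HasW (fun q => ∑ a : Fin 2, ((L a q : ℝ) : ℂ)) p
      (fun I => ∑ a, ell a p I) (fun I => ∑ a, conj (ell a p I)) :=
    HasW.sum (s := Finset.univ) fun a _ => hasW_L a hp
  have h2 := HasW.comp_pi (h := v) (W := W) (fun a => hasW_v a hp) hW.hasFDerivAt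
  refine ((h1.const_mul κ).add h2).congr_fun (Eventually.of_forall fun q => ?_) |>.congr ?_ ?_
  · simp [Hf]
  · intro I; rfl
  · intro I; rfl

theorem dzbar_Hf {κ : ℝ} {W : (Fin 2 → ℝ) → ℝ} {p : Ix → ℂ} (hp : p ∈ X0)
    (hW : DifferentiableAt ℝ W (v p)) (J : Ix) :
    dzbar J (fun q => ((Hf κ W q : ℝ) : ℂ)) p =
      κ * ∑ a, conj (ell a p J) + ∑ a, (D a W (v p) : ℂ) * conj (vz a p J) :=
  (hasW_Hf hp hW).dzbar J

/-- the entries of the complex Hessian -/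
noncomputable def hess (κ : ℝ) (W : (Fin 2 → ℝ) → ℝ) (p : Ix → ℂ) (I J : Ix) : ℂ :=
  κ * ∑ a, Lam a p I J + ∑ a, ((D a W (v p) : ℂ) * ((Real.exp (L a p / 5) : ℂ) *
    tht a p I * conj (tht a p J) + (v p a : ℂ) / 5 * Lam a p I J) +
    conj (vz a p J) * ∑ b, (D b (D a W) (v p) : ℂ) * vz b p I)

theorem hasA_Hf {κ : ℝ} {W : (Fin 2 → ℝ) → ℝ} {p : Ix → ℂ} (hp : p ∈ X0)
    (hW : ContDiffAt ℝ ((⊤ : ℕ∞) : WithTop ℕ∞) W (v p)) (J : Ix) :
    HasA (dzbar J (fun q => ((Hf κ W q : ℝ) : ℂ))) p (fun I => hess κ W p I J) := by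
  have hev : ∀ᶠ x in 𝓝 (v p), DifferentiableAt ℝ W x := by
    have h1 : ContDiffAt ℝ 1 W (v p) := hW.of_le (by norm_cast)
    filter_upwards [h1.eventually (by norm_num)] with x hx
    exact hx.differentiableAt (by norm_num)
  have hev2 : ∀ᶠ q in 𝓝 p, q ∈ X0 ∧ DifferentiableAt ℝ W (v q) :=
    (isOpen_X0.mem_nhds hp |> fun h => (Filter.Eventually.and h ((continuousAt_v hp).eventually hev)))
  have heq : dzbar J (fun q => ((Hf κ W q : ℝ) : ℂ)) =ᶠ[𝓝 p] fun q =>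
      κ * ∑ a, conj (ell a q J) + ∑ a, (D a W (v q) : ℂ) * conj (vz a q J) := by
    filter_upwards [hev2] with q hq
    exact dzbar_Hf hq.1 hq.2 J
  have h1 : HasA (fun q => ∑ a : Fin 2, conj (ell a q J)) p (fun I => ∑ a, Lam a p I J) :=
    HasA.sum (s := Finset.univ) fun a _ => hasA_ellbar a J hp
  have h2 : ∀ a : Fin 2, HasA (fun q => ((D a W (v q) : ℝ) : ℂ)) p
      (fun I => ∑ b, (D b (D a W) (v p) : ℂ) * vz b p I) := by
    intro a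
    have hd : DifferentiableAt ℝ (D a W) (v p) :=
      (contDiffAt_D hW a).differentiableAt (by norm_cast)
    exact (HasW.comp_pi (h := v) (W := D a W) (fun b => hasW_v b hp) hd.hasFDerivAt).hasA
  have h3 : HasA (fun q => ∑ a : Fin 2, (D a W (v q) : ℂ) * conj (vz a q J)) p _ :=
    HasA.sum (s := Finset.univ) fun a _ => (h2 a).mul (hasA_vzbar a J hp)
  refine (((h1.const_mul κ).add h3).congr_fun heq).congr fun I => ?_
  rfl

theorem dz_dzbar_Hf {κ : ℝ} {W : (Fin 2 → ℝ) → ℝ} {p : Ix → ℂ} (hp : p ∈ X0)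
    (hW : ContDiffAt ℝ ((⊤ : ℕ∞) : WithTop ℕ∞) W (v p)) (I J : Ix) :
    dz I (dzbar J (fun q => ((Hf κ W q : ℝ) : ℂ))) p = hess κ W p I J :=
  (hasA_Hf hp hW J).dz I

end Pool.Agent.L5helper88.KE
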