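import Pool.Agent.L5helper88.KE.Hess

/-! The Levi form of `κ (L_0 + L_1) + W(v_0, v_1)`. -/

set_option linter.unusedSectionVars false
set_option linter.unusedSimpArgs false

namespace Pool.Agent.L5helper88.KE

open MeasureTheory Set Filter Topology
open scoped ComplexOrder ComplexConjugate

/-- `θ_a(V)` -/
noncomputable def thV (a : Fin 2) (p V : Ix → ℂ) : ℂ := ∑ I, tht a p I * V I

/-- `e^{L_a/5}` -/
noncomputable def ex (a : Fin 2) (p : Ix → ℂ) : ℝ := Real.exp (L a p / 5)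

theorem ex_pos (a : Fin 2) (p : Ix → ℂ) : 0 < ex a p := Real.exp_pos _

theorem v_eq (a : Fin 2) (p : Ix → ℂ) : v p a = Complex.normSq (p (Sum.inr a)) * ex a p := rfl

theorem sum_Lam (a : Fin 2) (p V : Ix → ℂ) :
    ∑ I, ∑ J, Lam a p I J * V I * conj (V J) =
      ((∑ j, if blk j = a then Complex.normSq (V (Sum.inl j)) / del j p ^ 2 else 0 : ℝ) : ℂ) := by
  rw [Fintype.sum_sum_type]
  have h2 : ∑ b : Fin 2, ∑ J, Lam a p (Sum.inr b) J * V (Sum.inr b) * conj (V J) = 0 := by
    apply Finset.sum_eq_zero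
    intro b _
    apply Finset.sum_eq_zero
    intro J _
    rcases J with j | j <;> simp [Lam]
  rw [h2, add_zero, Complex.ofReal_sum]
  apply Finset.sum_congr rfl
  intro i _
  rw [Fintype.sum_sum_type]
  have h3 : ∑ b : Fin 2, Lam a p (Sum.inl i) (Sum.inr b) * V (Sum.inl i) * conj (V (Sum.inr b)) = 0 := by
    apply Finset.sum_eq_zero
    intro b _
    simp [Lam]
  rw [h3, add_zero, Finset.sum_eq_single i]
  · by_cases h : blk i = a
    · simp only [Lam, h, and_self, if_true]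
      push_cast
      rw [← Complex.mul_conj]
      ring
    · simp [Lam, h]
  · intro j _ hj
    have : i ≠ j := fun h => hj h.symm
    simp [Lam, this]
  · simp

theorem sum_vz (a : Fin 2) (p V : Ix → ℂ) :
    ∑ I, vz a p I * V I = (ex a p : ℂ) * conj (p (Sum.inr a)) * thV a p V := by
  unfold vz thV ex
  rw [Finset.mul_sum]
  exact Finset.sum_congr rfl fun I _ => by ring

theorem sum_form (f g : Ix → ℂ) (V : Ix → ℂ) :
    ∑ I, ∑ J, f I * conj (g J) * V I * conj (V J) = (∑ I, f I * V I) * conj (∑ J, g J * V J) := by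
  rw [map_sum, Finset.sum_mul_sum]
  refine Finset.sum_congr rfl fun I _ => Finset.sum_congr rfl fun J _ => ?_
  rw [map_mul]
  ring

theorem D_symm {W : (Fin 2 → ℝ) → ℝ} {x : Fin 2 → ℝ}
    (h : ContDiffAt ℝ ((⊤ : ℕ∞) : WithTop ℕ∞) W x) (a b : Fin 2) :
    D a (D b W) x = D b (D a W) x := by
  have hs := (h.of_le (m := 2) (by norm_cast)).isSymmSndFDerivAt (by simp)
  have hd : DifferentiableAt ℝ (fderiv ℝ W) x :=
    (h.fderiv_right (m := ((⊤ : ℕ∞) : WithTop ℕ∞)) (by simp)).differentiableAt (by norm_cast)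
  have e : ∀ c d : Fin 2, D c (D d W) x =
      fderiv ℝ (fderiv ℝ W) x (Pi.single c 1) (Pi.single d 1) := by
    intro c d
    unfold D
    rw [fderiv_clm_apply hd (differentiableAt_const _)]
    simp
  rw [e, e]
  exact hs _ _

/-- `D_a W + x_a D_a D_a W` -/
noncomputable def B (a : Fin 2) (W : (Fin 2 → ℝ) → ℝ) (x : Fin 2 → ℝ) : ℝ :=
  D a W x + x a * D a (D a W) x

/-- coefficient of `|V_j|² / δ_j²` times `5` -/
noncomputable def Kc (κ : ℝ) (a : Fin 2) (W : (Fin 2 → ℝ) → ℝ) (x : Fin 2 → ℝ) : ℝ :=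
  κ + x a * D a W x / 5

/-- the Levi form -/
noncomputable def levi (κ : ℝ) (W : (Fin 2 → ℝ) → ℝ) (p V : Ix → ℂ) : ℝ :=
  ∑ j, Kc κ (blk j) W (v p) / del j p ^ 2 * Complex.normSq (V (Sum.inl j)) +
    ∑ a, B a W (v p) * ex a p * Complex.normSq (thV a p V) +
    2 * D 0 (D 1 W) (v p) * (ex 0 p * ex 1 p) *
      (conj (p (Sum.inr 0)) * thV 0 p V * conj (conj (p (Sum.inr 1)) * thV 1 p V)).re

theorem sum_hess {κ : ℝ} {W : (Fin 2 → ℝ) → ℝ} {p : Ix → ℂ}
    (hW : ContDiffAt ℝ ((⊤ : ℕ∞) : WithTop ℕ∞) W (v p)) (V : Ix → ℂ) :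
    ∑ I, ∑ J, hess κ W p I J * V I * conj (V J) = (levi κ W p V : ℂ) := by
  have e1 : ∑ I, ∑ J, hess κ W p I J * V I * conj (V J) =
      ∑ a, ((κ + v p a * D a W (v p) / 5 : ℝ) : ℂ) * (∑ I, ∑ J, Lam a p I J * V I * conj (V J)) +
      ∑ a, (D a W (v p) * ex a p : ℂ) *
        (∑ I, ∑ J, tht a p I * conj (tht a p J) * V I * conj (V J)) +
      ∑ a, ∑ b, (D b (D a W) (v p) : ℂ) *
        (∑ I, ∑ J, vz b p I * conj (vz a p J) * V I * conj (V J)) := by
    simp only [Fin.sum_univ_two]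
    simp only [Finset.mul_sum, ← Finset.sum_add_distrib]
    refine Finset.sum_congr rfl fun I _ => Finset.sum_congr rfl fun J _ => ?_
    simp only [hess, ex]
    simp only [Fin.sum_univ_two]
    push_cast
    ring
  rw [e1]
  simp only [sum_Lam, sum_form, sum_vz]
  rw [show (∑ a, ∑ b, (D b (D a W) (v p) : ℂ) * (((ex b p : ℂ) * conj (p (Sum.inr b)) * thV b p V) *
      conj ((ex a p : ℂ) * conj (p (Sum.inr a)) * thV a p V))) =
      ((∑ a, v p a * D a (D a W) (v p) * ex a p * Complex.normSq (thV a p V) +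
        2 * D 0 (D 1 W) (v p) * (ex 0 p * ex 1 p) *
      (conj (p (Sum.inr 0)) * thV 0 p V * conj (conj (p (Sum.inr 1)) * thV 1 p V)).re : ℝ) : ℂ) from ?_]
  · have e2 : ∀ a, (∑ I, tht a p I * V I) = thV a p V := fun a => rfl
    simp only [e2, Complex.mul_conj]
    unfold levi
    simp only [Fin.sum_univ_two, B]
    have e3 : ∑ j, Kc κ (blk j) W (v p) / del j p ^ 2 * Complex.normSq (V (Sum.inl j)) =
        (κ + v p 0 * D 0 W (v p) / 5) *
          (∑ j, if blk j = 0 then Complex.normSq (V (Sum.inl j)) / del j p ^ 2 else 0) +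
        (κ + v p 1 * D 1 W (v p) / 5) *
          (∑ j, if blk j = 1 then Complex.normSq (V (Sum.inl j)) / del j p ^ 2 else 0) := by
      rw [Finset.mul_sum, Finset.mul_sum, ← Finset.sum_add_distrib]
      refine Finset.sum_congr rfl fun j _ => ?_
      unfold Kc
      have hb : blk j = 0 ∨ blk j = 1 := by
        unfold blk
        split_ifs <;> simp
      rcases hb with h | h <;> simp [h] <;> ring
    rw [e3]
    push_cast
    ring
  · simp only [Fin.sum_univ_two]
    rw [D_symm hW 1 0]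
    simp only [v_eq]
    have h0 : ∀ z : ℂ, z + conj z = ((2 * z.re : ℝ) : ℂ) := fun z => Complex.add_conj z
    set z := conj (p (Sum.inr 0)) * thV 0 p V * conj (conj (p (Sum.inr 1)) * thV 1 p V) with hz
    have h1 := h0 z
    have h2 : conj z = conj (p (Sum.inr 1)) * thV 1 p V * conj (conj (p (Sum.inr 0)) * thV 0 p V) := by
      rw [hz]
      simp only [map_mul, Complex.conj_conj]
      ring
    have h3 : ((2 * D 0 (D 1 W) (v p) * (ex 0 p * ex 1 p) * z.re : ℝ) : ℂ) =
        D 0 (D 1 W) (v p) * (ex 0 p * ex 1 p) * (z + conj z) := by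
      rw [h1]
      push_cast
      ring
    rw [Complex.ofReal_add, h3, h2, hz]
    push_cast
    simp only [map_mul, Complex.conj_conj, Complex.conj_ofReal, ← Complex.mul_conj]
    ring

end Pool.Agent.L5helper88.KE
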