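import Pool.Agent.L5helper88.KE.Field
import Pool.Agent.L5helper88.KE.Compl2

/-! The lower bound for the spectrum of the perturbed metrics. -/

set_option linter.unusedSectionVars false
set_option linter.unusedSimpArgs false

namespace Pool.Agent.L5helper88.KE

open MeasureTheory Set Filter Topology Matrix
open scoped ComplexOrder ComplexConjugate

/-- radial part of the vector field over `1 - v` -/
noncomputable def ut (μ : Fin 2 → (Fin 2 → ℝ) → ℝ) (ε : ℝ) (a : Fin 2) (x : Fin 2 → ℝ) : ℝ :=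
  -(15 / 22) + ε * μ a x

/-- the first order term of the lower bound, exact -/
noncomputable def Mf (P : (Fin 2 → ℝ) → ℝ) (μ : Fin 2 → (Fin 2 → ℝ) → ℝ) (ε : ℝ)
    (x : Fin 2 → ℝ) : ℝ :=
  ∑ a, (-(45 / 44) * (1 - x a) * kf P a x / kh P ε a x - (1 + 9 * x a) * μ a x -
    x a * (1 - x a) * D a (μ a) x -
    x a * (1 - x a) * ut μ ε a x * (9 * (D a (kf P 0) x / kh P ε 0 x + D a (kf P 1) x / kh P ε 1 x) +
      (D a (q0 P) x + ε * D a (q1 P) x) / dh P ε x) -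
    11 * x a * (bf P a x * ut μ ε a x ^ 2 - 15 / 11 * μ a x + ε * μ a x ^ 2)) -
  2 * (x 0 * x 1 * (1 - x 0) * (1 - x 1)) * D 0 (D 1 P) x * (ut μ ε 0 x * ut μ ε 1 x)

theorem D_Wd {P : (Fin 2 → ℝ) → ℝ} (hP : ContDiff ℝ ((⊤ : ℕ∞) : WithTop ℕ∞) P) {ε : ℝ}
    {x : Fin 2 → ℝ} (hx : x ∈ S) (hx' : x ∈ Rg P ε) (a : Fin 2) :
    D a (Wd (Wf P ε)) x = 11 / (1 - x a) + ε * (9 * (D a (kf P 0) x / kh P ε 0 x +
      D a (kf P 1) x / kh P ε 1 x) + (D a (q0 P) x + ε * D a (q1 P) x) / dh P ε x) := by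
  have he : (fun y => Wf P ε y - Wd (Wf P ε) y) =ᶠ[𝓝 x] fun y =>
      Ef P ε y - (18 * Real.log (11 / 5) + Real.log 121) := by
    filter_upwards [isOpen_S.mem_nhds hx, (isOpen_Rg hP ε).mem_nhds hx'] with y hy hy'
    exact W_sub_Wd hP hy hy'
  have h1 := D_congr he a
  rw [D_sub ((contDiffAt_Wf hP ε hx).differentiableAt (by norm_cast))
    ((contDiffAt_Wd hP hx hx').differentiableAt (by norm_cast)),
    D_sub ((contDiffAt_Ef hP hx').differentiableAt (by norm_cast)) (differentiableAt_const _),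
    D_const, sub_zero, D_Wf hP ε hx, D_Ef hP hx'] at h1
  unfold E1 at h1
  simp only [Fin.sum_univ_two] at h1
  linarith

theorem D_one_sub (a : Fin 2) (x : Fin 2 → ℝ) : D a (fun y => 1 - y a) x = -1 := by
  rw [D_sub (differentiableAt_const _) ((contDiff_coord a).differentiable (by norm_cast) x),
    D_const, D_coord]
  simp

theorem D_u {μ : Fin 2 → (Fin 2 → ℝ) → ℝ} (hμ : ∀ a, ContDiff ℝ ((⊤ : ℕ∞) : WithTop ℕ∞) (μ a))
    (ε : ℝ) (a : Fin 2) (x : Fin 2 → ℝ) :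
    D a (fun y => (1 - y a) * ut μ ε a y) x = (1 - x a) * (ε * D a (μ a) x) - ut μ ε a x := by
  have h1 : DifferentiableAt ℝ (fun y : Fin 2 → ℝ => 1 - y a) x :=
    (contDiff_const.sub (contDiff_coord a)).differentiable (by norm_cast) x
  have h2 : DifferentiableAt ℝ (μ a) x := (hμ a).differentiable (by norm_cast) x
  have h3 : DifferentiableAt ℝ (fun y => -(15 / 22) + ε * μ a y) x :=
    (differentiableAt_const _).add (h2.const_mul ε)
  have e : D a (ut μ ε a) x = ε * D a (μ a) x := by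
    have : D a (fun y => -(15 / 22) + ε * μ a y) x = ε * D a (μ a) x := by
      rw [D_add (differentiableAt_const _) (h2.const_mul ε), D_const, D_const_mul h2, zero_add]
    exact this
  have h4 := D_mul h1 (g := ut μ ε a) h3 a
  rw [h4, e, D_one_sub]
  ring

theorem Low_eq {P : (Fin 2 → ℝ) → ℝ} (hP : ContDiff ℝ ((⊤ : ℕ∞) : WithTop ℕ∞) P)
    {μ : Fin 2 → (Fin 2 → ℝ) → ℝ} (hμ : ∀ a, ContDiff ℝ ((⊤ : ℕ∞) : WithTop ℕ∞) (μ a)) {ε : ℝ}
    {x : Fin 2 → ℝ} (hx : x ∈ S) (hx' : x ∈ Rg P ε) :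
    Low (Wf P ε) (fun a y => (1 - y a) * ut μ ε a y) x = 75 / 22 + ε * Mf P μ ε x := by
  have r : ∀ a, 1 - x a ≠ 0 := fun a => by have := hx a; linarith
  have k0 := kh_pos hP hx' 0
  have k1 := kh_pos hP hx' 1
  have hK : ∀ a, 9 / 4 * (1 / Kc (11 / 5) a (Wf P ε) x) = 45 / 44 * (1 - x a) -
      ε * (45 / 44 * (1 - x a) * kf P a x / kh P ε a x) := by
    intro a
    rw [Kc_Wf hP ε hx]
    have h1 := r a
    have h2 := (kh_pos hP hx' a).ne'
    have h3 : 1 + ε * kf P a x ≠ 0 := h2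
    unfold kh
    field_simp
    ring
  have hB : ∀ a, B a (Wf P ε) x * x a * ((1 - x a) * ut μ ε a x) ^ 2 =
      11 * x a * (1 + ε * bf P a x) * ut μ ε a x ^ 2 := by
    intro a
    rw [B_Wf hP ε hx]
    have h1 := r a
    field_simp
  have hO : ∀ a, x a * ((1 - x a) * ut μ ε a x) * D a (Wd (Wf P ε)) x =
      11 * x a * ut μ ε a x + ε * (x a * (1 - x a) * ut μ ε a x * (9 * (D a (kf P 0) x / kh P ε 0 x +
      D a (kf P 1) x / kh P ε 1 x) + (D a (q0 P) x + ε * D a (q1 P) x) / dh P ε x)) := by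
    intro a
    rw [D_Wd hP hx hx']
    have h1 := r a
    have h2 : 11 / (1 - x a) * (1 - x a) = 11 := by field_simp
    linear_combination x a * ut μ ε a x * h2
  unfold Low
  simp only [hK, hB, hO, D_u hμ]
  rw [DD_Wf hP ε hx, if_neg (by decide), zero_add]
  unfold Mf
  simp only [Fin.sum_univ_two]
  set R0 := (9 * (D 0 (kf P 0) x / kh P ε 0 x + D 0 (kf P 1) x / kh P ε 1 x) +
      (D 0 (q0 P) x + ε * D 0 (q1 P) x) / dh P ε x) with hR0
  set R1 := (9 * (D 1 (kf P 0) x / kh P ε 0 x + D 1 (kf P 1) x / kh P ε 1 x) +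
      (D 1 (q0 P) x + ε * D 1 (q1 P) x) / dh P ε x) with hR1
  unfold ut
  ring

theorem bottom_Wf_ge {P : (Fin 2 → ℝ) → ℝ} (hP : ContDiff ℝ ((⊤ : ℕ∞) : WithTop ℕ∞) P)
    {μ : Fin 2 → (Fin 2 → ℝ) → ℝ} (hμ : ∀ a, ContDiff ℝ ((⊤ : ℕ∞) : WithTop ℕ∞) (μ a)) {ε : ℝ}
    (hε : 0 ≤ ε) (h : ∀ x ∈ Icc (0 : Fin 2 → ℝ) 1, Cond P ε x) {d : ℝ}
    (hM : ∀ x ∈ Icc (0 : Fin 2 → ℝ) 1, d ≤ Mf P μ ε x) :
    2 * (75 / 22 + ε * d) ≤ bottom X (met (Wf P ε)) := by
  have hG := good_Wf hP h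
  have hR : ∀ p ∈ X, v p ∈ Rg P ε := fun p hp => (h _ (v_mem_Icc hp)).mem_Rg
  apply bottom_met_ge hG (fun p hp => contDiffAt_Wd hP (v_mem_S hp) (hR p hp))
    (u := fun a y => (1 - y a) * ut μ ε a y)
  · intro a
    have h1 : ContDiff ℝ ((⊤ : ℕ∞) : WithTop ℕ∞) (fun y => -(15 / 22) + ε * μ a y) :=
      contDiff_const.add (contDiff_const.mul (hμ a))
    exact (contDiff_const.sub (contDiff_coord a)).mul h1
  · intro p hp
    rw [Low_eq hP hμ (v_mem_S hp) (hR p hp)]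
    have := mul_le_mul_of_nonneg_left (hM _ (v_mem_Icc hp)) hε
    linarith

end Pool.Agent.L5helper88.KE
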