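import Pool.Agent.L5helper88.KE.Levi

/-! The metric with potential `11/5 (L_0 + L_1) + W(v_0, v_1)`. -/

set_option linter.unusedSectionVars false
set_option linter.unusedSimpArgs false

namespace Pool.Agent.L5helper88.KE

open MeasureTheory Set Filter Topology
open scoped ComplexOrder ComplexConjugate

section general

variable {ι : Type} [Fintype ι] [DecidableEq ι]

theorem contDiffOn_dz {f : (ι → ℂ) → ℂ} {Y : Set (ι → ℂ)} (hY : IsOpen Y)
    (hf : ContDiffOn ℝ ((⊤ : ℕ∞) : WithTop ℕ∞) f Y) (i : ι) :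
    ContDiffOn ℝ ((⊤ : ℕ∞) : WithTop ℕ∞) (dz i f) Y := by
  have h1 := hf.fderiv_of_isOpen (m := ((⊤ : ℕ∞) : WithTop ℕ∞)) hY (by simp)
  unfold dz
  exact ((h1.clm_apply contDiffOn_const).sub
    (contDiffOn_const.mul (h1.clm_apply contDiffOn_const))).div_const 2

theorem contDiffOn_dzbar {f : (ι → ℂ) → ℂ} {Y : Set (ι → ℂ)} (hY : IsOpen Y)
    (hf : ContDiffOn ℝ ((⊤ : ℕ∞) : WithTop ℕ∞) f Y) (i : ι) :
    ContDiffOn ℝ ((⊤ : ℕ∞) : WithTop ℕ∞) (dzbar i f) Y := by
  have h1 := hf.fderiv_of_isOpen (m := ((⊤ : ℕ∞) : WithTop ℕ∞)) hY (by simp)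
  unfold dzbar
  exact ((h1.clm_apply contDiffOn_const).add
    (contDiffOn_const.mul (h1.clm_apply contDiffOn_const))).div_const 2

theorem dz_comm {f : (ι → ℂ) → ℂ} {p : ι → ℂ}
    (hf : ContDiffAt ℝ ((⊤ : ℕ∞) : WithTop ℕ∞) f p) (i k : ι) :
    dz i (dz k f) p = dz k (dz i f) p := by
  have hs := (hf.of_le (m := 2) (by norm_cast)).isSymmSndFDerivAt (by simp)
  have hd : DifferentiableAt ℝ (fderiv ℝ f) p :=
    (hf.fderiv_right (m := ((⊤ : ℕ∞) : WithTop ℕ∞)) (by simp)).differentiableAt (by norm_cast)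
  have e : ∀ u w : ι → ℂ, fderiv ℝ (fun q => fderiv ℝ f q u) p w =
      fderiv ℝ (fderiv ℝ f) p w u := by
    intro u w
    rw [fderiv_clm_apply hd (differentiableAt_const _)]
    simp
  have d1 : ∀ u : ι → ℂ, DifferentiableAt ℝ (fun q => fderiv ℝ f q u) p := fun u =>
    hd.clm_apply (differentiableAt_const _)
  have e2 : ∀ (k : ι) (w : ι → ℂ), fderiv ℝ (dz k f) p w =
      (fderiv ℝ (fderiv ℝ f) p w (Pi.single k 1) -
        Complex.I * fderiv ℝ (fderiv ℝ f) p w (Pi.single k Complex.I)) / 2 := by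
    intro k w
    have h1 : dz k f = fun q => (1 / 2 : ℂ) * (fderiv ℝ f q (Pi.single k 1) -
        Complex.I * fderiv ℝ f q (Pi.single k Complex.I)) := by
      ext q
      unfold dz
      ring
    have h2 := ((d1 (Pi.single k 1)).hasFDerivAt.sub
      ((d1 (Pi.single k Complex.I)).hasFDerivAt.const_mul Complex.I)).const_mul (1 / 2 : ℂ)
    rw [h1]
    have h3 := congrArg (fun L => L w) h2.fderiv
    simp only [_root_.smul_apply, _root_.sub_apply, smul_eq_mul, e] at h3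
    refine Eq.trans h3 ?_
    ring
  unfold dz at e2 ⊢
  simp only [e2]
  rw [hs (Pi.single i 1) (Pi.single k 1), hs (Pi.single i 1) (Pi.single k Complex.I),
    hs (Pi.single i Complex.I) (Pi.single k 1), hs (Pi.single i Complex.I) (Pi.single k Complex.I)]
  ring

end general

/-- the conditions on `W` -/
structure Good (W : (Fin 2 → ℝ) → ℝ) : Prop where
  smooth : ∀ p ∈ X, ContDiffAt ℝ ((⊤ : ℕ∞) : WithTop ℕ∞) W (v p)
  posK : ∀ p ∈ X, ∀ a, 0 < Kc (11 / 5) a W (v p)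
  posB : ∀ p ∈ X, ∀ a, 0 < B a W (v p)
  posDet : ∀ p ∈ X, v p 0 * v p 1 * (D 0 (D 1 W) (v p)) ^ 2 < B 0 W (v p) * B 1 W (v p)

/-- the metric -/
noncomputable def met (W : (Fin 2 → ℝ) → ℝ) (p : Ix → ℂ) : Matrix Ix Ix ℂ :=
  Matrix.of fun I J => dz I (dzbar J (fun q => ((Hf (11 / 5) W q : ℝ) : ℂ))) p

theorem met_eq {W : (Fin 2 → ℝ) → ℝ} {p : Ix → ℂ} (hp : p ∈ X)
    (hW : ContDiffAt ℝ ((⊤ : ℕ∞) : WithTop ℕ∞) W (v p)) (I J : Ix) :
    met W p I J = hess (11 / 5) W p I J := by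
  unfold met
  rw [Matrix.of_apply]
  have := dz_dzbar_Hf (κ := 11 / 5) (X_subset_X0 hp) hW I J
  exact this

theorem contDiffOn_Hf {κ : ℝ} {W : (Fin 2 → ℝ) → ℝ}
    (hW : ∀ p ∈ X, ContDiffAt ℝ ((⊤ : ℕ∞) : WithTop ℕ∞) W (v p)) :
    ContDiffOn ℝ ((⊤ : ℕ∞) : WithTop ℕ∞) (fun q => ((Hf κ W q : ℝ) : ℂ)) X := by
  apply Complex.ofRealCLM.contDiff.comp_contDiffOn
  show ContDiffOn ℝ _ (fun q => κ * ∑ a, L a q + W (v q)) X
  apply ContDiffOn.add
  · exact contDiffOn_const.mul (ContDiffOn.sum fun a _ => (contDiffOn_L a).mono X_subset_X0)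
  · intro p hp
    have h1 := (contDiffOn_v' p (X_subset_X0 hp)).contDiffAt (isOpen_X0.mem_nhds (X_subset_X0 hp))
    exact ((hW p hp).comp p h1).contDiffWithinAt

theorem tht_single {p V : Ix → ℂ} (hV : ∀ j, V (Sum.inl j) = 0) (a : Fin 2) :
    thV a p V = V (Sum.inr a) := by
  unfold thV
  rw [Fintype.sum_sum_type]
  have h1 : ∑ j : Fin 18, tht a p (Sum.inl j) * V (Sum.inl j) = 0 :=
    Finset.sum_eq_zero fun j _ => by rw [hV j, mul_zero]
  rw [h1, zero_add, Finset.sum_eq_single a]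
  · simp [tht, ell]
  · intro b _ hb
    have : ¬ (Sum.inr b : Ix) = Sum.inr a := fun h => hb (Sum.inr_injective h)
    simp [tht, ell, this]
  · simp

theorem quad_nonneg {b0 b1 n w A C R : ℝ} (hb0 : 0 ≤ b0) (hb1 : 0 ≤ b1) (hA : 0 ≤ A) (hC : 0 ≤ C)
    (hR : R ^ 2 ≤ w * (A * C)) (hv : w * n ^ 2 ≤ b0 * b1) : 0 ≤ b0 * A + b1 * C + 2 * n * R := by
  have h1 : (2 * n * R) ^ 2 ≤ (b0 * A + b1 * C) ^ 2 := by
    have h2 : (2 * n * R) ^ 2 = 4 * (n ^ 2 * R ^ 2) := by ring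
    have h3 : n ^ 2 * R ^ 2 ≤ n ^ 2 * (w * (A * C)) := by gcongr
    have h4 : w * n ^ 2 * (A * C) ≤ b0 * b1 * (A * C) := by gcongr
    nlinarith [sq_nonneg (b0 * A - b1 * C)]
  have h5 := abs_le_of_sq_le_sq h1 (by positivity)
  have := neg_abs_le (2 * n * R)
  linarith

theorem quad_pos {b0 b1 n w A C R : ℝ} (hb0 : 0 < b0) (hb1 : 0 < b1) (hA : 0 ≤ A) (hC : 0 ≤ C)
    (hR : R ^ 2 ≤ w * (A * C)) (hv : w * n ^ 2 < b0 * b1) (hAC : 0 < A + C) :
    0 < b0 * A + b1 * C + 2 * n * R := by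
  rcases eq_or_lt_of_le (mul_nonneg hA hC) with h | h
  · rw [← h, mul_zero] at hR
    have hR0 : R = 0 := by
      have : R ^ 2 = 0 := le_antisymm hR (sq_nonneg R)
      exact pow_eq_zero_iff (two_ne_zero) |>.mp this
    rw [hR0]
    rcases eq_or_lt_of_le hA with h' | h'
    · have : 0 < C := by linarith
      have : 0 < b1 * C := by positivity
      rw [← h']; linarith
    · have : 0 < b0 * A := by positivity
      have : 0 ≤ b1 * C := by positivity
      linarith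
  · have h1 : (2 * n * R) ^ 2 < (b0 * A + b1 * C) ^ 2 := by
      have h2 : (2 * n * R) ^ 2 = 4 * (n ^ 2 * R ^ 2) := by ring
      have h3 : n ^ 2 * R ^ 2 ≤ n ^ 2 * (w * (A * C)) := by gcongr
      have h4 : w * n ^ 2 * (A * C) < b0 * b1 * (A * C) := by gcongr
      nlinarith [sq_nonneg (b0 * A - b1 * C)]
    have h5 := abs_lt_of_sq_lt_sq h1 (by positivity)
    have := neg_abs_le (2 * n * R)
    linarith

theorem R_sq (p V : Ix → ℂ) : ((ex 0 p * ex 1 p) *
      (conj (p (Sum.inr 0)) * thV 0 p V * conj (conj (p (Sum.inr 1)) * thV 1 p V)).re) ^ 2 ≤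
      (v p 0 * v p 1) * ((ex 0 p * Complex.normSq (thV 0 p V)) *
        (ex 1 p * Complex.normSq (thV 1 p V))) := by
  set z := conj (p (Sum.inr 0)) * thV 0 p V * conj (conj (p (Sum.inr 1)) * thV 1 p V) with hz
  have h1 : z.re ^ 2 ≤ Complex.normSq z := by
    rw [Complex.normSq_apply]
    nlinarith [mul_self_nonneg z.im]
  have h2 : Complex.normSq z = Complex.normSq (p (Sum.inr 0)) * Complex.normSq (thV 0 p V) *
      (Complex.normSq (p (Sum.inr 1)) * Complex.normSq (thV 1 p V)) := by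
    rw [hz]
    simp only [map_mul, Complex.normSq_conj]
  have h0 := ex_pos 0 p
  have h0' := ex_pos 1 p
  calc ((ex 0 p * ex 1 p) * z.re) ^ 2 = (ex 0 p * ex 1 p) ^ 2 * z.re ^ 2 := by ring
    _ ≤ (ex 0 p * ex 1 p) ^ 2 * Complex.normSq z := by gcongr
    _ = _ := by rw [h2, v_eq, v_eq]; ring

/-- vertical part of the Levi form -/
noncomputable def vert (b0 b1 n : ℝ) (p V : Ix → ℂ) : ℝ :=
  b0 * (ex 0 p * Complex.normSq (thV 0 p V)) + b1 * (ex 1 p * Complex.normSq (thV 1 p V)) +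
    2 * n * ((ex 0 p * ex 1 p) *
      (conj (p (Sum.inr 0)) * thV 0 p V * conj (conj (p (Sum.inr 1)) * thV 1 p V)).re)

theorem levi_eq (κ : ℝ) (W : (Fin 2 → ℝ) → ℝ) (p V : Ix → ℂ) :
    levi κ W p V = ∑ j, Kc κ (blk j) W (v p) / del j p ^ 2 * Complex.normSq (V (Sum.inl j)) +
      vert (B 0 W (v p)) (B 1 W (v p)) (D 0 (D 1 W) (v p)) p V := by
  unfold levi vert
  simp only [Fin.sum_univ_two]
  ring

theorem vert_nonneg {b0 b1 n : ℝ} {p : Ix → ℂ} (hb0 : 0 ≤ b0) (hb1 : 0 ≤ b1)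
    (h : v p 0 * v p 1 * n ^ 2 ≤ b0 * b1) (V : Ix → ℂ) : 0 ≤ vert b0 b1 n p V :=
  quad_nonneg hb0 hb1 (mul_nonneg (ex_pos _ _).le (Complex.normSq_nonneg _))
    (mul_nonneg (ex_pos _ _).le (Complex.normSq_nonneg _)) (R_sq p V) h

theorem levi_pos {κ : ℝ} {W : (Fin 2 → ℝ) → ℝ} {p : Ix → ℂ} (hp : p ∈ X)
    (hK : ∀ a, 0 < Kc κ a W (v p)) (hB : ∀ a, 0 < B a W (v p))
    (hdet : v p 0 * v p 1 * (D 0 (D 1 W) (v p)) ^ 2 < B 0 W (v p) * B 1 W (v p))
    {V : Ix → ℂ} (hV : V ≠ 0) : 0 < levi κ W p V := by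
  rw [levi_eq]
  have h1 : ∀ j ∈ (Finset.univ : Finset (Fin 18)),
      0 ≤ Kc κ (blk j) W (v p) / del j p ^ 2 * Complex.normSq (V (Sum.inl j)) := fun j _ =>
    mul_nonneg (div_nonneg (hK _).le (sq_nonneg _)) (Complex.normSq_nonneg _)
  have h2 := vert_nonneg (hB 0).le (hB 1).le hdet.le V
  by_cases hV' : ∀ j, V (Sum.inl j) = 0
  · have h3 : 0 < vert (B 0 W (v p)) (B 1 W (v p)) (D 0 (D 1 W) (v p)) p V := by
      apply quad_pos (hB 0) (hB 1) (mul_nonneg (ex_pos _ _).le (Complex.normSq_nonneg _))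
        (mul_nonneg (ex_pos _ _).le (Complex.normSq_nonneg _)) (R_sq p V) hdet
      rw [tht_single hV', tht_single hV']
      have hex : V (Sum.inr 0) ≠ 0 ∨ V (Sum.inr 1) ≠ 0 := by
        by_contra hcon
        push Not at hcon
        apply hV
        ext I
        rcases I with j | a
        · exact hV' j
        · fin_cases a
          · exact hcon.1
          · exact hcon.2
      have h0 := mul_nonneg (ex_pos 0 p).le (Complex.normSq_nonneg (V (Sum.inr 0)))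
      have h0' := mul_nonneg (ex_pos 1 p).le (Complex.normSq_nonneg (V (Sum.inr 1)))
      rcases hex with h | h
      · have := mul_pos (ex_pos 0 p) (Complex.normSq_pos.mpr h)
        linarith
      · have := mul_pos (ex_pos 1 p) (Complex.normSq_pos.mpr h)
        linarith
    have := Finset.sum_nonneg h1
    linarith
  · push Not at hV'
    obtain ⟨j, hj⟩ := hV'
    have h4 : 0 < ∑ j, Kc κ (blk j) W (v p) / del j p ^ 2 * Complex.normSq (V (Sum.inl j)) :=
      Finset.sum_pos' h1 ⟨j, Finset.mem_univ j, mul_pos (div_pos (hK _)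
        (pow_pos (del_pos hp j) 2)) (Complex.normSq_pos.mpr hj)⟩
    linarith

theorem hess_conj {κ : ℝ} {W : (Fin 2 → ℝ) → ℝ} {p : Ix → ℂ}
    (hW : ContDiffAt ℝ ((⊤ : ℕ∞) : WithTop ℕ∞) W (v p)) (I J : Ix) :
    conj (hess κ W p J I) = hess κ W p I J := by
  have hL : ∀ a, conj (Lam a p J I) = Lam a p I J := by
    intro a
    rcases I with i | i <;> rcases J with j | j <;> simp [Lam]
    by_cases h : i = j
    · subst h
      by_cases h' : blk i = a <;> simp [h']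
    · have h' : ¬ j = i := fun hh => h hh.symm
      simp [h, h']
  unfold hess
  simp only [Fin.sum_univ_two, map_add, map_mul, Complex.conj_ofReal, Complex.conj_conj, hL,
    map_div₀, conj5]
  rw [D_symm hW 1 0]
  ring

theorem dot_eq (M : Matrix Ix Ix ℂ) (x : Ix → ℂ) :
    star x ⬝ᵥ (M.mulVec x) = ∑ I, ∑ J, M I J * (star x) I * conj ((star x) J) := by
  simp only [dotProduct, Matrix.mulVec, Finset.mul_sum]
  refine Finset.sum_congr rfl fun I _ => Finset.sum_congr rfl fun J _ => ?_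
  simp only [Pi.star_apply]
  have : conj (star (x J)) = x J := Complex.conj_conj _
  rw [this]
  ring

theorem posDef_met {W : (Fin 2 → ℝ) → ℝ} (hG : Good W) {p : Ix → ℂ} (hp : p ∈ X) :
    (met W p).PosDef := by
  have hW := hG.smooth p hp
  apply Matrix.PosDef.of_dotProduct_mulVec_pos
  · ext I J
    rw [Matrix.conjTranspose_apply, met_eq hp hW, met_eq hp hW]
    exact hess_conj hW I J
  · intro x hx
    rw [dot_eq]
    simp only [met_eq hp hW]
    rw [sum_hess hW]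
    have := levi_pos (κ := 11 / 5) hp (hG.posK p hp) (hG.posB p hp) (hG.posDet p hp)
      (V := star x) (by simpa using hx)
    exact_mod_cast this

theorem isKahler_met {W : (Fin 2 → ℝ) → ℝ} (hG : Good W) : IsKahler X (met W) where
  smooth i j := by
    have h1 := contDiffOn_dzbar isOpen_X (contDiffOn_Hf (κ := 11 / 5) hG.smooth) j
    exact contDiffOn_dz isOpen_X h1 i
  posDef p hp := posDef_met hG hp
  closed p hp i j k := by
    have h1 := contDiffOn_dzbar isOpen_X (contDiffOn_Hf (κ := 11 / 5) hG.smooth) j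
    exact dz_comm ((h1 p hp).contDiffAt (isOpen_X.mem_nhds hp)) k i

end Pool.Agent.L5helper88.KE
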