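import Pool.Agent.L5helper88.KE.Lower

/-! The polynomial perturbation. -/

set_option linter.unusedSectionVars false
set_option linter.unusedSimpArgs false

namespace Pool.Agent.L5helper88.KE

open MeasureTheory Set Filter Topology Matrix
open scoped ComplexOrder ComplexConjugate

section linear

variable {α : Type} {s : Finset α} {c : α → ℝ} {f : α → (Fin 2 → ℝ) → ℝ}

/-- linear combination -/
noncomputable def Lc (s : Finset α) (c : α → ℝ) (f : α → (Fin 2 → ℝ) → ℝ) (x : Fin 2 → ℝ) : ℝ :=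
  ∑ k ∈ s, c k * f k x

theorem contDiff_Lc (hf : ∀ k, ContDiff ℝ ((⊤ : ℕ∞) : WithTop ℕ∞) (f k)) :
    ContDiff ℝ ((⊤ : ℕ∞) : WithTop ℕ∞) (Lc s c f) := by
  unfold Lc
  exact ContDiff.sum fun k _ => contDiff_const.mul (hf k)

theorem D_Lc (hf : ∀ k, ContDiff ℝ ((⊤ : ℕ∞) : WithTop ℕ∞) (f k)) (a : Fin 2) :
    D a (Lc s c f) = Lc s c (fun k => D a (f k)) := by
  ext x
  have h1 : ∀ k ∈ s, HasFDerivAt (fun y => c k * f k y) (c k • fderiv ℝ (f k) x) x := by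
    intro k _
    exact ((hf k).differentiable (by norm_cast) x).hasFDerivAt.const_mul (c k)
  have h2 := HasFDerivAt.fun_sum h1
  rw [D_of_hasFDerivAt (W := Lc s c f) h2 a]
  simp [Lc, D]

theorem kf_Lc (hf : ∀ k, ContDiff ℝ ((⊤ : ℕ∞) : WithTop ℕ∞) (f k)) (a : Fin 2) :
    kf (Lc s c f) a = Lc s c (fun k => kf (f k) a) := by
  ext x
  unfold kf
  rw [D_Lc hf]
  unfold Lc
  rw [Finset.mul_sum, Finset.sum_div]
  exact Finset.sum_congr rfl fun k _ => by ring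

theorem bf_Lc (hf : ∀ k, ContDiff ℝ ((⊤ : ℕ∞) : WithTop ℕ∞) (f k)) (a : Fin 2) :
    bf (Lc s c f) a = Lc s c (fun k => bf (f k) a) := by
  ext x
  unfold bf
  rw [D_Lc hf, D_Lc fun k => contDiff_D (hf k) a]
  unfold Lc
  rw [Finset.mul_sum, ← Finset.sum_add_distrib, Finset.mul_sum, Finset.sum_div]
  exact Finset.sum_congr rfl fun k _ => by ring

theorem q0_Lc (hf : ∀ k, ContDiff ℝ ((⊤ : ℕ∞) : WithTop ℕ∞) (f k)) :
    q0 (Lc s c f) = Lc s c (fun k => q0 (f k)) := by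
  ext x
  unfold q0
  rw [bf_Lc hf, bf_Lc hf]
  unfold Lc
  rw [← Finset.sum_add_distrib]
  exact Finset.sum_congr rfl fun k _ => by ring

theorem psi_Lc (hf : ∀ k, ContDiff ℝ ((⊤ : ℕ∞) : WithTop ℕ∞) (f k)) :
    psi (Lc s c f) = Lc s c (fun k => psi (f k)) := by
  ext x
  unfold psi
  simp only [kf_Lc hf, q0_Lc hf, Fin.sum_univ_two]
  unfold Lc
  rw [← Finset.sum_add_distrib, Finset.mul_sum, ← Finset.sum_sub_distrib,
    ← Finset.sum_sub_distrib]
  exact Finset.sum_congr rfl fun k _ => by ring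

end linear

/-- first order term of the barrier, part depending on `P` -/
noncomputable def t1 (P : (Fin 2 → ℝ) → ℝ) (x : Fin 2 → ℝ) : ℝ :=
  ∑ a, (-(45 / 44) * (1 - x a) * kf P a x + 15 / 22 * (x a * (1 - x a)) *
    (9 * (D a (kf P 0) x + D a (kf P 1) x) + D a (q0 P) x) - 225 / 44 * x a * bf P a x) -
    225 / 242 * (x 0 * x 1 * (1 - x 0) * (1 - x 1)) * D 0 (D 1 P) x

/-- first order term of the barrier, part depending on `μ` -/
noncomputable def Nn (μ : Fin 2 → (Fin 2 → ℝ) → ℝ) (x : Fin 2 → ℝ) : ℝ :=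
  ∑ a, ((1 - 6 * x a) * μ a x + x a * ((1 - x a) * D a (μ a) x))

theorem Mf_zero (P : (Fin 2 → ℝ) → ℝ) (μ : Fin 2 → (Fin 2 → ℝ) → ℝ) (x : Fin 2 → ℝ) :
    Mf P μ 0 x = t1 P x - Nn μ x := by
  simp only [Mf, t1, Nn, kh, dh, ut, Fin.sum_univ_two]
  simp
  ring

theorem t1_Lc {α : Type} {s : Finset α} {c : α → ℝ} {f : α → (Fin 2 → ℝ) → ℝ}
    (hf : ∀ k, ContDiff ℝ ((⊤ : ℕ∞) : WithTop ℕ∞) (f k)) (x : Fin 2 → ℝ) :
    t1 (Lc s c f) x = Lc s c (fun k => t1 (f k)) x := by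
  unfold t1
  simp only [kf_Lc hf, bf_Lc hf, q0_Lc hf, D_Lc hf, D_Lc fun k => contDiff_kf (hf k) _,
    D_Lc fun k => contDiff_q0 (hf k), D_Lc fun k => contDiff_D (hf k) _, Fin.sum_univ_two]
  unfold Lc
  simp only [Finset.mul_sum, ← Finset.sum_add_distrib, ← Finset.sum_sub_distrib]
  exact Finset.sum_congr rfl fun k _ => by ring

theorem Nn_Lc {α : Type} {s : Finset α} {c : α → ℝ} {f : α → Fin 2 → (Fin 2 → ℝ) → ℝ}
    (hf : ∀ k a, ContDiff ℝ ((⊤ : ℕ∞) : WithTop ℕ∞) (f k a)) (x : Fin 2 → ℝ) :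
    Nn (fun a => Lc s c (fun k => f k a)) x = Lc s c (fun k => Nn (f k)) x := by
  unfold Nn
  simp only [D_Lc fun k => hf k _, Fin.sum_univ_two]
  unfold Lc
  simp only [Finset.mul_sum, ← Finset.sum_add_distrib, ← Finset.sum_sub_distrib]
  exact Finset.sum_congr rfl fun k _ => by ring

/-- monomials in `1 - x` -/
noncomputable def mono (m n : ℕ) (x : Fin 2 → ℝ) : ℝ := (1 - x 0) ^ m * (1 - x 1) ^ n

theorem contDiff_r (a : Fin 2) (m : ℕ) :
    ContDiff ℝ ((⊤ : ℕ∞) : WithTop ℕ∞) (fun x : Fin 2 → ℝ => (1 - x a) ^ m) :=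
  (contDiff_const.sub (contDiff_coord a)).pow m

theorem contDiff_mono (m n : ℕ) : ContDiff ℝ ((⊤ : ℕ∞) : WithTop ℕ∞) (mono m n) :=
  (contDiff_r 0 m).mul (contDiff_r 1 n)

theorem D_r (a b : Fin 2) (m : ℕ) (x : Fin 2 → ℝ) :
    D a (fun y => (1 - y b) ^ m) x = if a = b then -(m : ℝ) * (1 - x b) ^ (m - 1) else 0 := by
  have h := (hasDerivAt_pow m (1 - x b)).comp_hasFDerivAt x (hasFDerivAt_one_sub b x)
  rw [D_of_hasFDerivAt (W := fun y => (1 - y b) ^ m) h a]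
  by_cases hab : a = b
  · subst hab
    simp
  · simp [hab]

theorem D_mono0 (m n : ℕ) : D 0 (mono m n) = fun x => -(m : ℝ) * mono (m - 1) n x := by
  ext x
  have h := D_mul (f := fun y : Fin 2 → ℝ => (1 - y 0) ^ m) (g := fun y : Fin 2 → ℝ => (1 - y 1) ^ n)
    ((contDiff_r 0 m).differentiable (by norm_cast) x)
    ((contDiff_r 1 n).differentiable (by norm_cast) x) 0
  rw [D_r, D_r] at h
  refine Eq.trans h ?_
  simp [mono]
  ring

theorem D_mono1 (m n : ℕ) : D 1 (mono m n) = fun x => -(n : ℝ) * mono m (n - 1) x := by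
  ext x
  have h := D_mul (f := fun y : Fin 2 → ℝ => (1 - y 0) ^ m) (g := fun y : Fin 2 → ℝ => (1 - y 1) ^ n)
    ((contDiff_r 0 m).differentiable (by norm_cast) x)
    ((contDiff_r 1 n).differentiable (by norm_cast) x) 1
  rw [D_r, D_r] at h
  refine Eq.trans h ?_
  simp [mono]
  ring

theorem D_cmul (c : ℝ) {f : (Fin 2 → ℝ) → ℝ} (hf : ContDiff ℝ ((⊤ : ℕ∞) : WithTop ℕ∞) f)
    (a : Fin 2) : D a (fun x => c * f x) = fun x => c * D a f x := by
  ext x
  exact D_const_mul (hf.differentiable (by norm_cast) x) c a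

theorem D_sub' {f g : (Fin 2 → ℝ) → ℝ} (hf : ContDiff ℝ ((⊤ : ℕ∞) : WithTop ℕ∞) f)
    (hg : ContDiff ℝ ((⊤ : ℕ∞) : WithTop ℕ∞) g) (a : Fin 2) :
    D a (fun x => f x - g x) = fun x => D a f x - D a g x := by
  ext x
  exact D_sub (hf.differentiable (by norm_cast) x) (hg.differentiable (by norm_cast) x) a

theorem D_add' {f g : (Fin 2 → ℝ) → ℝ} (hf : ContDiff ℝ ((⊤ : ℕ∞) : WithTop ℕ∞) f)
    (hg : ContDiff ℝ ((⊤ : ℕ∞) : WithTop ℕ∞) g) (a : Fin 2) :
    D a (fun x => f x + g x) = fun x => D a f x + D a g x := by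
  ext x
  exact D_add (hf.differentiable (by norm_cast) x) (hg.differentiable (by norm_cast) x) a

theorem kf_mono0 (m n : ℕ) : kf (mono m n) 0 = fun x =>
    -(m / 11 : ℝ) * (mono m n x - mono (m + 1) n x) := by
  ext x
  unfold kf
  rw [D_mono0]
  rcases m with _ | m
  · simp
  · simp [mono]
    ring

theorem kf_mono1 (m n : ℕ) : kf (mono m n) 1 = fun x =>
    -(n / 11 : ℝ) * (mono m n x - mono m (n + 1) x) := by
  ext x
  unfold kf
  rw [D_mono1]
  rcases n with _ | n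
  · simp
  · simp [mono]
    ring

theorem bf_mono0 (m n : ℕ) : bf (mono m n) 0 = fun x =>
    (m * (m - 1) / 11 : ℝ) * mono m n x - (m ^ 2 / 11 : ℝ) * mono (m + 1) n x := by
  ext x
  unfold bf
  rw [D_mono0, D_cmul _ (contDiff_mono _ _), D_mono0]
  rcases m with _ | _ | m
  · simp
  · simp [mono]
    ring
  · simp [mono]
    ring

theorem bf_mono1 (m n : ℕ) : bf (mono m n) 1 = fun x =>
    (n * (n - 1) / 11 : ℝ) * mono m n x - (n ^ 2 / 11 : ℝ) * mono m (n + 1) x := by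
  ext x
  unfold bf
  rw [D_mono1, D_cmul _ (contDiff_mono _ _), D_mono1]
  rcases n with _ | _ | n
  · simp
  · simp [mono]
    ring
  · simp [mono]
    ring

/-- combination of the six coefficients -/
noncomputable def ap (f : ℕ → ℕ → ℝ) (m n : ℕ) : ℝ :=
  (-(15 / 22) * (m + n) * (-(m * (10 - m) / 11) - n * (10 - n) / 11) -
    225 / 484 * (m * (m - 1) + n * (n - 1)) - 225 / 242 * m * n) * f m n +
  (45 / 484 * m + 15 / 22 * (m * (-(m * (10 - m) / 11) - n * (10 - n) / 11) -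
    (m + 1) * (m * (9 - m) / 11) - n * (m * (9 - m) / 11)) +
    225 / 484 * (m * (m - 1) + m * m) + 225 / 242 * m * n) * f (m + 1) n +
  (45 / 484 * n + 15 / 22 * (n * (-(m * (10 - m) / 11) - n * (10 - n) / 11) -
    (n + 1) * (n * (9 - n) / 11) - m * (n * (9 - n) / 11)) +
    225 / 484 * (n * (n - 1) + n * n) + 225 / 242 * m * n) * f m (n + 1) +
  (15 / 22 * (m * (n * (9 - n) / 11) + n * (m * (9 - m) / 11)) - 225 / 242 * m * n) *
    f (m + 1) (n + 1) +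
  (-(45 / 484) * m + 15 / 22 * (m + 1) * (m * (9 - m) / 11) - 225 / 484 * m * m) * f (m + 2) n +
  (-(45 / 484) * n + 15 / 22 * (n + 1) * (n * (9 - n) / 11) - 225 / 484 * n * n) * f m (n + 2)

theorem rD_mono0 (m n : ℕ) (x : Fin 2 → ℝ) :
    x 0 * (1 - x 0) * (-(m : ℝ) * mono (m - 1) n x) =
      -(m : ℝ) * (mono m n x - mono (m + 1) n x) := by
  rcases m with _ | m
  · simp
  · simp [mono]
    ring

theorem rD_mono1 (m n : ℕ) (x : Fin 2 → ℝ) :
    x 1 * (1 - x 1) * (-(n : ℝ) * mono m (n - 1) x) =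
      -(n : ℝ) * (mono m n x - mono m (n + 1) x) := by
  rcases n with _ | n
  · simp
  · simp [mono]
    ring

theorem t1_mono (m n : ℕ) (x : Fin 2 → ℝ) : t1 (mono m n) x = ap (fun k l => mono k l x) m n := by
  have c := contDiff_mono
  have k0 : ∀ a, D a (kf (mono m n) 0) x = -(m / 11 : ℝ) * (D a (mono m n) x - D a (mono (m + 1) n) x) := by
    intro a
    rw [kf_mono0, D_cmul _ ((c m n).sub (c (m + 1) n)), D_sub' (c m n) (c (m + 1) n)]
  have k1 : ∀ a, D a (kf (mono m n) 1) x = -(n / 11 : ℝ) * (D a (mono m n) x - D a (mono m (n + 1)) x) := by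
    intro a
    rw [kf_mono1, D_cmul _ ((c m n).sub (c m (n + 1))), D_sub' (c m n) (c m (n + 1))]
  have b0 : ∀ a, D a (bf (mono m n) 0) x = (m * (m - 1) / 11 : ℝ) * D a (mono m n) x -
      (m ^ 2 / 11 : ℝ) * D a (mono (m + 1) n) x := by
    intro a
    rw [bf_mono0, D_sub' (contDiff_const.mul (c m n)) (contDiff_const.mul (c (m + 1) n)),
      D_cmul _ (c m n), D_cmul _ (c (m + 1) n)]
  have b1 : ∀ a, D a (bf (mono m n) 1) x = (n * (n - 1) / 11 : ℝ) * D a (mono m n) x -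
      (n ^ 2 / 11 : ℝ) * D a (mono m (n + 1)) x := by
    intro a
    rw [bf_mono1, D_sub' (contDiff_const.mul (c m n)) (contDiff_const.mul (c m (n + 1))),
      D_cmul _ (c m n), D_cmul _ (c m (n + 1))]
  have q : ∀ a, D a (q0 (mono m n)) x = D a (bf (mono m n) 0) x + D a (bf (mono m n) 1) x := by
    intro a
    have := D_add' (contDiff_bf (c m n) 0) (contDiff_bf (c m n) 1) a
    exact congrFun this x
  have d01 : (x 0 * x 1 * (1 - x 0) * (1 - x 1)) * D 0 (D 1 (mono m n)) x =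
      (m * n : ℝ) * (mono m n x - mono (m + 1) n x - mono m (n + 1) x + mono (m + 1) (n + 1) x) := by
    rw [D_mono1, D_cmul _ (c _ _), D_mono0]
    rcases m with _ | m <;> rcases n with _ | n
    · simp
    · simp
    · simp
    · simp [mono]
      ring
  have A : ∀ k l, x 0 * (1 - x 0) * D 0 (mono k l) x = -(k : ℝ) * (mono k l x - mono (k + 1) l x) := by
    intro k l
    rw [D_mono0]
    exact rD_mono0 k l x
  have B : ∀ k l, x 1 * (1 - x 1) * D 1 (mono k l) x = -(l : ℝ) * (mono k l x - mono k (l + 1) x) := by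
    intro k l
    rw [D_mono1]
    exact rD_mono1 k l x
  have A0 := A m n
  have A1 := A (m + 1) n
  have A2 := A m (n + 1)
  have B0 := B m n
  have B1 := B (m + 1) n
  have B2 := B m (n + 1)
  have x0 : ∀ k l, x 0 * mono k l x = mono k l x - mono (k + 1) l x := by
    intro k l; simp only [mono]; ring
  have x1 : ∀ k l, x 1 * mono k l x = mono k l x - mono k (l + 1) x := by
    intro k l; simp only [mono]; ring
  have r0 : ∀ k l, (1 - x 0) * mono k l x = mono (k + 1) l x := by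
    intro k l; simp only [mono]; ring
  have r1 : ∀ k l, (1 - x 1) * mono k l x = mono k (l + 1) x := by
    intro k l; simp only [mono]; ring
  unfold t1
  simp only [Fin.sum_univ_two, q, k0, k1, b0, b1]
  rw [mul_assoc (225 / 242 : ℝ), d01]
  have key : ∀ F0 F1 F2 : ℝ, 15 / 22 * (x 0 * (1 - x 0)) * (9 * (-(m / 11 : ℝ) * (F0 - F1) +
      -(n / 11 : ℝ) * (F0 - F2)) + ((m * (m - 1) / 11 : ℝ) * F0 - (m ^ 2 / 11 : ℝ) * F1 +
      ((n * (n - 1) / 11 : ℝ) * F0 - (n ^ 2 / 11 : ℝ) * F2))) =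
      15 / 22 * (9 * (-(m / 11 : ℝ) * (x 0 * (1 - x 0) * F0 - x 0 * (1 - x 0) * F1) +
      -(n / 11 : ℝ) * (x 0 * (1 - x 0) * F0 - x 0 * (1 - x 0) * F2)) +
      ((m * (m - 1) / 11 : ℝ) * (x 0 * (1 - x 0) * F0) - (m ^ 2 / 11 : ℝ) * (x 0 * (1 - x 0) * F1) +
      ((n * (n - 1) / 11 : ℝ) * (x 0 * (1 - x 0) * F0) -
        (n ^ 2 / 11 : ℝ) * (x 0 * (1 - x 0) * F2)))) := by
    intro F0 F1 F2; ring
  have key1 : ∀ F0 F1 F2 : ℝ, 15 / 22 * (x 1 * (1 - x 1)) * (9 * (-(m / 11 : ℝ) * (F0 - F1) +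
      -(n / 11 : ℝ) * (F0 - F2)) + ((m * (m - 1) / 11 : ℝ) * F0 - (m ^ 2 / 11 : ℝ) * F1 +
      ((n * (n - 1) / 11 : ℝ) * F0 - (n ^ 2 / 11 : ℝ) * F2))) =
      15 / 22 * (9 * (-(m / 11 : ℝ) * (x 1 * (1 - x 1) * F0 - x 1 * (1 - x 1) * F1) +
      -(n / 11 : ℝ) * (x 1 * (1 - x 1) * F0 - x 1 * (1 - x 1) * F2)) +
      ((m * (m - 1) / 11 : ℝ) * (x 1 * (1 - x 1) * F0) - (m ^ 2 / 11 : ℝ) * (x 1 * (1 - x 1) * F1) +
      ((n * (n - 1) / 11 : ℝ) * (x 1 * (1 - x 1) * F0) -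
        (n ^ 2 / 11 : ℝ) * (x 1 * (1 - x 1) * F2)))) := by
    intro F0 F1 F2; ring
  rw [key, key1, A0, A1, A2, B0, B1, B2, kf_mono0, kf_mono1, bf_mono0, bf_mono1]
  unfold ap
  simp only [mono]
  push_cast
  ring


end Pool.Agent.L5helper88.KE
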