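import Pool.Agent.L5helper88.KE.Table

/-! The perturbation and its vector field. -/

set_option linter.unusedSectionVars false
set_option linter.unusedSimpArgs false

namespace Pool.Agent.L5helper88.KE

open MeasureTheory Set Filter Topology Matrix

theorem psi_mono (m n : ℕ) (x : Fin 2 → ℝ) : psi (mono m n) x =
    1 / 11 * ((11 + m * (10 - m) + n * (10 - n)) * mono m n x - m * (9 - m) * mono (m + 1) n x -
      n * (9 - n) * mono m (n + 1) x) := by
  unfold psi q0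
  simp only [kf_mono0, kf_mono1, bf_mono0, bf_mono1, Fin.sum_univ_two]
  ring

/-- radial primitives -/
noncomputable def mm (m n : ℕ) (a : Fin 2) : (Fin 2 → ℝ) → ℝ :=
  if a = 0 then Lc (Finset.range m) (fun _ => 1 / ((m : ℝ) + 5)) (fun l => mono l n)
  else Lc (Finset.range n) (fun _ => 5 / ((m : ℝ) + 5) / ((n : ℝ) + 5)) (fun l => mono 0 l)

theorem contDiff_mm (m n : ℕ) (a : Fin 2) : ContDiff ℝ ((⊤ : ℕ∞) : WithTop ℕ∞) (mm m n a) := by
  unfold mm
  split_ifs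
  · exact contDiff_Lc fun k => contDiff_mono _ _
  · exact contDiff_Lc fun k => contDiff_mono _ _

theorem Nn_mm (m n : ℕ) (x : Fin 2 → ℝ) :
    Nn (mm m n) x = mono m n x - 25 / (((m : ℝ) + 5) * ((n : ℝ) + 5)) := by
  have e0 : mm m n 0 = Lc (Finset.range m) (fun _ => 1 / ((m : ℝ) + 5)) (fun l => mono l n) := by
    simp [mm]
  have e1 : mm m n 1 = Lc (Finset.range n) (fun _ => 5 / ((m : ℝ) + 5) / ((n : ℝ) + 5))
      (fun l => mono 0 l) := by
    simp [mm]
  unfold Nn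
  rw [Fin.sum_univ_two, e0, e1, D_Lc fun k => contDiff_mono _ _, D_Lc fun k => contDiff_mono _ _]
  have hm : (m : ℝ) + 5 ≠ 0 := by positivity
  have hn : (n : ℝ) + 5 ≠ 0 := by positivity
  have h0 : (1 - 6 * x 0) * Lc (Finset.range m) (fun _ => 1 / ((m : ℝ) + 5)) (fun l => mono l n) x +
      x 0 * ((1 - x 0) * Lc (Finset.range m) (fun _ => 1 / ((m : ℝ) + 5))
        (fun l => D 0 (mono l n)) x) = mono m n x - 5 / ((m : ℝ) + 5) * mono 0 n x := by
    have h1 : ∀ l : ℕ, (1 - 6 * x 0) * (1 / ((m : ℝ) + 5) * mono l n x) +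
        x 0 * ((1 - x 0) * (1 / ((m : ℝ) + 5) * D 0 (mono l n) x)) =
        1 / ((m : ℝ) + 5) * ((((l + 1 : ℕ) : ℝ) + 5) * mono (l + 1) n x -
          ((l : ℝ) + 5) * mono l n x) := by
      intro l
      rw [D_mono0]
      have := rD_mono0 l n x
      have h2 : mono (l + 1) n x = (1 - x 0) * mono l n x := by simp only [mono]; ring
      push_cast
      linear_combination (1 / ((m : ℝ) + 5)) * this - (6 / ((m : ℝ) + 5)) * h2
    unfold Lc
    rw [Finset.mul_sum, Finset.mul_sum, Finset.mul_sum, ← Finset.sum_add_distrib]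
    rw [Finset.sum_congr rfl fun l _ => h1 l, ← Finset.mul_sum,
      Finset.sum_range_sub (fun l : ℕ => ((l : ℝ) + 5) * mono l n x)]
    push_cast
    field_simp
    ring
  have h0' : (1 - 6 * x 1) * Lc (Finset.range n) (fun _ => 5 / ((m : ℝ) + 5) / ((n : ℝ) + 5))
      (fun l => mono 0 l) x +
      x 1 * ((1 - x 1) * Lc (Finset.range n) (fun _ => 5 / ((m : ℝ) + 5) / ((n : ℝ) + 5))
        (fun l => D 1 (mono 0 l)) x) = 5 / ((m : ℝ) + 5) * mono 0 n x -
        25 / (((m : ℝ) + 5) * ((n : ℝ) + 5)) := by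
    have h1 : ∀ l : ℕ, (1 - 6 * x 1) * (5 / ((m : ℝ) + 5) / ((n : ℝ) + 5) * mono 0 l x) +
        x 1 * ((1 - x 1) * (5 / ((m : ℝ) + 5) / ((n : ℝ) + 5) * D 1 (mono 0 l) x)) =
        5 / ((m : ℝ) + 5) / ((n : ℝ) + 5) * ((((l + 1 : ℕ) : ℝ) + 5) * mono 0 (l + 1) x -
          ((l : ℝ) + 5) * mono 0 l x) := by
      intro l
      rw [D_mono1]
      have := rD_mono1 0 l x
      have h2 : mono 0 (l + 1) x = (1 - x 1) * mono 0 l x := by simp only [mono]; ring
      push_cast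
      linear_combination (5 / ((m : ℝ) + 5) / ((n : ℝ) + 5)) * this -
        (6 * (5 / ((m : ℝ) + 5) / ((n : ℝ) + 5))) * h2
    unfold Lc
    rw [Finset.mul_sum, Finset.mul_sum, Finset.mul_sum, ← Finset.sum_add_distrib]
    rw [Finset.sum_congr rfl fun l _ => h1 l, ← Finset.mul_sum,
      Finset.sum_range_sub (fun l : ℕ => ((l : ℝ) + 5) * mono 0 l x)]
    have : mono 0 0 x = 1 := by simp [mono]
    rw [this]
    push_cast
    field_simp
    ring
  rw [h0, h0']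
  ring

/-- the weights of `ap` -/
noncomputable def wt (m n : ℕ) : Fin 6 → ℝ :=
  ![-(15 / 22) * (m + n) * (-(m * (10 - m) / 11) - n * (10 - n) / 11) -
    225 / 484 * (m * (m - 1) + n * (n - 1)) - 225 / 242 * m * n,
  45 / 484 * m + 15 / 22 * (m * (-(m * (10 - m) / 11) - n * (10 - n) / 11) -
    (m + 1) * (m * (9 - m) / 11) - n * (m * (9 - m) / 11)) +
    225 / 484 * (m * (m - 1) + m * m) + 225 / 242 * m * n,
  45 / 484 * n + 15 / 22 * (n * (-(m * (10 - m) / 11) - n * (10 - n) / 11) -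
    (n + 1) * (n * (9 - n) / 11) - m * (n * (9 - n) / 11)) +
    225 / 484 * (n * (n - 1) + n * n) + 225 / 242 * m * n,
  15 / 22 * (m * (n * (9 - n) / 11) + n * (m * (9 - m) / 11)) - 225 / 242 * m * n,
  -(45 / 484) * m + 15 / 22 * (m + 1) * (m * (9 - m) / 11) - 225 / 484 * m * m,
  -(45 / 484) * n + 15 / 22 * (n + 1) * (n * (9 - n) / 11) - 225 / 484 * n * n]

/-- the offsets of `ap` -/
def ox : Fin 6 → ℕ := ![0, 1, 0, 1, 2, 0]

/-- the offsets of `ap` -/
def oy : Fin 6 → ℕ := ![0, 0, 1, 1, 0, 2]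

theorem ap_eq (f : ℕ → ℕ → ℝ) (m n : ℕ) : ap f m n = ∑ i, wt m n i * f (m + ox i) (n + oy i) := by
  simp [ap, Fin.sum_univ_six, wt, ox, oy]

/-- index set of the monomials -/
def R10 : Finset (ℕ × ℕ) := Finset.range 10 ×ˢ Finset.range 10

/-- coefficients -/
noncomputable def cR (k : ℕ × ℕ) : ℝ := (cZ k.1 k.2 : ℝ) / Qd

/-- the perturbation -/
noncomputable def PP : (Fin 2 → ℝ) → ℝ := Lc R10 cR (fun k => mono k.1 k.2)

/-- its radial vector field -/
noncomputable def mu (a : Fin 2) : (Fin 2 → ℝ) → ℝ :=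
  Lc R10 cR (fun k => Lc Finset.univ (wt k.1 k.2) (fun i => mm (k.1 + ox i) (k.2 + oy i) a))

theorem contDiff_PP : ContDiff ℝ ((⊤ : ℕ∞) : WithTop ℕ∞) PP := contDiff_Lc fun _ => contDiff_mono _ _

theorem contDiff_mu (a : Fin 2) : ContDiff ℝ ((⊤ : ℕ∞) : WithTop ℕ∞) (mu a) :=
  contDiff_Lc fun _ => contDiff_Lc fun _ => contDiff_mm _ _ _

/-- the first order variation -/
noncomputable def Db : ℝ := ∑ k ∈ R10, cR k *
  ap (fun k l => 25 / (((k : ℝ) + 5) * ((l : ℝ) + 5))) k.1 k.2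

theorem Mf_PP (x : Fin 2 → ℝ) : Mf PP mu 0 x = Db := by
  have h1 : Nn mu x = ∑ k ∈ R10, cR k * ∑ i, wt k.1 k.2 i *
      (mono (k.1 + ox i) (k.2 + oy i) x -
        25 / ((((k.1 + ox i : ℕ) : ℝ) + 5) * (((k.2 + oy i : ℕ) : ℝ) + 5))) := by
    have e : mu = fun a => Lc R10 cR (fun k => Lc Finset.univ (wt k.1 k.2)
        (fun i => mm (k.1 + ox i) (k.2 + oy i) a)) := rfl
    rw [e, Nn_Lc (f := fun (k : ℕ × ℕ) a => Lc Finset.univ (wt k.1 k.2)
        (fun i => mm (k.1 + ox i) (k.2 + oy i) a)) (fun k a => contDiff_Lc fun _ => contDiff_mm _ _ _)]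
    unfold Lc
    refine Finset.sum_congr rfl fun k _ => ?_
    congr 1
    have h2 := Nn_Lc (s := Finset.univ) (c := wt k.1 k.2)
      (f := fun i a => mm (k.1 + ox i) (k.2 + oy i) a) (fun i a => contDiff_mm _ _ _) x
    unfold Lc at h2
    refine Eq.trans h2 ?_
    refine Finset.sum_congr rfl fun i _ => ?_
    beta_reduce
    rw [show (fun a => mm (k.1 + ox i) (k.2 + oy i) a) = mm (k.1 + ox i) (k.2 + oy i) from rfl,
      Nn_mm]
  rw [Mf_zero, PP, t1_Lc fun k => contDiff_mono _ _, h1]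
  unfold Lc Db
  rw [← Finset.sum_sub_distrib]
  refine Finset.sum_congr rfl fun k _ => ?_
  beta_reduce
  rw [t1_mono, ap_eq, ap_eq, ← mul_sub, ← Finset.sum_sub_distrib]
  congr 1
  refine Finset.sum_congr rfl fun i _ => ?_
  ring

theorem ap_closed (m n : ℕ) : ap (fun k l => 25 / (((k : ℝ) + 5) * ((l : ℝ) + 5))) m n =
    5625 / 242 * ((dq m n : ℚ) : ℝ) := by
  unfold ap dq
  have h1 : (m : ℝ) + 5 ≠ 0 := by positivity
  have h2 : (m : ℝ) + 6 ≠ 0 := by positivity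
  have h3 : (m : ℝ) + 7 ≠ 0 := by positivity
  have h4 : (n : ℝ) + 5 ≠ 0 := by positivity
  have h5 : (n : ℝ) + 6 ≠ 0 := by positivity
  have h6 : (n : ℝ) + 7 ≠ 0 := by positivity
  have e1 : (m : ℝ) + 1 + 5 = m + 6 := by ring
  have e2 : (m : ℝ) + 2 + 5 = m + 7 := by ring
  have e3 : (n : ℝ) + 1 + 5 = n + 6 := by ring
  have e4 : (n : ℝ) + 2 + 5 = n + 7 := by ring
  push_cast
  rw [e1, e2, e3, e4]
  field_simp
  ring

theorem Db_pos : 0 < Db := by
  have h : Db = 5625 / 242 / (Qd : ℝ) *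
      (((∑ i ∈ Finset.range 10, ∑ j ∈ Finset.range 10, (cZ i j : ℚ) * dq i j : ℚ)) : ℝ) := by
    unfold Db R10
    rw [Finset.sum_product]
    push_cast
    rw [Finset.mul_sum]
    refine Finset.sum_congr rfl fun i _ => ?_
    rw [Finset.mul_sum]
    refine Finset.sum_congr rfl fun j _ => ?_
    rw [ap_closed, cR]
    ring
  rw [h]
  have hQ : (0 : ℝ) < (Qd : ℝ) := by
    have : 0 < Qd := by decide +kernel
    exact_mod_cast this
  have h2 : (0 : ℝ) < (((∑ i ∈ Finset.range 10, ∑ j ∈ Finset.range 10,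
      (cZ i j : ℚ) * dq i j : ℚ)) : ℝ) := by exact_mod_cast dq_pos
  positivity

theorem shift (c : ℕ → ℝ) (r : ℝ) : ∑ i ∈ Finset.range 10, (i : ℝ) * (9 - i) * c i * r ^ (i + 1) =
    ∑ i ∈ Finset.range 10, ((i - 1 : ℕ) : ℝ) * (10 - i) * c (i - 1) * r ^ i := by
  simp [Finset.sum_range_succ]
  ring

/-- `psi` of the perturbation in the monomials -/
theorem psi_PP_sum (x : Fin 2 → ℝ) : psi PP x = ∑ i ∈ Finset.range 10, ∑ j ∈ Finset.range 10,
    (pZ i j : ℝ) / 5500 * ((1 - x 0) ^ i * (1 - x 1) ^ j) := by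
  have hQ : (Qd : ℝ) ≠ 0 := by
    have : Qd ≠ 0 := by decide +kernel
    exact_mod_cast this
  have h0 : psi PP x = ∑ i ∈ Finset.range 10, ∑ j ∈ Finset.range 10, (cZ i j : ℝ) / Qd *
      (1 / 11 * ((11 + i * (10 - i) + j * (10 - j)) * ((1 - x 0) ^ i * (1 - x 1) ^ j) -
      i * (9 - i) * ((1 - x 0) ^ (i + 1) * (1 - x 1) ^ j) -
      j * (9 - j) * ((1 - x 0) ^ i * (1 - x 1) ^ (j + 1)))) := by
    rw [PP, psi_Lc fun k => contDiff_mono _ _]
    unfold Lc R10
    rw [Finset.sum_product]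
    refine Finset.sum_congr rfl fun i _ => Finset.sum_congr rfl fun j _ => ?_
    beta_reduce
    rw [psi_mono]
    rfl
  have s0 : ∑ i ∈ Finset.range 10, ∑ j ∈ Finset.range 10, (cZ i j : ℝ) *
      (i * (9 - i) * ((1 - x 0) ^ (i + 1) * (1 - x 1) ^ j)) =
      ∑ i ∈ Finset.range 10, ∑ j ∈ Finset.range 10, (((i - 1 : ℕ) : ℝ) * (10 - i) *
        cZ (i - 1) j) * ((1 - x 0) ^ i * (1 - x 1) ^ j) := by
    rw [Finset.sum_comm]
    conv_rhs => rw [Finset.sum_comm]
    refine Finset.sum_congr rfl fun j _ => ?_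
    have := shift (fun i => (cZ i j : ℝ)) (1 - x 0)
    calc _ = (∑ i ∈ Finset.range 10, (i : ℝ) * (9 - i) * cZ i j * (1 - x 0) ^ (i + 1)) *
          (1 - x 1) ^ j := by
          rw [Finset.sum_mul]
          exact Finset.sum_congr rfl fun i _ => by ring
      _ = _ := by
          rw [this, Finset.sum_mul]
          exact Finset.sum_congr rfl fun i _ => by ring
  have s1 : ∑ i ∈ Finset.range 10, ∑ j ∈ Finset.range 10, (cZ i j : ℝ) *
      (j * (9 - j) * ((1 - x 0) ^ i * (1 - x 1) ^ (j + 1))) =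
      ∑ i ∈ Finset.range 10, ∑ j ∈ Finset.range 10, (((j - 1 : ℕ) : ℝ) * (10 - j) *
        cZ i (j - 1)) * ((1 - x 0) ^ i * (1 - x 1) ^ j) := by
    refine Finset.sum_congr rfl fun i _ => ?_
    have := shift (fun j => (cZ i j : ℝ)) (1 - x 1)
    calc _ = (∑ j ∈ Finset.range 10, (j : ℝ) * (9 - j) * cZ i j * (1 - x 1) ^ (j + 1)) *
          (1 - x 0) ^ i := by
          rw [Finset.sum_mul]
          exact Finset.sum_congr rfl fun i _ => by ring
      _ = _ := by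
          rw [this, Finset.sum_mul]
          exact Finset.sum_congr rfl fun i _ => by ring
  have h1 : psi PP x = 1 / 11 / Qd * (∑ i ∈ Finset.range 10, ∑ j ∈ Finset.range 10,
      (cZ i j : ℝ) * ((11 + i * (10 - i) + j * (10 - j)) * ((1 - x 0) ^ i * (1 - x 1) ^ j)) -
      ∑ i ∈ Finset.range 10, ∑ j ∈ Finset.range 10, (cZ i j : ℝ) *
      (i * (9 - i) * ((1 - x 0) ^ (i + 1) * (1 - x 1) ^ j)) -
      ∑ i ∈ Finset.range 10, ∑ j ∈ Finset.range 10, (cZ i j : ℝ) *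
      (j * (9 - j) * ((1 - x 0) ^ i * (1 - x 1) ^ (j + 1)))) := by
    rw [h0]
    simp only [← Finset.sum_sub_distrib, Finset.mul_sum]
    refine Finset.sum_congr rfl fun i _ => Finset.sum_congr rfl fun j _ => ?_
    ring
  rw [h1, s0, s1]
  simp only [← Finset.sum_sub_distrib, Finset.mul_sum]
  refine Finset.sum_congr rfl fun i hi => Finset.sum_congr rfl fun j hj => ?_
  have h2 := cZ_rec i (Finset.mem_range.mp hi) j (Finset.mem_range.mp hj)
  have h3 : (500 : ℝ) * (cZ i j * (11 + (i : ℝ) * (10 - i) + j * (10 - j)) -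
    ((i - 1 : ℕ) : ℝ) * (10 - i) * cZ (i - 1) j - ((j - 1 : ℕ) : ℝ) * (10 - j) * cZ i (j - 1)) =
    Qd * pZ i j := by exact_mod_cast h2
  field_simp
  linear_combination (11 * ((1 - x 0) ^ i * (1 - x 1) ^ j)) * h3

/-- `psi` of the perturbation -/
theorem psi_PP : psi PP = fun x => (x 0 * x 1) ^ 4 + 1 / 5500 * (4 * x 0 + 8 * x 0 ^ 2 +
    (4 * x 1 + 8 * x 1 ^ 2)) - 1 / 2750 := by
  ext x
  rw [psi_PP_sum]
  simp [Finset.sum_range_succ, pZ, Nat.choose]
  ring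

end Pool.Agent.L5helper88.KE
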