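import Pool.Agent.L5helper88.KE.Family

/-! For small `ε` the metric is Kähler with `Ric ≥ -ω`. -/

set_option linter.unusedSectionVars false
set_option linter.unusedSimpArgs false

namespace Pool.Agent.L5helper88.KE

open MeasureTheory Set Filter Topology Matrix
open scoped ComplexOrder ComplexConjugate

section calculus

variable {f g : (Fin 2 → ℝ) → ℝ} {x : Fin 2 → ℝ}

theorem D_add (hf : DifferentiableAt ℝ f x) (hg : DifferentiableAt ℝ g x) (a : Fin 2) :
    D a (fun y => f y + g y) x = D a f x + D a g x := by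
  rw [D_of_hasFDerivAt (W := fun y => f y + g y) (hf.hasFDerivAt.add hg.hasFDerivAt) a]
  simp [D]

theorem D_const (c : ℝ) (a : Fin 2) : D a (fun _ => c) x = 0 := by
  rw [D_of_hasFDerivAt (hasFDerivAt_const c x) a]
  simp

theorem D_const_mul (hf : DifferentiableAt ℝ f x) (c : ℝ) (a : Fin 2) :
    D a (fun y => c * f y) x = c * D a f x := by
  rw [D_of_hasFDerivAt (hf.hasFDerivAt.const_mul c) a]
  simp [D]

theorem D_mul (hf : DifferentiableAt ℝ f x) (hg : DifferentiableAt ℝ g x) (a : Fin 2) :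
    D a (fun y => f y * g y) x = f x * D a g x + g x * D a f x := by
  rw [D_of_hasFDerivAt (W := fun y => f y * g y) (hf.hasFDerivAt.mul hg.hasFDerivAt) a]
  simp [D]

theorem D_inv (hf : DifferentiableAt ℝ f x) (h : f x ≠ 0) (a : Fin 2) :
    D a (fun y => (f y)⁻¹) x = - D a f x / f x ^ 2 := by
  have h1 := (hasDerivAt_inv h).comp_hasFDerivAt x hf.hasFDerivAt
  rw [D_of_hasFDerivAt (W := fun y => (f y)⁻¹) h1 a]
  simp [D]
  field_simp

theorem D_div (hf : DifferentiableAt ℝ f x) (hg : DifferentiableAt ℝ g x) (h : g x ≠ 0)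
    (a : Fin 2) :
    D a (fun y => f y / g y) x = (D a f x * g x - f x * D a g x) / g x ^ 2 := by
  have h1 := D_mul hf (hg.inv h) a
  simp only [Pi.inv_apply] at h1
  have h2 : (fun y => f y * (g y)⁻¹) = fun y => f y / g y := by
    ext y; rw [div_eq_mul_inv]
  rw [h2] at h1
  rw [h1]
  have h3 := D_inv hg h a
  have h4 : D a g⁻¹ x = D a (fun y => (g y)⁻¹) x := rfl
  rw [h4, h3]
  field_simp
  ring

theorem D_log (hf : DifferentiableAt ℝ f x) (h : f x ≠ 0) (a : Fin 2) :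
    D a (fun y => Real.log (f y)) x = D a f x / f x := by
  rw [D_of_hasFDerivAt (hf.hasFDerivAt.log h) a]
  simp [D]
  field_simp

theorem D_coord (a b : Fin 2) : D a (fun y => y b) x = if a = b then 1 else 0 := by
  rw [D_of_hasFDerivAt (hasFDerivAt_coord b x) a]
  simp [Pi.single_apply]
  by_cases h : a = b
  · simp [h]
  · have : ¬ b = a := fun h' => h h'.symm
    simp [h, this]

end calculus

/-- `1 + ε k` -/
noncomputable def kh (P : (Fin 2 → ℝ) → ℝ) (ε : ℝ) (a : Fin 2) (x : Fin 2 → ℝ) : ℝ :=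
  1 + ε * kf P a x

/-- the potential of `Ric + ω` -/
noncomputable def Ef (P : (Fin 2 → ℝ) → ℝ) (ε : ℝ) (x : Fin 2 → ℝ) : ℝ :=
  ε * P x - (9 * ∑ a, Real.log (kh P ε a x) + Real.log (dh P ε x))

/-- first derivative of `Ef` over `ε` -/
noncomputable def E1 (P : (Fin 2 → ℝ) → ℝ) (a : Fin 2) (ε : ℝ) (x : Fin 2 → ℝ) : ℝ :=
  D a P x - (9 * ∑ b, D a (kf P b) x / kh P ε b x +
    (D a (q0 P) x + ε * D a (q1 P) x) / dh P ε x)

/-- second derivative of `Ef` over `ε` -/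
noncomputable def E2 (P : (Fin 2 → ℝ) → ℝ) (b a : Fin 2) (ε : ℝ) (x : Fin 2 → ℝ) : ℝ :=
  D b (D a P) x - (9 * ∑ c, (D b (D a (kf P c)) x * kh P ε c x -
      D a (kf P c) x * (ε * D b (kf P c) x)) / kh P ε c x ^ 2 +
    ((D b (D a (q0 P)) x + ε * D b (D a (q1 P)) x) * dh P ε x -
      (D a (q0 P) x + ε * D a (q1 P) x) * (ε * (D b (q0 P) x + ε * D b (q1 P) x))) /
      dh P ε x ^ 2)

/-- region where the perturbed quantities are positive -/
def Rg (P : (Fin 2 → ℝ) → ℝ) (ε : ℝ) : Set (Fin 2 → ℝ) :=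
  {x | 0 < kh P ε 0 x ∧ 0 < kh P ε 1 x ∧ 0 < dh P ε x}

section smooth

variable {P : (Fin 2 → ℝ) → ℝ} (hP : ContDiff ℝ ((⊤ : ℕ∞) : WithTop ℕ∞) P)

include hP

theorem contDiff_kh (ε : ℝ) (a : Fin 2) : ContDiff ℝ ((⊤ : ℕ∞) : WithTop ℕ∞) (kh P ε a) := by
  unfold kh
  exact contDiff_const.add (contDiff_const.mul (contDiff_kf hP a))

theorem contDiff_dh (ε : ℝ) : ContDiff ℝ ((⊤ : ℕ∞) : WithTop ℕ∞) (dh P ε) := by
  unfold dh
  exact (contDiff_const.add (contDiff_const.mul (contDiff_q0 hP))).add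
    (contDiff_const.mul (contDiff_q1 hP))

theorem isOpen_Rg (ε : ℝ) : IsOpen (Rg P ε) := by
  unfold Rg
  exact (isOpen_lt continuous_const (contDiff_kh hP ε 0).continuous).inter
    ((isOpen_lt continuous_const (contDiff_kh hP ε 1).continuous).inter
      (isOpen_lt continuous_const (contDiff_dh hP ε).continuous))

theorem kh_pos {ε : ℝ} {x : Fin 2 → ℝ} (hx : x ∈ Rg P ε) (a : Fin 2) : 0 < kh P ε a x := by
  fin_cases a
  · exact hx.1
  · exact hx.2.1

theorem contDiffAt_Ef {ε : ℝ} {x : Fin 2 → ℝ} (hx : x ∈ Rg P ε) :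
    ContDiffAt ℝ ((⊤ : ℕ∞) : WithTop ℕ∞) (Ef P ε) x := by
  unfold Ef
  refine (contDiff_const.mul hP).contDiffAt.sub (ContDiffAt.add (contDiffAt_const.mul
    (ContDiffAt.sum fun a _ => ?_)) ?_)
  · exact (contDiff_kh hP ε a).contDiffAt.log (kh_pos hP hx a).ne'
  · exact (contDiff_dh hP ε).contDiffAt.log hx.2.2.ne'

theorem D_kh (ε : ℝ) (a b : Fin 2) (x : Fin 2 → ℝ) : D a (kh P ε b) x = ε * D a (kf P b) x := by
  have h : ∀ {f : (Fin 2 → ℝ) → ℝ}, ContDiff ℝ ((⊤ : ℕ∞) : WithTop ℕ∞) f → DifferentiableAt ℝ f x :=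
    fun hf => hf.differentiable (by norm_cast) x
  have h1 : kh P ε b = fun y => 1 + ε * kf P b y := rfl
  rw [h1, D_add (differentiableAt_const _) (h (contDiff_const.mul (contDiff_kf hP b))), D_const,
    D_const_mul (h (contDiff_kf hP b))]
  ring

theorem D_dh (ε : ℝ) (a : Fin 2) (x : Fin 2 → ℝ) :
    D a (dh P ε) x = ε * (D a (q0 P) x + ε * D a (q1 P) x) := by
  have h : ∀ {f : (Fin 2 → ℝ) → ℝ}, ContDiff ℝ ((⊤ : ℕ∞) : WithTop ℕ∞) f → DifferentiableAt ℝ f x :=
    fun hf => hf.differentiable (by norm_cast) x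
  have h1 : dh P ε = fun y => (1 + ε * q0 P y) + ε ^ 2 * q1 P y := rfl
  have c0 := h (contDiff_q0 hP)
  have c1 := h (contDiff_q1 hP)
  rw [h1, D_add ((differentiableAt_const _).fun_add (c0.const_mul ε)) (c1.const_mul _),
    D_add (differentiableAt_const _) (c0.const_mul ε), D_const,
    D_const_mul c0, D_const_mul c1]
  ring

theorem D_Ef {ε : ℝ} {x : Fin 2 → ℝ} (hx : x ∈ Rg P ε) (a : Fin 2) :
    D a (Ef P ε) x = ε * E1 P a ε x := by
  have h : ∀ {f : (Fin 2 → ℝ) → ℝ}, ContDiff ℝ ((⊤ : ℕ∞) : WithTop ℕ∞) f → DifferentiableAt ℝ f x :=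
    fun hf => hf.differentiable (by norm_cast) x
  have k0 := h (contDiff_kh hP ε 0)
  have k1 := h (contDiff_kh hP ε 1)
  have d0 := h (contDiff_dh hP ε)
  have n0 := (kh_pos hP hx 0).ne'
  have n1 := (kh_pos hP hx 1).ne'
  have nd := hx.2.2.ne'
  have e : Ef P ε = fun y => ε * P y - (9 * (Real.log (kh P ε 0 y) + Real.log (kh P ε 1 y)) +
      Real.log (dh P ε y)) := by
    ext y; simp [Ef, Fin.sum_univ_two]
  rw [e, D_sub ((h hP).const_mul ε)
    ((((k0.log n0).fun_add (k1.log n1)).const_mul 9).fun_add (d0.log nd)),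
    D_add (((k0.log n0).fun_add (k1.log n1)).const_mul 9) (d0.log nd),
    D_const_mul ((k0.log n0).fun_add (k1.log n1)), D_add (k0.log n0) (k1.log n1), D_log k0 n0,
    D_log k1 n1, D_log d0 nd, D_const_mul (h hP), D_kh hP, D_kh hP, D_dh hP]
  unfold E1
  simp only [Fin.sum_univ_two]
  ring

theorem DD_Ef {ε : ℝ} {x : Fin 2 → ℝ} (hx : x ∈ Rg P ε) (a b : Fin 2) :
    D b (D a (Ef P ε)) x = ε * E2 P b a ε x := by
  have h : ∀ {f : (Fin 2 → ℝ) → ℝ}, ContDiff ℝ ((⊤ : ℕ∞) : WithTop ℕ∞) f → DifferentiableAt ℝ f x :=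
    fun hf => hf.differentiable (by norm_cast) x
  have he : D a (Ef P ε) =ᶠ[𝓝 x] fun y => ε * E1 P a ε y := by
    filter_upwards [(isOpen_Rg hP ε).mem_nhds hx] with y hy
    exact D_Ef hP hy a
  rw [D_congr he]
  have k0 := h (contDiff_kh hP ε 0)
  have k1 := h (contDiff_kh hP ε 1)
  have d0 := h (contDiff_dh hP ε)
  have n0 := (kh_pos hP hx 0).ne'
  have n1 := (kh_pos hP hx 1).ne'
  have nd := hx.2.2.ne'
  have f0 := h (contDiff_D (contDiff_kf hP 0) a)
  have f1 := h (contDiff_D (contDiff_kf hP 1) a)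
  have g0 := h (contDiff_D (contDiff_q0 hP) a)
  have g1 := h (contDiff_D (contDiff_q1 hP) a)
  have pa := h (contDiff_D hP a)
  have e : (fun y => ε * E1 P a ε y) = fun y => ε * (D a P y -
      (9 * (D a (kf P 0) y / kh P ε 0 y + D a (kf P 1) y / kh P ε 1 y) +
      (D a (q0 P) y + ε * D a (q1 P) y) / dh P ε y)) := by
    ext y; simp [E1, Fin.sum_univ_two]
  have i0 : DifferentiableAt ℝ (fun y => D a (kf P 0) y / kh P ε 0 y) x := by
    fun_prop (disch := assumption)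
  have i1 : DifferentiableAt ℝ (fun y => D a (kf P 1) y / kh P ε 1 y) x := by
    fun_prop (disch := assumption)
  have j2 : DifferentiableAt ℝ (fun y => D a (q0 P) y + ε * D a (q1 P) y) x := by
    fun_prop (disch := assumption)
  have i2 : DifferentiableAt ℝ (fun y => (D a (q0 P) y + ε * D a (q1 P) y) / dh P ε y) x := by
    fun_prop (disch := assumption)
  rw [e, D_const_mul (pa.fun_sub (((i0.fun_add i1).const_mul 9).fun_add i2)),
    D_sub pa (((i0.fun_add i1).const_mul 9).fun_add i2), D_add ((i0.fun_add i1).const_mul 9) i2,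
    D_const_mul (i0.fun_add i1), D_add i0 i1, D_div f0 k0 n0, D_div f1 k1 n1,
    D_div j2 d0 nd, D_add g0 (g1.const_mul ε), D_const_mul g1,
    D_kh hP, D_kh hP, D_dh hP]
  unfold E2
  simp only [Fin.sum_univ_two]

/-- `W - Wd` is `Ef` up to a constant -/
theorem W_sub_Wd {ε : ℝ} {x : Fin 2 → ℝ} (hx : x ∈ S) (hx' : x ∈ Rg P ε) :
    Wf P ε x - Wd (Wf P ε) x = Ef P ε x - (18 * Real.log (11 / 5) + Real.log 121) := by
  have l0 : 0 < 1 - x 0 := by have := hx 0; linarith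
  have l1 : 0 < 1 - x 1 := by have := hx 1; linarith
  unfold Wd
  rw [det_Wf hP ε hx]
  simp only [Fin.sum_univ_two, Kc_Wf hP ε hx]
  have k0 := kh_pos hP hx' 0
  have k1 := kh_pos hP hx' 1
  have e0 : Real.log (11 / 5 / (1 - x 0) * (1 + ε * kf P 0 x)) =
      Real.log (11 / 5) - Real.log (1 - x 0) + Real.log (kh P ε 0 x) := by
    rw [Real.log_mul (by positivity) (by exact k0.ne'), Real.log_div (by norm_num) l0.ne']
    rfl
  have e1 : Real.log (11 / 5 / (1 - x 1) * (1 + ε * kf P 1 x)) =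
      Real.log (11 / 5) - Real.log (1 - x 1) + Real.log (kh P ε 1 x) := by
    rw [Real.log_mul (by positivity) (by exact k1.ne'), Real.log_div (by norm_num) l1.ne']
    rfl
  have e2 : Real.log (121 / ((1 - x 0) ^ 2 * (1 - x 1) ^ 2) * dh P ε x) =
      Real.log 121 - (2 * Real.log (1 - x 0) + 2 * Real.log (1 - x 1)) + Real.log (dh P ε x) := by
    rw [Real.log_mul (by positivity) hx'.2.2.ne', Real.log_div (by norm_num) (by positivity),
      Real.log_mul (by positivity) (by positivity), Real.log_pow, Real.log_pow]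
    push_cast
    ring
  rw [e0, e1, e2]
  unfold Wf Ef
  simp only [Fin.sum_univ_two]
  ring

theorem contDiffAt_Wd {ε : ℝ} {x : Fin 2 → ℝ} (hx : x ∈ S) (hx' : x ∈ Rg P ε) :
    ContDiffAt ℝ ((⊤ : ℕ∞) : WithTop ℕ∞) (Wd (Wf P ε)) x := by
  have he : Wd (Wf P ε) =ᶠ[𝓝 x] fun y => Wf P ε y -
      (Ef P ε y - (18 * Real.log (11 / 5) + Real.log 121)) := by
    filter_upwards [isOpen_S.mem_nhds hx, (isOpen_Rg hP ε).mem_nhds hx'] with y hy hy'
    rw [← W_sub_Wd hP hy hy']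
    ring
  refine ContDiffAt.congr_of_eventuallyEq ?_ he
  exact (contDiffAt_Wf hP ε hx).sub ((contDiffAt_Ef hP hx').sub contDiffAt_const)

theorem hess_E {ε : ℝ} {p : Ix → ℂ} (hp : p ∈ X) (hx' : v p ∈ Rg P ε) (I J : Ix) :
    hess 0 (fun y => Wf P ε y - Wd (Wf P ε) y) p I J = hess 0 (Ef P ε) p I J := by
  have he : (fun y => Wf P ε y - Wd (Wf P ε) y) =ᶠ[𝓝 (v p)] fun y =>
      Ef P ε y - (18 * Real.log (11 / 5) + Real.log 121) := by
    filter_upwards [isOpen_S.mem_nhds (v_mem_S hp), (isOpen_Rg hP ε).mem_nhds hx'] with y hy hy'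
    exact W_sub_Wd hP hy hy'
  have h1 : ∀ a, D a (fun y => Wf P ε y - Wd (Wf P ε) y) =ᶠ[𝓝 (v p)] D a (Ef P ε) := by
    intro a
    filter_upwards [he.eventuallyEq_nhds, (isOpen_Rg hP ε).mem_nhds hx'] with y hy hy'
    rw [D_congr hy, D_sub ((contDiffAt_Ef hP hy').differentiableAt (by norm_cast))
      (differentiableAt_const _), D_const, sub_zero]
  unfold hess
  have h2 : ∀ a b, D b (D a (fun y => Wf P ε y - Wd (Wf P ε) y)) (v p) =
      D b (D a (Ef P ε)) (v p) := fun a b => D_congr (h1 a) b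
  have h3 : ∀ a, D a (fun y => Wf P ε y - Wd (Wf P ε) y) (v p) = D a (Ef P ε) (v p) :=
    fun a => (h1 a).self_of_nhds
  simp only [h2, h3]

/-- the conditions which hold for small `ε` -/
structure Cond (P : (Fin 2 → ℝ) → ℝ) (ε : ℝ) (x : Fin 2 → ℝ) : Prop where
  kh : ∀ a, 1 / 2 < kh P ε a x
  bh : ∀ a, 1 / 2 < 1 + ε * bf P a x
  bh2 : x 0 * x 1 * (ε * ((1 - x 0) * (1 - x 1) * D 0 (D 1 P) x)) ^ 2 / 121 <
    (1 / 2 + ε * bf P 0 x) * (1 / 2 + ε * bf P 1 x)
  dh : 0 < dh P ε x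
  e1 : ∀ a, 0 < E1 P a ε x
  e2 : ∀ a, 0 < E1 P a ε x + x a * E2 P a a ε x
  e3 : x 0 * x 1 * (E2 P 0 1 ε x) ^ 2 <
    (E1 P 0 ε x + x 0 * E2 P 0 0 ε x) * (E1 P 1 ε x + x 1 * E2 P 1 1 ε x)

omit hP in
theorem Cond.mem_Rg {ε : ℝ} {x : Fin 2 → ℝ} (h : Cond P ε x) : x ∈ Rg P ε :=
  ⟨by have := h.kh 0; linarith, by have := h.kh 1; linarith, h.dh⟩

theorem good_Wf {ε : ℝ} (h : ∀ x ∈ Icc (0 : Fin 2 → ℝ) 1, Cond P ε x) : Good (Wf P ε) where
  smooth p hp := contDiffAt_Wf hP ε (v_mem_S hp)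
  posK p hp a := by
    rw [Kc_Wf hP ε (v_mem_S hp)]
    have h1 : 0 < 1 - v p a := by have := v_lt_one hp a; linarith
    have h2 : 0 < KE.kh P ε a (v p) := by have := (h _ (v_mem_Icc hp)).kh a; linarith
    unfold KE.kh at h2
    positivity
  posB p hp a := by
    rw [B_Wf hP ε (v_mem_S hp)]
    have h1 : 0 < 1 - v p a := by have := v_lt_one hp a; linarith
    have h2 : 0 < 1 + ε * bf P a (v p) := by have := (h _ (v_mem_Icc hp)).bh a; linarith
    positivity
  posDet p hp := by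
    have h1 : 0 < 1 - v p 0 := by have := v_lt_one hp 0; linarith
    have h1' : 0 < 1 - v p 1 := by have := v_lt_one hp 1; linarith
    have h2 := (h _ (v_mem_Icc hp)).dh
    have h3 := det_Wf hP ε (v_mem_S hp)
    have h4 : 0 < 121 / ((1 - v p 0) ^ 2 * (1 - v p 1) ^ 2) * KE.dh P ε (v p) := by positivity
    rw [← h3] at h4
    linarith

theorem ricci_Wf {ε : ℝ} (hε : 0 < ε) (h : ∀ x ∈ Icc (0 : Fin 2 → ℝ) 1, Cond P ε x)
    {p : Ix → ℂ} (hp : p ∈ X) : (ricci (met (Wf P ε)) p + met (Wf P ε) p).PosSemidef := by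
  have hG := good_Wf hP h
  have hR : ∀ p ∈ X, v p ∈ Rg P ε := fun p hp => (h _ (v_mem_Icc hp)).mem_Rg
  have hd : ∀ p ∈ X, ContDiffAt ℝ ((⊤ : ℕ∞) : WithTop ℕ∞) (Wd (Wf P ε)) (v p) := fun p hp =>
    contDiffAt_Wd hP (v_mem_S hp) (hR p hp)
  have hE := contDiffAt_Ef hP (hR p hp)
  have e : ∀ I J, (ricci (met (Wf P ε)) p + met (Wf P ε) p) I J = hess 0 (Ef P ε) p I J := by
    intro I J
    rw [ricci_add hG hd hp, hess_E hP hp (hR p hp)]
  apply Matrix.PosSemidef.of_dotProduct_mulVec_nonneg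
  · ext I J
    rw [Matrix.conjTranspose_apply, e, e]
    exact hess_conj hE I J
  · intro x
    rw [dot_eq]
    simp only [e]
    rw [sum_hess hE]
    have hc := h _ (v_mem_Icc hp)
    have key : 0 ≤ levi 0 (Ef P ε) p (star x) := by
      rw [levi_eq]
      apply add_nonneg
      · apply Finset.sum_nonneg
        intro j _
        apply mul_nonneg _ (Complex.normSq_nonneg _)
        apply div_nonneg _ (sq_nonneg _)
        unfold Kc
        rw [D_Ef hP (hR p hp)]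
        have h1 := hc.e1 (blk j)
        have h2 := v_nonneg p (blk j)
        positivity
      · have hB : ∀ a, B a (Ef P ε) (v p) = ε * (E1 P a ε (v p) + v p a * E2 P a a ε (v p)) := by
          intro a
          unfold B
          rw [D_Ef hP (hR p hp), DD_Ef hP (hR p hp)]
          ring
        apply vert_nonneg
        · rw [hB]; exact (mul_pos hε (hc.e2 0)).le
        · rw [hB]; exact (mul_pos hε (hc.e2 1)).le
        · rw [hB, hB, DD_Ef hP (hR p hp)]
          have h3 := mul_le_mul_of_nonneg_left hc.e3.le (sq_nonneg ε)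
          calc _ = ε ^ 2 * (v p 0 * v p 1 * (E2 P 0 1 ε (v p)) ^ 2) := by ring
            _ ≤ _ := h3
            _ = _ := by ring
    exact_mod_cast key

end smooth

end Pool.Agent.L5helper88.KE
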