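import Pool.Agent.L5helper88.KE.Grad
import Pool.Agent.L5helper88.KE.Fubini
import Pool.Agent.L5helper88.KE.Fibre
import Pool.Agent.L5helper88.KE.Event

/-! The upper bound for the bottom of the spectrum of the Kähler-Einstein metric. -/

set_option linter.unusedSectionVars false
set_option linter.unusedSimpArgs false

namespace Pool.Agent.L5helper88.KE

open MeasureTheory Set Filter Topology Matrix
open scoped ComplexOrder ComplexConjugate

/-- the potential of the Kähler-Einstein metric -/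
noncomputable def W0 : (Fin 2 → ℝ) → ℝ := Wf PP 0

theorem good_W0 : Good W0 := good_Wf contDiff_PP Cond_zero

theorem kh_zero (P : (Fin 2 → ℝ) → ℝ) (a : Fin 2) (x : Fin 2 → ℝ) : kh P 0 a x = 1 := by
  simp [kh]

theorem mem_Rg_zero (P : (Fin 2 → ℝ) → ℝ) (x : Fin 2 → ℝ) : x ∈ Rg P 0 := by
  simp [Rg, kh, dh]

theorem Wd_W0 {x : Fin 2 → ℝ} (hx : x ∈ S) : Wd W0 x = W0 x +
    (18 * Real.log (11 / 5) + Real.log 121) := by
  have h := W_sub_Wd contDiff_PP hx (mem_Rg_zero PP x)
  have e : Ef PP 0 x = 0 := by simp [Ef, kh, dh]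
  rw [e] at h
  unfold W0
  linarith

/-- normalizing constant -/
noncomputable def C0 : ℝ := Real.exp (18 * Real.log (11 / 5) + Real.log 121)

theorem C0_pos : 0 < C0 := Real.exp_pos _

theorem det_W0 {p : Ix → ℂ} (hp : p ∈ X) : (met W0 p).det.re =
    C0 * Real.exp (11 / 5 * ∑ a, L a p) * ∏ a, 1 / (1 - v p a) ^ 11 := by
  rw [det_met good_W0 hp, Complex.ofReal_re]
  have h1 := log_dt good_W0 hp
  rw [← Real.exp_log (dt_pos good_W0 hp), h1]
  have l : ∀ a, 0 < 1 - v p a := fun a => by have := v_lt_one hp a; linarith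
  have e : Hf (11 / 5) (Wd W0) p = (18 * Real.log (11 / 5) + Real.log 121) +
      11 / 5 * ∑ a, L a p + ∑ a, -(((11 : ℕ) : ℝ) * Real.log (1 - v p a)) := by
    unfold Hf
    rw [Wd_W0 (v_mem_S hp)]
    unfold W0 Wf
    simp only [Fin.sum_univ_two]
    push_cast
    ring
  rw [e, Real.exp_add, Real.exp_add, Real.exp_sum]
  congr 1
  refine Finset.prod_congr rfl fun a _ => ?_
  rw [Real.exp_neg, Real.exp_nat_mul, Real.exp_log (l a), one_div]

theorem Kc_W0 {x : Fin 2 → ℝ} (hx : x ∈ S) (a : Fin 2) :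
    Kc (11 / 5) a W0 x = 11 / 5 / (1 - x a) := by
  unfold W0
  rw [Kc_Wf contDiff_PP 0 hx]
  ring

theorem B_W0 {x : Fin 2 → ℝ} (hx : x ∈ S) (a : Fin 2) : B a W0 x = 11 / (1 - x a) ^ 2 := by
  unfold W0
  rw [B_Wf contDiff_PP 0 hx]
  ring

theorem D01_W0 : ∀ x ∈ S, D 0 (D 1 W0) x = 0 := by
  intro x hx
  unfold W0
  rw [DD_Wf contDiff_PP 0 hx, if_neg (by decide)]
  ring

/-- fibre densities -/
noncomputable def be (f : ℝ → ℝ) (i : Fin 3) (s : ℝ) : ℝ :=
  ![f s ^ 2 / (1 - s) ^ 11, f s ^ 2 / (1 - s) ^ 10, deriv f s ^ 2 * s / (1 - s) ^ 9] i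

theorem be0 (f : ℝ → ℝ) (s : ℝ) : be f 0 s = f s ^ 2 / (1 - s) ^ 11 := rfl

theorem be1 (f : ℝ → ℝ) (s : ℝ) : be f 1 s = f s ^ 2 / (1 - s) ^ 10 := rfl

theorem be2 (f : ℝ → ℝ) (s : ℝ) : be f 2 s = deriv f s ^ 2 * s / (1 - s) ^ 9 := rfl

/-- base densities -/
noncomputable def al (h : ℂ → ℝ) (i : Fin 2) (z : ℂ) : ℝ :=
  ![h z ^ 2, (1 - Complex.normSq z) ^ 2 * (fderiv ℝ h z 1 ^ 2 + fderiv ℝ h z Complex.I ^ 2)] i

/-- mass density -/
theorem mass_dens (h : ℂ → ℝ) (f : ℝ → ℝ) {p : Ix → ℂ} (hp : p ∈ X) :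
    Ft h f p ^ 2 * vol (met W0) p = 2 ^ 20 * C0 * PX (fun _ => al h 0) (fun _ => be f 0) p := by
  unfold vol PX Ft Hp al be
  rw [det_W0 hp]
  simp only [Fin.prod_univ_two, Matrix.cons_val_zero]
  rw [Finset.prod_pow]
  have hc : Fintype.card Ix = 20 := by simp
  rw [hc]
  have l : ∀ a, 1 - v p a ≠ 0 := fun a => by have := v_lt_one hp a; linarith
  have l0 := l 0
  have l1 := l 1
  field_simp

/-- energy density -/
theorem energy_dens (h : ℂ → ℝ) {f : ℝ → ℝ} (hf : Differentiable ℝ f) {p : Ix → ℂ} (hp : p ∈ X) :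
    2 * Rd W0 h f p * vol (met W0) p = 2 ^ 21 * C0 * (5 / 44 * ∑ j,
      PX (fun i => if i = j then al h 1 else al h 0)
        (fun a => if a = blk j then be f 1 else be f 0) p +
      1 / 11 * ∑ a, PX (fun _ => al h 0) (fun b => if b = a then be f 2 else be f 0) p) := by
  have hc : Fintype.card Ix = 20 := by simp
  have hS := v_mem_S hp
  have l : ∀ a, 1 - v p a ≠ 0 := fun a => by have := v_lt_one hp a; linarith
  have l0 := l 0
  have l1 := l 1
  unfold Rd vol
  rw [det_W0 hp, hc]
  simp only [Kc_W0 hS, B_W0 hS]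
  have e1 : ∀ j : Fin 18, ((f (v p 0) * f (v p 1)) *
      ∏ i ∈ Finset.univ.erase j, h (p (Sum.inl i))) ^ 2 *
      Complex.normSq (hz h (p (Sum.inl j))) / (11 / 5 / (1 - v p (blk j)) / del j p ^ 2) *
      (Real.exp (11 / 5 * ∑ a, L a p) * ∏ a, 1 / (1 - v p a) ^ 11) =
      5 / 44 * PX (fun i => if i = j then al h 1 else al h 0)
        (fun a => if a = blk j then be f 1 else be f 0) p := by
    intro j
    have hd := (del_pos hp j).ne'
    rw [normSq_hz]
    unfold PX
    have e2 : ∏ i, (if i = j then al h 1 else al h 0) (p (Sum.inl i)) =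
        del j p ^ 2 * (fderiv ℝ h (p (Sum.inl j)) 1 ^ 2 +
          fderiv ℝ h (p (Sum.inl j)) Complex.I ^ 2) *
          (∏ i ∈ Finset.univ.erase j, h (p (Sum.inl i))) ^ 2 := by
      rw [← Finset.mul_prod_erase Finset.univ _ (Finset.mem_univ j), if_pos rfl, ← Finset.prod_pow]
      congr 1
      refine Finset.prod_congr rfl fun i hi => ?_
      rw [if_neg (Finset.ne_of_mem_erase hi)]
      simp [al]
    rw [e2]
    have hb : blk j = 0 ∨ blk j = 1 := by
      unfold blk
      split_ifs <;> simp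
    rcases hb with hb | hb
    · rw [hb]
      simp only [Fin.prod_univ_two]
      simp [be0, be1]
      field_simp
      ring
    · rw [hb]
      simp only [Fin.prod_univ_two]
      simp [be0, be1]
      field_simp
      ring
  have e3 : ∀ a : Fin 2, (Hp h p * D a (ph f) (v p)) ^ 2 * v p a / (11 / (1 - v p a) ^ 2) *
      (Real.exp (11 / 5 * ∑ a, L a p) * ∏ a, 1 / (1 - v p a) ^ 11) =
      1 / 11 * PX (fun _ => al h 0) (fun b => if b = a then be f 2 else be f 0) p := by
    intro a
    unfold PX Hp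
    have e4 : ∏ i : Fin 18, al h 0 (p (Sum.inl i)) = (∏ i : Fin 18, h (p (Sum.inl i))) ^ 2 := by
      rw [← Finset.prod_pow]
      simp [al]
    rw [e4]
    fin_cases a
    · simp only [Fin.zero_eta, D0_ph hf, Fin.prod_univ_two]
      simp [be0, be2]
      field_simp
    · simp only [Fin.mk_one, D1_ph hf, Fin.prod_univ_two]
      simp [be0, be2]
      field_simp
  have e5 : ∀ A B E Q : ℝ, 2 * (A + B) * (2 ^ 20 * (C0 * E * Q)) =
      2 ^ 21 * C0 * (A * (E * Q) + B * (E * Q)) := by
    intro A B E Q; ring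
  rw [e5, Finset.sum_mul, Finset.sum_mul, Finset.sum_congr rfl fun j _ => e1 j,
    Finset.sum_congr rfl fun a _ => e3 a, ← Finset.mul_sum, ← Finset.mul_sum]

/-- conditions on the profiles -/
structure Prof (η : ℝ) (h : ℂ → ℝ) (f : ℝ → ℝ) : Prop where
  pos : 0 < η
  le : η ≤ 1
  hs : ContDiff ℝ ((⊤ : ℕ∞) : WithTop ℕ∞) h
  fs : ContDiff ℝ ((⊤ : ℕ∞) : WithTop ℕ∞) f
  h0 : ∀ z, 1 - η < Complex.normSq z → h z = 0
  f0 : ∀ s, 1 - η < s → f s = 0

theorem Prof.fac {η : ℝ} {h : ℂ → ℝ} {f : ℝ → ℝ} (P : Prof η h f) {α : Fin 18 → ℂ → ℝ}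
    {β : Fin 2 → ℝ → ℝ} (hα : ∀ j, α j = al h 0 ∨ α j = al h 1)
    (hβ : ∀ a, β a = be f 0 ∨ β a = be f 1 ∨ β a = be f 2) : Fac η α β where
  pos := P.pos
  le := P.le
  a0 j z hz := by
    have h1 : h z = 0 := P.h0 z hz
    have h2 : fderiv ℝ h z = 0 := by
      have : h =ᶠ[𝓝 z] fun _ => 0 := by
        filter_upwards [(isOpen_lt continuous_const Complex.continuous_normSq).mem_nhds hz]
          with w hw
        exact P.h0 w hw
      rw [this.fderiv_eq]
      simp
    rcases hα j with h' | h' <;> rw [h']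
    · simp [al, h1]
    · simp [al, h2]
  ac j := by
    have hd : ∀ w, Continuous fun z => fderiv ℝ h z w := fun w =>
      (P.hs.continuous_fderiv (by norm_cast)).clm_apply continuous_const
    rcases hα j with h' | h' <;> rw [h']
    · exact P.hs.continuous.pow 2
    · exact ((continuous_const.sub Complex.continuous_normSq).pow 2).mul
        (((hd 1).pow 2).add ((hd Complex.I).pow 2))
  b0 a s hs := by
    have h1 : f s = 0 := P.f0 s hs
    have h2 : deriv f s = 0 := by
      have : f =ᶠ[𝓝 s] fun _ => 0 := by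
        filter_upwards [Ioi_mem_nhds hs] with w hw
        exact P.f0 w hw
      rw [this.deriv_eq]
      simp
    rcases hβ a with h' | h' | h' <;> rw [h']
    · simp [be0, h1]
    · simp [be1, h1]
    · simp [be2, h2]
  bc a := by
    have hd : Continuous (deriv f) := P.fs.continuous_deriv (by norm_cast)
    have hne : ∀ n : ℕ, ∀ s ∈ Iio (1 : ℝ), (1 - s) ^ n ≠ 0 := fun n s hs =>
      pow_ne_zero _ (by have : s < 1 := hs; linarith)
    have hc : ∀ n : ℕ, ContinuousOn (fun s : ℝ => (1 - s) ^ n) (Iio 1) := fun n =>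
      ((continuous_const.sub continuous_id).pow n).continuousOn
    rcases hβ a with h' | h' | h' <;> rw [h']
    · exact (P.fs.continuous.pow 2).continuousOn.div (hc 11) (hne 11)
    · exact (P.fs.continuous.pow 2).continuousOn.div (hc 10) (hne 10)
    · exact ((hd.pow 2).mul continuous_id).continuousOn.div (hc 9) (hne 9)

theorem Prof.contDiff {η : ℝ} {h : ℂ → ℝ} {f : ℝ → ℝ} (P : Prof η h f) :
    ContDiff ℝ ((⊤ : ℕ∞) : WithTop ℕ∞) (Ft h f) := by
  rw [contDiff_iff_contDiffAt]
  intro p
  by_cases hp : p ∈ X0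
  · have h1 : ∀ a, ContDiffAt ℝ ((⊤ : ℕ∞) : WithTop ℕ∞) (fun q => v q a) p := fun a =>
      (contDiffOn_v a p hp).contDiffAt (isOpen_X0.mem_nhds hp)
    have h2 : ContDiffAt ℝ ((⊤ : ℕ∞) : WithTop ℕ∞) (Hp h) p := by
      unfold Hp
      apply contDiffAt_prod
      intro j _
      exact P.hs.contDiffAt.comp p (contDiff_apply ℝ ℂ _).contDiffAt
    exact h2.mul ((P.fs.contDiffAt.comp p (h1 0)).mul (P.fs.contDiffAt.comp p (h1 1)))
  · have : ∃ j, del j p ≤ 0 := by
      by_contra hn
      push Not at hn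
      exact hp hn
    obtain ⟨j, hj⟩ := this
    have h1 : Ft h f =ᶠ[𝓝 p] fun _ => 0 := by
      have ho : IsOpen {q : Ix → ℂ | 1 - η < Complex.normSq (q (Sum.inl j))} :=
        isOpen_lt continuous_const (Complex.continuous_normSq.comp (continuous_apply _))
      have hm : p ∈ {q : Ix → ℂ | 1 - η < Complex.normSq (q (Sum.inl j))} := by
        have := P.pos
        unfold del at hj
        simp only [mem_ofPred_eq]
        linarith
      filter_upwards [ho.mem_nhds hm] with q hq
      unfold Ft Hp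
      rw [Finset.prod_eq_zero (Finset.mem_univ j) (P.h0 _ hq), zero_mul]
    exact contDiffAt_const.congr_of_eventuallyEq h1

theorem Prof.mem {η : ℝ} {h : ℂ → ℝ} {f : ℝ → ℝ} (P : Prof η h f) {p : Ix → ℂ}
    (hp : Ft h f p ≠ 0) : p ∈ X ∧ bx p ≤ -(20 * Real.log η) := by
  have hF : Fac η (fun _ => h) (fun _ => f) :=
    { pos := P.pos
      le := P.le
      a0 := fun _ => P.h0
      ac := fun _ => P.hs.continuous
      b0 := fun _ => P.f0
      bc := fun _ => P.fs.continuous.continuousOn }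
  apply hF.mem
  have e : PX (fun _ => h) (fun _ => f) p = Ft h f p * Real.exp (11 / 5 * ∑ a, L a p) := by
    unfold PX Ft Hp
    rw [Fin.prod_univ_two]
    ring
  rw [e]
  exact mul_ne_zero hp (Real.exp_pos _).ne'

theorem Prof.tsupport_subset {η : ℝ} {h : ℂ → ℝ} {f : ℝ → ℝ} (P : Prof η h f) :
    tsupport (Ft h f) ⊆ {p | p ∈ X ∧ bx p ≤ -(20 * Real.log η)} :=
  closure_minimal (fun _ hp => P.mem hp) (isCompact_sub _).isClosed

theorem Prof.compact {η : ℝ} {h : ℂ → ℝ} {f : ℝ → ℝ} (P : Prof η h f) :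
    HasCompactSupport (Ft h f) :=
  (isCompact_sub (-(20 * Real.log η))).of_isClosed_subset (isClosed_tsupport _) P.tsupport_subset

theorem prod_if {n : ℕ} (F : Fin n → ℝ) (j : Fin n) (A A' : ℝ)
    (h : ∀ i, F i = if i = j then A' else A) : ∏ i, F i = A' * A ^ (n - 1) := by
  rw [← Finset.mul_prod_erase Finset.univ F (Finset.mem_univ j), h j, if_pos rfl]
  congr 1
  rw [Finset.prod_congr rfl fun i hi => by rw [h i, if_neg (Finset.ne_of_mem_erase hi)],
    Finset.prod_const, Finset.card_erase_of_mem (Finset.mem_univ j)]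
  simp

theorem gradSq_nonneg {p : Ix → ℂ} (hp : p ∈ X) (F : (Ix → ℂ) → ℝ) : 0 ≤ gradSq (met W0) F p := by
  unfold gradSq
  have := quad_nonneg' (posDef_met good_W0 hp) (fun i => dz i (fun q => ((F q : ℝ) : ℂ)) p)
  linarith

theorem vol_pos {p : Ix → ℂ} (hp : p ∈ X) : 0 < vol (met W0) p :=
  mul_pos (by positivity) (det_re (posDef_met good_W0 hp)).2

/-- the Rayleigh quotient of a product test function -/
theorem rayleigh_le {η : ℝ} {h : ℂ → ℝ} {f : ℝ → ℝ} (P : Prof η h f) {A A' m m1 m2 : ℝ}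
    (hA : A = ∫ z : ℂ, al h 0 z / (1 - Complex.normSq z) ^ 2)
    (hA' : A' = ∫ z : ℂ, al h 1 z / (1 - Complex.normSq z) ^ 2)
    (hm : m = ∫ w : ℂ, be f 0 (Complex.normSq w)) (hm1 : m1 = ∫ w : ℂ, be f 1 (Complex.normSq w))
    (hm2 : m2 = ∫ w : ℂ, be f 2 (Complex.normSq w)) :
    (∫ p in X, Ft h f p ^ 2 * vol (met W0) p) = 2 ^ 20 * C0 * (A ^ 18 * m ^ 2) ∧
    (∫ p in X, gradSq (met W0) (Ft h f) p * vol (met W0) p) ≤
      2 ^ 21 * C0 * (45 / 22 * (A' * A ^ 17 * (m1 * m)) + 2 / 11 * (A ^ 18 * (m2 * m))) := by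
  have hXm := isOpen_X.measurableSet
  have f0 : Fac η (fun _ => al h 0) (fun _ => be f 0) :=
    P.fac (fun _ => Or.inl rfl) (fun _ => Or.inl rfl)
  have fj : ∀ j : Fin 18, Fac η (fun i => if i = j then al h 1 else al h 0)
      (fun a => if a = blk j then be f 1 else be f 0) := fun j =>
    P.fac (fun i => by by_cases hi : i = j <;> simp [hi])
      (fun a => by by_cases ha : a = blk j <;> simp [ha])
  have fa : ∀ a : Fin 2, Fac η (fun _ => al h 0) (fun b => if b = a then be f 2 else be f 0) :=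
    fun a => P.fac (fun _ => Or.inl rfl) (fun b => by by_cases hb : b = a <;> simp [hb])
  constructor
  · rw [setIntegral_congr_fun hXm fun p hp => mass_dens h f hp, integral_const_mul, f0.integral]
    simp only [Fin.prod_univ_two, ← hm, ← hA]
    rw [Finset.prod_const, Finset.card_univ, Fintype.card_fin]
    ring
  · have hdf : Differentiable ℝ f := P.fs.differentiable (by norm_cast)
    have hdh : Differentiable ℝ h := P.hs.differentiable (by norm_cast)
    have hle : (∫ p in X, gradSq (met W0) (Ft h f) p * vol (met W0) p) ≤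
        ∫ p in X, 2 ^ 21 * C0 * (5 / 44 * ∑ j,
      PX (fun i => if i = j then al h 1 else al h 0)
        (fun a => if a = blk j then be f 1 else be f 0) p +
      1 / 11 * ∑ a, PX (fun _ => al h 0) (fun b => if b = a then be f 2 else be f 0) p) := by
      apply integral_mono_of_nonneg
      · filter_upwards [ae_restrict_mem hXm] with p hp
        exact mul_nonneg (gradSq_nonneg hp _) (vol_pos hp).le
      · refine Integrable.const_mul ?_ _
        refine Integrable.add (Integrable.const_mul ?_ _) (Integrable.const_mul ?_ _)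
        · exact integrable_finsetSum _ fun j _ => (fj j).integrable.integrableOn
        · exact integrable_finsetSum _ fun a _ => (fa a).integrable.integrableOn
      · filter_upwards [ae_restrict_mem hXm] with p hp
        rw [← energy_dens h hdf hp]
        exact mul_le_mul_of_nonneg_right (gradSq_le good_W0 D01_W0 hdh hdf hp) (vol_pos hp).le
    refine hle.trans (le_of_eq ?_)
    rw [integral_const_mul, integral_add, integral_const_mul, integral_const_mul,
      integral_finsetSum _ (fun j _ => (fj j).integrable.integrableOn),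
      integral_finsetSum _ (fun a _ => (fa a).integrable.integrableOn)]
    · have s1 : ∀ j : Fin 18, (∫ p in X, PX (fun i => if i = j then al h 1 else al h 0)
        (fun a => if a = blk j then be f 1 else be f 0) p) = A' * A ^ 17 * (m1 * m) := by
        intro j
        rw [(fj j).integral]
        congr 1
        · apply prod_if _ j A A'
          intro i
          by_cases hi : i = j
          · simp [hi, hA']
          · simp [hi, hA]
        · rw [prod_if _ (blk j) m m1 (fun a => by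
            by_cases ha : a = blk j
            · simp [ha, hm1]
            · simp [ha, hm])]
          simp
      have s2 : ∀ a : Fin 2, (∫ p in X, PX (fun _ => al h 0)
          (fun b => if b = a then be f 2 else be f 0) p) = A ^ 18 * (m2 * m) := by
        intro a
        rw [(fa a).integral, ← hA, Finset.prod_const]
        congr 1
        rw [prod_if _ a m m2 (fun b => by
            by_cases hb : b = a
            · simp [hb, hm2]
            · simp [hb, hm])]
        simp
      simp only [s1, s2, Finset.sum_const, Finset.card_univ, Fintype.card_fin, nsmul_eq_mul]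
      push_cast
      ring
    · exact (integrable_finsetSum _ fun j _ => (fj j).integrable.integrableOn).const_mul _
    · exact (integrable_finsetSum _ fun a _ => (fa a).integrable.integrableOn).const_mul _

theorem bottom_W0_le : bottom X (met W0) ≤ 75 / 11 := by
  apply le_of_forall_pos_le_add
  intro ε hε
  obtain ⟨f, hfs, η1, hη1, hη1', hf0, hmpos, hm1m, hmm⟩ := exists_fk (half_pos hε)
  obtain ⟨h, hhs, hhc, hht, -, hApos, hAA⟩ := H911R3.test_fn (ε := ε / 20) (by positivity)
  have esc : ∀ z : ℂ, H911R3.sc z = Complex.normSq z := by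
    intro z
    rw [H911R3.sc, Complex.normSq_apply]
    ring
  simp only [esc] at hht hApos hAA
  obtain ⟨η2, hη2, hh0⟩ : ∃ η2 : ℝ, 0 < η2 ∧ ∀ z, 1 - η2 < Complex.normSq z → h z = 0 := by
    rcases (tsupport h).eq_empty_or_nonempty with he | hne
    · refine ⟨1, one_pos, fun z _ => ?_⟩
      apply image_eq_zero_of_notMem_tsupport
      rw [he]
      exact notMem_empty z
    · obtain ⟨z0, hz0, hmax⟩ := IsCompact.exists_isMaxOn hhc.isCompact hne
        Complex.continuous_normSq.continuousOn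
      have h1 : Complex.normSq z0 < 1 := hht hz0
      refine ⟨1 - Complex.normSq z0, by linarith, fun z hz => ?_⟩
      apply image_eq_zero_of_notMem_tsupport
      intro hmem
      have := hmax hmem
      simp only [mem_ofPred_eq] at this
      linarith
  set η := min η1 η2 with hη
  have P : Prof η h f :=
    { pos := lt_min hη1 hη2
      le := (min_le_left _ _).trans hη1'
      hs := hhs
      fs := hfs
      h0 := fun z hz => hh0 z (by have := min_le_right η1 η2; linarith)
      f0 := fun s hs => hf0 s (by have := min_le_left η1 η2; linarith) }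
  set A := ∫ z : ℂ, al h 0 z / (1 - Complex.normSq z) ^ 2 with hA
  set A' := ∫ z : ℂ, al h 1 z / (1 - Complex.normSq z) ^ 2 with hA'
  set m := ∫ w : ℂ, be f 0 (Complex.normSq w) with hm
  set m1 := ∫ w : ℂ, be f 1 (Complex.normSq w) with hm1
  set m2 := ∫ w : ℂ, be f 2 (Complex.normSq w) with hm2
  obtain ⟨r1, r2⟩ := rayleigh_le P hA hA' hm hm1 hm2
  have hmp : 0 < m := hmpos
  have hm1m' : m1 ≤ m := hm1m
  have hmm' : 45 / 11 * m1 + 4 / 11 * m2 ≤ (75 / 11 + ε / 2) * m := hmm
  have hm1p : 0 ≤ m1 := by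
    apply integral_nonneg
    intro w
    simp only [be1]
    positivity
  have hAe : A = ∫ z : ℂ, h z ^ 2 * (1 / (1 - Complex.normSq z) ^ 2) := by
    rw [hA]
    refine integral_congr_ae (Eventually.of_forall fun z => ?_)
    simp only [al, Matrix.cons_val_zero]
    ring
  have hA'e : A' = ∫ z : ℂ, (fderiv ℝ h z 1 ^ 2 + fderiv ℝ h z Complex.I ^ 2) := by
    rw [hA']
    refine integral_congr_ae (Eventually.of_forall fun z => ?_)
    simp only [al, Matrix.cons_val_one]
    by_cases hz : 1 - Complex.normSq z = 0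
    · have h1 := (P.fac (α := fun _ => al h 1) (β := fun _ => be f 0) (fun _ => Or.inr rfl)
        (fun _ => Or.inl rfl))
      have h2 : fderiv ℝ h z = 0 := by
        have hz' : 1 - η < Complex.normSq z := by
          have := P.pos
          linarith
        have : h =ᶠ[𝓝 z] fun _ => 0 := by
          filter_upwards [(isOpen_lt continuous_const Complex.continuous_normSq).mem_nhds hz']
            with w hw
          exact P.h0 w hw
        rw [this.fderiv_eq]
        simp
      simp [h2]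
    · have : (1 - Complex.normSq z) ^ 2 ≠ 0 := pow_ne_zero 2 hz
      simp only [Matrix.cons_val_fin_one]
      field_simp
  have hAp : 0 < A := by rw [hAe]; exact hApos
  have hAA' : A' ≤ (1 + ε / 20) * A := by rw [hAe, hA'e]; exact hAA
  have hmass : 0 < 2 ^ 20 * C0 * (A ^ 18 * m ^ 2) := by
    have := C0_pos
    positivity
  have hbdd : BddBelow {r : ℝ | ∃ f : (Ix → ℂ) → ℝ, ContDiff ℝ ((⊤ : ℕ∞) : WithTop ℕ∞) f ∧
    HasCompactSupport f ∧ tsupport f ⊆ X ∧ f ≠ 0 ∧
    r = (∫ p in X, gradSq (met W0) f p * vol (met W0) p) /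
      ∫ p in X, f p ^ 2 * vol (met W0) p} := by
    refine ⟨0, ?_⟩
    rintro r ⟨F, _, _, _, _, rfl⟩
    apply div_nonneg
    · exact setIntegral_nonneg isOpen_X.measurableSet fun p hp =>
        mul_nonneg (gradSq_nonneg hp _) (vol_pos hp).le
    · exact setIntegral_nonneg isOpen_X.measurableSet fun p hp =>
        mul_nonneg (sq_nonneg _) (vol_pos hp).le
  have hFne : Ft h f ≠ 0 := by
    intro h0
    rw [h0] at r1
    simp at r1
    have := C0_pos
    rcases r1 with h' | h' | h'
    · exact this.ne' h'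
    · exact hAp.ne' h'
    · exact hmp.ne' h'
  refine (csInf_le hbdd ⟨Ft h f, P.contDiff, P.compact,
    P.tsupport_subset.trans (fun p hp => hp.1), hFne, rfl⟩).trans ?_
  rw [r1, div_le_iff₀ hmass]
  refine r2.trans ?_
  have k1 : A' * m1 ≤ (1 + ε / 20) * A * m1 := mul_le_mul_of_nonneg_right hAA' hm1p
  have k2 : A * (45 / 11 * m1 + 4 / 11 * m2) ≤ A * ((75 / 11 + ε / 2) * m) :=
    mul_le_mul_of_nonneg_left hmm' hAp.le
  have k3 : ε / 20 * A * m1 ≤ ε / 20 * A * m :=
    mul_le_mul_of_nonneg_left hm1m' (by positivity)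
  have k4 : 45 / 11 * (A' * m1) + 4 / 11 * (A * m2) ≤ (75 / 11 + ε) * (A * m) := by
    have : 0 ≤ ε * A * m := by positivity
    nlinarith
  have k5 : 0 ≤ 2 ^ 20 * C0 * (A ^ 17 * m) := by
    have := C0_pos
    positivity
  have k6 := mul_le_mul_of_nonneg_left k4 k5
  calc 2 ^ 21 * C0 * (45 / 22 * (A' * A ^ 17 * (m1 * m)) + 2 / 11 * (A ^ 18 * (m2 * m))) =
      2 ^ 20 * C0 * (A ^ 17 * m) * (45 / 11 * (A' * m1) + 4 / 11 * (A * m2)) := by ring
    _ ≤ 2 ^ 20 * C0 * (A ^ 17 * m) * ((75 / 11 + ε) * (A * m)) := k6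
    _ = _ := by ring

end Pool.Agent.L5helper88.KE
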