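import Pool.Agent.L5helper88.KE.Defs

/-! Calculus of Wirtinger derivatives. -/

set_option linter.unusedSectionVars false

namespace Pool.Agent.L5helper88.KE

open MeasureTheory Set Filter Topology
open scoped ComplexOrder ComplexConjugate

variable {ι : Type} [Fintype ι] [DecidableEq ι]

/-- the real linear map `v ↦ ∑ a_i v_i + b_i conj v_i` -/
noncomputable def Wl (a b : ι → ℂ) : (ι → ℂ) →L[ℝ] ℂ :=
  ∑ i, (a i • (ContinuousLinearMap.proj (R := ℝ) (φ := fun _ : ι => ℂ) i) +
    b i • ((Complex.conjCLE : ℂ →L[ℝ] ℂ).comp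
      (ContinuousLinearMap.proj (R := ℝ) (φ := fun _ : ι => ℂ) i)))

theorem Wl_apply (a b v : ι → ℂ) : Wl a b v = ∑ i, (a i * v i + b i * conj (v i)) := by
  simp [Wl]

theorem Wl_single_one (a b : ι → ℂ) (i : ι) : Wl a b (Pi.single i 1) = a i + b i := by
  rw [Wl_apply, Finset.sum_eq_single i]
  · simp
  · intro j _ hj
    simp [Pi.single_eq_of_ne hj]
  · simp

theorem Wl_single_I (a b : ι → ℂ) (i : ι) :
    Wl a b (Pi.single i Complex.I) = (a i - b i) * Complex.I := by
  rw [Wl_apply, Finset.sum_eq_single i]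
  · simp; ring
  · intro j _ hj
    simp [Pi.single_eq_of_ne hj]
  · simp

/-- `f` has Wirtinger derivatives `a` (holomorphic) and `b` (antiholomorphic) at `p` -/
def HasW (f : (ι → ℂ) → ℂ) (p : ι → ℂ) (a b : ι → ℂ) : Prop := HasFDerivAt f (Wl a b) p

theorem HasW.dz {f : (ι → ℂ) → ℂ} {p a b : ι → ℂ} (h : HasW f p a b) (i : ι) : dz i f p = a i := by
  unfold KE.dz
  rw [HasFDerivAt.fderiv h, Wl_single_one, Wl_single_I]
  linear_combination (-(a i - b i) / 2) * Complex.I_mul_I

theorem HasW.dzbar {f : (ι → ℂ) → ℂ} {p a b : ι → ℂ} (h : HasW f p a b) (i : ι) :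
    dzbar i f p = b i := by
  unfold KE.dzbar
  rw [HasFDerivAt.fderiv h, Wl_single_one, Wl_single_I]
  linear_combination ((a i - b i) / 2) * Complex.I_mul_I

theorem Wl_congr {a b a' b' : ι → ℂ} (h1 : ∀ i, a i = a' i) (h2 : ∀ i, b i = b' i) :
    Wl a b = Wl a' b' := by
  rw [funext h1, funext h2]

theorem HasW.congr {f : (ι → ℂ) → ℂ} {p a b a' b' : ι → ℂ} (h : HasW f p a b)
    (h1 : ∀ i, a i = a' i) (h2 : ∀ i, b i = b' i) : HasW f p a' b' := by
  have e1 : a = a' := funext h1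
  have e2 : b = b' := funext h2
  rwa [← e1, ← e2]

theorem HasW.congr_fun {f g : (ι → ℂ) → ℂ} {p a b : ι → ℂ} (h : HasW f p a b)
    (hfg : g =ᶠ[𝓝 p] f) : HasW g p a b := HasFDerivAt.congr_of_eventuallyEq h hfg

theorem hasW_const (c : ℂ) (p : ι → ℂ) : HasW (fun _ => c) p 0 0 := by
  unfold HasW
  refine (hasFDerivAt_const c p).congr_fderiv ?_
  ext v
  simp [Wl_apply]

theorem HasW.add {f g : (ι → ℂ) → ℂ} {p a b c d : ι → ℂ} (hf : HasW f p a b) (hg : HasW g p c d) :
    HasW (fun q => f q + g q) p (fun i => a i + c i) (fun i => b i + d i) := by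
  unfold HasW at *
  refine (hf.add hg).congr_fderiv ?_
  ext v
  simp only [_root_.add_apply, Wl_apply]
  rw [← Finset.sum_add_distrib]
  exact Finset.sum_congr rfl fun i _ => by ring

theorem HasW.mul {f g : (ι → ℂ) → ℂ} {p a b c d : ι → ℂ} (hf : HasW f p a b) (hg : HasW g p c d) :
    HasW (fun q => f q * g q) p (fun i => f p * c i + g p * a i)
      (fun i => f p * d i + g p * b i) := by
  unfold HasW at *
  refine (hf.mul hg).congr_fderiv ?_
  ext v
  simp only [_root_.add_apply, _root_.smul_apply, Wl_apply, smul_eq_mul, Finset.mul_sum]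
  rw [← Finset.sum_add_distrib]
  exact Finset.sum_congr rfl fun i _ => by ring

theorem HasW.const_mul {f : (ι → ℂ) → ℂ} {p a b : ι → ℂ} (hf : HasW f p a b) (c : ℂ) :
    HasW (fun q => c * f q) p (fun i => c * a i) (fun i => c * b i) :=
  ((hasW_const c p).mul hf).congr (by simp) (by simp)

theorem HasW.neg {f : (ι → ℂ) → ℂ} {p a b : ι → ℂ} (hf : HasW f p a b) :
    HasW (fun q => - f q) p (fun i => - a i) (fun i => - b i) := by
  have := hf.const_mul (-1)
  simpa using this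

theorem HasW.sub {f g : (ι → ℂ) → ℂ} {p a b c d : ι → ℂ} (hf : HasW f p a b) (hg : HasW g p c d) :
    HasW (fun q => f q - g q) p (fun i => a i - c i) (fun i => b i - d i) := by
  have := hf.add hg.neg
  simpa [sub_eq_add_neg] using this

theorem HasW.sum {α : Type*} {s : Finset α} {f : α → (ι → ℂ) → ℂ} {p : ι → ℂ}
    {a b : α → ι → ℂ} (h : ∀ k ∈ s, HasW (f k) p (a k) (b k)) :
    HasW (fun q => ∑ k ∈ s, f k q) p (fun i => ∑ k ∈ s, a k i) (fun i => ∑ k ∈ s, b k i) := by
  classical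
  induction s using Finset.induction_on with
  | empty => exact (hasW_const 0 p).congr_fun (by simp) |>.congr (by simp) (by simp)
  | insert k s hk ih =>
    have h1 := (h k (Finset.mem_insert_self k s)).add
      (ih fun j hj => h j (Finset.mem_insert_of_mem hj))
    simpa [Finset.sum_insert hk] using h1

theorem hasW_coord (K : ι) (p : ι → ℂ) : HasW (fun q => q K) p (Pi.single K 1) 0 := by
  unfold HasW
  have h : HasFDerivAt (fun q : ι → ℂ => q K)
    (ContinuousLinearMap.proj (R := ℝ) (φ := fun _ : ι => ℂ) K) p :=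
    (ContinuousLinearMap.proj (R := ℝ) (φ := fun _ : ι => ℂ) K).hasFDerivAt
  refine h.congr_fderiv ?_
  ext v
  rw [Wl_apply, Finset.sum_eq_single K]
  · simp
  · intro j _ hj
    simp [Pi.single_eq_of_ne hj]
  · simp

theorem hasW_conj_coord (K : ι) (p : ι → ℂ) :
    HasW (fun q => conj (q K)) p 0 (Pi.single K 1) := by
  unfold HasW
  have h : HasFDerivAt (fun q : ι → ℂ => conj (q K))
    ((Complex.conjCLE : ℂ →L[ℝ] ℂ).comp
      (ContinuousLinearMap.proj (R := ℝ) (φ := fun _ : ι => ℂ) K)) p :=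
    ((Complex.conjCLE : ℂ →L[ℝ] ℂ).comp
      (ContinuousLinearMap.proj (R := ℝ) (φ := fun _ : ι => ℂ) K)).hasFDerivAt
  refine h.congr_fderiv ?_
  ext v
  rw [Wl_apply, Finset.sum_eq_single K]
  · simp
  · intro j _ hj
    simp [Pi.single_eq_of_ne hj]
  · simp

/-- real functions -/
theorem HasW.hasFDerivAt_re {h : (ι → ℂ) → ℝ} {p a b : ι → ℂ}
    (hh : HasW (fun q => ((h q : ℝ) : ℂ)) p a b) :
    HasFDerivAt h (Complex.reCLM.comp (Wl a b)) p := by
  have := Complex.reCLM.hasFDerivAt.comp p hh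
  exact this

theorem HasW.real {h : (ι → ℂ) → ℝ} {p a b : ι → ℂ}
    (hh : HasW (fun q => ((h q : ℝ) : ℂ)) p a b) (v : ι → ℂ) :
    ((Wl a b v).re : ℂ) = Wl a b v := by
  have h1 := Complex.ofRealCLM.hasFDerivAt.comp p hh.hasFDerivAt_re
  have h2 := h1.unique hh
  have := congrArg (fun L => L v) h2
  simpa using this

theorem HasW.comp {h : (ι → ℂ) → ℝ} {p a b : ι → ℂ} {φ : ℝ → ℝ} {φ' : ℝ}
    (hh : HasW (fun q => ((h q : ℝ) : ℂ)) p a b) (hφ : HasDerivAt φ φ' (h p)) :
    HasW (fun q => ((φ (h q) : ℝ) : ℂ)) p (fun i => φ' * a i) (fun i => φ' * b i) := by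
  have h1 := hφ.comp_hasFDerivAt p hh.hasFDerivAt_re
  have h2 := Complex.ofRealCLM.hasFDerivAt.comp p h1
  unfold HasW
  refine HasFDerivAt.congr_fderiv h2 ?_
  ext v
  simp only [ContinuousLinearMap.comp_apply, _root_.smul_apply, Complex.reCLM_apply,
    Complex.ofRealCLM_apply, smul_eq_mul, Complex.ofReal_mul, hh.real v]
  rw [Wl_apply, Wl_apply, Finset.mul_sum]
  exact Finset.sum_congr rfl fun i _ => by ring

/-- composition with a function of finitely many real variables -/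
theorem HasW.comp_pi {κ : Type*} [Fintype κ] [DecidableEq κ] {h : (ι → ℂ) → κ → ℝ} {p : ι → ℂ}
    {a b : κ → ι → ℂ} {W : (κ → ℝ) → ℝ}
    {W' : (κ → ℝ) →L[ℝ] ℝ} (hh : ∀ k, HasW (fun q => ((h q k : ℝ) : ℂ)) p (a k) (b k))
    (hW : HasFDerivAt W W' (h p)) :
    HasW (fun q => ((W (h q) : ℝ) : ℂ)) p (fun i => ∑ k, (W' (Pi.single k 1) : ℂ) * a k i)
      (fun i => ∑ k, (W' (Pi.single k 1) : ℂ) * b k i) := by
  have h0 : HasFDerivAt h (ContinuousLinearMap.pi fun k => Complex.reCLM.comp (Wl (a k) (b k))) p :=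
    hasFDerivAt_pi.mpr fun k => (hh k).hasFDerivAt_re
  have h1 := hW.comp p h0
  have h2 := Complex.ofRealCLM.hasFDerivAt.comp p h1
  unfold HasW
  refine HasFDerivAt.congr_fderiv h2 ?_
  ext v
  have e : ∀ x : κ → ℝ, W' x = ∑ k, W' (Pi.single k 1) * x k := by
    intro x
    have : x = ∑ k, x k • (Pi.single k (1 : ℝ) : κ → ℝ) := by
      ext j
      simp [Finset.sum_apply, Pi.single_apply]
    conv_lhs => rw [this]
    rw [map_sum]
    exact Finset.sum_congr rfl fun k _ => by rw [map_smul, smul_eq_mul, mul_comm]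
  simp only [ContinuousLinearMap.comp_apply, Complex.ofRealCLM_apply]
  rw [e]
  simp only [ContinuousLinearMap.pi_apply, ContinuousLinearMap.comp_apply, Complex.reCLM_apply]
  rw [Complex.ofReal_sum]
  simp only [Complex.ofReal_mul]
  have e2 : ∀ k, (((Wl (a k) (b k)) v).re : ℂ) = Wl (a k) (b k) v := fun k => (hh k).real v
  simp only [e2]
  simp only [Wl_apply, Finset.mul_sum]
  rw [Finset.sum_comm]
  apply Finset.sum_congr rfl
  intro i _
  rw [Finset.sum_mul, Finset.sum_mul, ← Finset.sum_add_distrib]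
  exact Finset.sum_congr rfl fun k _ => by ring

end Pool.Agent.L5helper88.KE
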